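import Pool.Agent.W712.RC.Defs

set_option autoImplicit false

/-! # Bounded solutions of hyperbolic recurrences

The sup-norm contraction operator on sequences and its consequences. -/

open Set Filter Topology

namespace Pool.Agent.W712.RC

/-- Fixed points of sup-norm contractions at bounded distance of a reference sequence, depending
continuously on a parameter. -/
theorem exists_fix {Θ ι : Type*} [TopologicalSpace Θ] (T : Θ → (ι → E) → ι → E) (r : Θ → ι → E)
    (lam B : ℝ) (h0 : 0 ≤ lam)
    (h1 : lam < 1) (hB0 : 0 ≤ B) (hB : ∀ θ n, ‖T θ (r θ) n - r θ n‖ ≤ B)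
    (hT : ∀ θ, ∀ x x' : ι → E, ∀ D : ℝ, 0 ≤ D → (∀ n, ‖x n - x' n‖ ≤ D) →
      ∀ n, ‖T θ x n - T θ x' n‖ ≤ lam * D)
    (hr : ∀ n, Continuous fun θ => r θ n)
    (hTc : ∀ x : Θ → ι → E, (∀ n, Continuous fun θ => x θ n) →
      ∀ n, Continuous fun θ => T θ (x θ) n) :
    ∃ x : Θ → ι → E, (∀ θ, T θ (x θ) = x θ) ∧ (∀ θ n, ‖x θ n - r θ n‖ ≤ B / (1 - lam)) ∧
      ∀ n, Continuous fun θ => x θ n := by
  set X : ℕ → Θ → ι → E := fun k θ => (T θ)^[k] (r θ) with hX
  have hXs : ∀ j θ, X (j + 1) θ = T θ (X j θ) := fun j θ =>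
    Function.iterate_succ_apply' (T θ) j (r θ)
  have hstep : ∀ k θ n, ‖X (k + 1) θ n - X k θ n‖ ≤ B * lam ^ k := by
    intro k
    induction k with
    | zero => intro θ n; simpa [hX] using hB θ n
    | succ k ih =>
      intro θ n
      rw [hXs (k + 1), hXs k]
      have h3 := hT θ (X (k + 1) θ) (X k θ) (B * lam ^ k) (by positivity) (ih θ) n
      rw [hXs k] at h3
      calc _ ≤ lam * (B * lam ^ k) := h3
        _ = B * lam ^ (k + 1) := by ring
  have hdist : ∀ θ n k, dist (X k θ n) (X (k + 1) θ n) ≤ B * lam ^ k := by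
    intro θ n k
    rw [dist_eq_norm, norm_sub_rev]; exact hstep k θ n
  have hc : ∀ θ n, CauchySeq fun k => X k θ n := fun θ n =>
    cauchySeq_of_le_geometric lam B h1 (hdist θ n)
  choose x hx using fun θ n => cauchySeq_tendsto_of_complete (hc θ n)
  have hxd : ∀ θ n k, dist (X k θ n) (x θ n) ≤ B * lam ^ k / (1 - lam) := fun θ n k =>
    dist_le_of_le_geometric_of_tendsto lam B h1 (hdist θ n) (hx θ n) k
  have hXc : ∀ k n, Continuous fun θ => X k θ n := by
    intro k
    induction k with
    | zero => intro n; simpa [hX] using hr n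
    | succ k ih =>
      intro n
      have := hTc (X k) ih n
      refine this.congr fun θ => ?_
      rw [hXs]
  refine ⟨x, ?_, ?_, ?_⟩
  · intro θ
    funext n
    have h4 : Tendsto (fun k => T θ (X k θ) n) atTop (𝓝 (T θ (x θ) n)) := by
      rw [tendsto_iff_dist_tendsto_zero]
      have h5 : ∀ k, dist (T θ (X k θ) n) (T θ (x θ) n) ≤ lam * (B * lam ^ k / (1 - lam)) := by
        intro k
        rw [dist_eq_norm]
        refine hT _ _ _ _ (div_nonneg (by positivity) (by linarith)) (fun n => ?_) n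
        rw [← dist_eq_norm]; exact hxd θ n k
      refine squeeze_zero (fun _ => dist_nonneg) h5 ?_
      have h6 : Tendsto (fun k : ℕ => lam * (B * lam ^ k / (1 - lam))) atTop
          (𝓝 (lam * (B * 0 / (1 - lam)))) :=
        (((tendsto_pow_atTop_nhds_zero_of_lt_one h0 h1).const_mul B).div_const _).const_mul lam
      simpa using h6
    have h5 : Tendsto (fun k => T θ (X k θ) n) atTop (𝓝 (x θ n)) := by
      have h6 := (tendsto_add_atTop_iff_nat 1).2 (hx θ n)
      refine h6.congr fun k => ?_
      rw [hXs]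
    exact tendsto_nhds_unique h4 h5
  · intro θ n
    have h4 := hxd θ n 0
    simp only [pow_zero, mul_one] at h4
    rw [← dist_eq_norm, dist_comm]
    exact h4
  · intro n
    have hu : TendstoUniformly (fun k θ => X k θ n) (fun θ => x θ n) atTop := by
      rw [Metric.tendstoUniformly_iff]
      intro ε hε
      have h6 : Tendsto (fun k : ℕ => B * lam ^ k / (1 - lam)) atTop
          (𝓝 (B * 0 / (1 - lam))) :=
        ((tendsto_pow_atTop_nhds_zero_of_lt_one h0 h1).const_mul B).div_const _
      rw [mul_zero, zero_div] at h6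
      filter_upwards [h6.eventually (gt_mem_nhds hε)] with k hk θ
      rw [dist_comm]
      exact (hxd θ n k).trans_lt hk
    exact hu.continuous (Eventually.of_forall fun k => hXc k n).frequently

/-- Data of a perturbed diagonal affine recurrence on an index set with partial predecessor and
successor functions. -/
structure Data (ι : Type*) where
  pred : ι → Option ι
  succ : ι → Option ι
  e : Fin 4 → Bool
  m : Fin 4 → ℝ
  b : Fin 4 → ℝ
  p : ι → E → E
  kap : ℝ
  lam : ℝ
  hkap : 0 ≤ kap
  hlam1 : lam < 1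
  hcon : ∀ i, e i = false → |m i| + kap ≤ lam
  hexp : ∀ i, e i = true → 1 + kap ≤ lam * |m i|
  hp : ∀ n x x', ‖p n x - p n x'‖ ≤ kap * ‖x - x'‖

namespace Data

variable {ι : Type*} (S : Data ι)

/-- The operator. -/
noncomputable def T (c : E) (x : ι → E) (n : ι) (i : Fin 4) : ℝ :=
  if S.e i = true then
    (match S.succ n with
      | none => c i
      | some k => (x k i - S.b i - S.p n (x n) i) / S.m i)
  else
    (match S.pred n with
      | none => c i
      | some k => S.m i * x k i + S.b i + S.p k (x k) i)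

/-- `x` solves the recurrence. -/
def Sol (c : E) (x : ι → E) : Prop :=
  ∀ n i, (S.e i = true → (match S.succ n with
      | none => x n i = c i
      | some k => x k i = S.m i * x n i + S.b i + S.p n (x n) i)) ∧
    (S.e i = false → (match S.pred n with
      | none => x n i = c i
      | some k => x n i = S.m i * x k i + S.b i + S.p k (x k) i))

/-- `r` solves the unperturbed recurrence. -/
def Ref (c : E) (r : ι → E) : Prop :=
  ∀ n i, (S.e i = true → (match S.succ n with
      | none => r n i = c i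
      | some k => r k i = S.m i * r n i + S.b i)) ∧
    (S.e i = false → (match S.pred n with
      | none => r n i = c i
      | some k => r n i = S.m i * r k i + S.b i))

theorem lam_pos_aux (i : Fin 4) : 0 ≤ S.lam := by
  cases h : S.e i with
  | false => have := S.hcon i h; have := abs_nonneg (S.m i); have := S.hkap; linarith
  | true =>
    have h1 := S.hexp i h
    by_contra h2
    push Not at h2
    have h3 : S.lam * |S.m i| ≤ 0 := mul_nonpos_of_nonpos_of_nonneg h2.le (abs_nonneg (S.m i))
    have := S.hkap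
    linarith

theorem lam_nonneg : 0 ≤ S.lam := S.lam_pos_aux 0

theorem m_pos {i : Fin 4} (h : S.e i = true) : 0 < |S.m i| := by
  have h1 := S.hexp i h
  have h2 := S.hkap
  have h3 := S.lam_nonneg
  by_contra h4
  have h5 : |S.m i| = 0 := le_antisymm (not_lt.1 h4) (abs_nonneg _)
  rw [h5, mul_zero] at h1
  linarith

theorem one_lt_m {i : Fin 4} (h : S.e i = true) : 1 ≤ |S.m i| := by
  have h1 := S.hexp i h
  have h2 := S.hkap
  have h3 := S.lam_nonneg
  have h4 := S.hlam1
  have h5 := abs_nonneg (S.m i)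
  nlinarith

theorem p_cont (n : ι) : Continuous (S.p n) := by
  have : LipschitzWith (Real.toNNReal S.kap) (S.p n) := by
    refine LipschitzWith.of_dist_le_mul fun x y => ?_
    rw [dist_eq_norm, dist_eq_norm, Real.coe_toNNReal _ S.hkap]
    exact S.hp n x y
  exact this.continuous

theorem T_ref (c : E) (r : ι → E) (hr : S.Ref c r) (β : ℝ) (hβ : 0 ≤ β)
    (hpr : ∀ n, ‖S.p n (r n)‖ ≤ β) (n : ι) : ‖S.T c r n - r n‖ ≤ β := by
  rw [pi_norm_le_iff_of_nonneg hβ]
  intro i
  rw [Pi.sub_apply, Real.norm_eq_abs]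
  unfold T
  have hri := hr n i
  cases hi : S.e i with
  | true =>
    rw [if_pos rfl]
    have h1 := hri.1 hi
    have hm : S.m i ≠ 0 := abs_pos.1 (S.m_pos hi)
    cases h2 : S.succ n with
    | none => rw [h2] at h1; simp only at h1 ⊢; rw [h1]; simpa using hβ
    | some k =>
      rw [h2] at h1
      simp only at h1 ⊢
      rw [h1]
      have h3 : (S.m i * r n i + S.b i - S.b i - S.p n (r n) i) / S.m i - r n i
          = - (S.p n (r n) i / S.m i) := by field_simp; ring
      rw [h3, abs_neg, abs_div]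
      have h4 : |S.p n (r n) i| ≤ β := (norm_le_pi_norm (S.p n (r n)) i).trans (hpr n)
      have h5 := S.one_lt_m hi
      exact (div_le_self (abs_nonneg _) h5).trans h4
  | false =>
    rw [if_neg (by simp)]
    have h1 := hri.2 hi
    cases h2 : S.pred n with
    | none => rw [h2] at h1; simp only at h1 ⊢; rw [h1]; simpa using hβ
    | some k =>
      rw [h2] at h1
      simp only at h1 ⊢
      rw [h1]
      have h3 : S.m i * r k i + S.b i + S.p k (r k) i - (S.m i * r k i + S.b i)
          = S.p k (r k) i := by ring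
      rw [h3]
      exact (norm_le_pi_norm (S.p k (r k)) i).trans (hpr k)

theorem T_contr (c : E) (x x' : ι → E) (D : ℝ) (hD : 0 ≤ D) (hxx : ∀ n, ‖x n - x' n‖ ≤ D) (n : ι) :
    ‖S.T c x n - S.T c x' n‖ ≤ S.lam * D := by
  rw [pi_norm_le_iff_of_nonneg (mul_nonneg S.lam_nonneg hD)]
  intro i
  rw [Pi.sub_apply, Real.norm_eq_abs]
  unfold T
  have hpD : ∀ k j, |S.p k (x k) j - S.p k (x' k) j| ≤ S.kap * D := by
    intro k j
    have h1 := norm_le_pi_norm (S.p k (x k) - S.p k (x' k)) j
    rw [Pi.sub_apply, Real.norm_eq_abs] at h1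
    exact h1.trans ((S.hp k _ _).trans (mul_le_mul_of_nonneg_left (hxx k) S.hkap))
  have hxD : ∀ k j, |x k j - x' k j| ≤ D := by
    intro k j
    have h1 := norm_le_pi_norm (x k - x' k) j
    rw [Pi.sub_apply, Real.norm_eq_abs] at h1
    exact h1.trans (hxx k)
  cases hi : S.e i with
  | true =>
    rw [if_pos rfl, if_pos rfl]
    have hm : S.m i ≠ 0 := abs_pos.1 (S.m_pos hi)
    cases h2 : S.succ n with
    | none => simp only; simpa using mul_nonneg S.lam_nonneg hD
    | some k =>
      simp only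
      rw [← sub_div, abs_div, div_le_iff₀ (S.m_pos hi)]
      have h3 : x k i - S.b i - S.p n (x n) i - (x' k i - S.b i - S.p n (x' n) i)
          = (x k i - x' k i) - (S.p n (x n) i - S.p n (x' n) i) := by ring
      rw [h3]
      have h4 := abs_sub (x k i - x' k i) (S.p n (x n) i - S.p n (x' n) i)
      have h5 := hxD k i
      have h6 := hpD n i
      have h7 := S.hexp i hi
      have h8 : (1 + S.kap) * D ≤ S.lam * |S.m i| * D := mul_le_mul_of_nonneg_right h7 hD
      calc _ ≤ |x k i - x' k i| + |S.p n (x n) i - S.p n (x' n) i| := h4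
        _ ≤ D + S.kap * D := add_le_add h5 h6
        _ = (1 + S.kap) * D := by ring
        _ ≤ S.lam * |S.m i| * D := h8
        _ = S.lam * D * |S.m i| := by ring
  | false =>
    rw [if_neg (by simp), if_neg (by simp)]
    cases h2 : S.pred n with
    | none => simp only; simpa using mul_nonneg S.lam_nonneg hD
    | some k =>
      simp only
      have h3 : S.m i * x k i + S.b i + S.p k (x k) i - (S.m i * x' k i + S.b i + S.p k (x' k) i)
          = S.m i * (x k i - x' k i) + (S.p k (x k) i - S.p k (x' k) i) := by ring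
      rw [h3]
      have h4 := abs_add_le (S.m i * (x k i - x' k i)) (S.p k (x k) i - S.p k (x' k) i)
      rw [abs_mul] at h4
      have h5 := mul_le_mul_of_nonneg_left (hxD k i) (abs_nonneg (S.m i))
      have h6 := hpD k i
      have h7 := mul_le_mul_of_nonneg_right (S.hcon i hi) hD
      calc _ ≤ |S.m i| * |x k i - x' k i| + |S.p k (x k) i - S.p k (x' k) i| := h4
        _ ≤ |S.m i| * D + S.kap * D := add_le_add h5 h6
        _ = (|S.m i| + S.kap) * D := by ring
        _ ≤ S.lam * D := h7

theorem T_cont {Θ : Type*} [TopologicalSpace Θ] (c : Θ → E) (hc : Continuous c) (x : Θ → ι → E)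
    (hx : ∀ n, Continuous fun θ => x θ n) (n : ι) : Continuous fun θ => S.T (c θ) (x θ) n := by
  refine continuous_pi fun i => ?_
  have hxi : ∀ k j, Continuous fun θ => x θ k j := fun k j =>
    (continuous_apply j).comp (hx k)
  have hpi : ∀ k j, Continuous fun θ => S.p k (x θ k) j := fun k j =>
    (continuous_apply j).comp ((S.p_cont k).comp (hx k))
  unfold T
  cases hi : S.e i with
  | true =>
    simp only [if_true]
    cases h2 : S.succ n with
    | none => exact (continuous_apply i).comp hc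
    | some k =>
      simp only
      exact (((hxi k i).sub continuous_const).sub (hpi n i)).div_const _
  | false =>
    simp only [Bool.false_eq_true, if_false]
    cases h2 : S.pred n with
    | none => exact (continuous_apply i).comp hc
    | some k =>
      simp only
      exact (((hxi k i).const_mul _).add continuous_const).add (hpi k i)


theorem exists_sol {Θ : Type*} [TopologicalSpace Θ] (c : Θ → E) (hc : Continuous c)
    (r : Θ → ι → E) (hr : ∀ θ, S.Ref (c θ) (r θ)) (hrc : ∀ n, Continuous fun θ => r θ n)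
    (β : ℝ) (hβ : 0 ≤ β) (hpr : ∀ θ n, ‖S.p n (r θ n)‖ ≤ β) :
    ∃ x : Θ → ι → E, (∀ θ, S.Sol (c θ) (x θ)) ∧ (∀ θ n, ‖x θ n - r θ n‖ ≤ β / (1 - S.lam)) ∧
      ∀ n, Continuous fun θ => x θ n := by
  obtain ⟨x, hx, hxr, hxc⟩ := exists_fix (fun θ => S.T (c θ)) r S.lam β S.lam_nonneg S.hlam1 hβ
    (fun θ n => S.T_ref (c θ) (r θ) (hr θ) β hβ (hpr θ) n)
    (fun θ x x' D hD hxx n => S.T_contr (c θ) x x' D hD hxx n) hrc
    (fun x hx n => S.T_cont c hc x hx n)
  refine ⟨x, fun θ n i => ⟨fun hi => ?_, fun hi => ?_⟩, hxr, hxc⟩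
  · have h1 : S.T (c θ) (x θ) n i = x θ n i := by rw [hx]
    unfold T at h1
    rw [if_pos hi] at h1
    have hm : S.m i ≠ 0 := abs_pos.1 (S.m_pos hi)
    cases h2 : S.succ n with
    | none => rw [h2] at h1; exact h1.symm
    | some k =>
      rw [h2] at h1
      simp only at h1 ⊢
      rw [div_eq_iff hm] at h1
      linarith
  · have h1 : S.T (c θ) (x θ) n i = x θ n i := by rw [hx]
    unfold T at h1
    rw [if_neg (by simp [hi])] at h1
    cases h2 : S.pred n with
    | none => rw [h2] at h1; exact h1.symm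
    | some k =>
      rw [h2] at h1
      simp only at h1 ⊢
      exact h1.symm

end Data

/-- Weak hyperbolic relation between the difference vectors of two consecutive pairs. -/
def Rel (c : Fin 4 → Bool) (lam : ℝ) (v w : E) : Prop :=
  (∀ i, c i = true → |w i| ≤ lam * max ‖v‖ ‖w‖) ∧ ∀ i, c i = false → |v i| ≤ lam * max ‖v‖ ‖w‖

theorem geom_le {a b D lam : ℝ} (h0 : 0 ≤ lam) (h1 : lam < 1)
    (h : ∀ k : ℕ, a ≤ max b (lam ^ k * D)) : a ≤ max b 0 := by
  have h2 : Tendsto (fun k : ℕ => max b (lam ^ k * D)) atTop (𝓝 (max b (0 * D))) :=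
    (tendsto_const_nhds).max ((tendsto_pow_atTop_nhds_zero_of_lt_one h0 h1).mul_const D)
  rw [zero_mul] at h2
  exact ge_of_tendsto' h2 h

/-- Forward bounded solutions are controlled by the contracting coordinates at time `0`. -/
theorem fwd_bound {c : Fin 4 → Bool} {lam D d : ℝ} (h0 : 0 ≤ lam) (h1 : lam < 1) (hd : 0 ≤ d)
    (v : ℕ → E) (hv : ∀ n, Rel c lam (v n) (v (n + 1))) (hD : ∀ n, ‖v n‖ ≤ D)
    (hd0 : ∀ i, c i = true → |v 0 i| ≤ d) : ∀ n, ‖v n‖ ≤ d := by
  have hD0 : 0 ≤ D := (norm_nonneg _).trans (hD 0)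
  have key : ∀ k : ℕ, ∀ n, ‖v n‖ ≤ max d (lam ^ k * D) := by
    intro k
    induction k with
    | zero => intro n; simpa using Or.inr (hD n)
    | succ k ih =>
      intro n
      have hM : 0 ≤ max d (lam ^ (k + 1) * D) := le_max_of_le_left hd
      rw [pi_norm_le_iff_of_nonneg hM]
      intro i
      rw [Real.norm_eq_abs]
      have h3 : lam * max d (lam ^ k * D) ≤ max d (lam ^ (k + 1) * D) := by
        rw [mul_max_of_nonneg _ _ h0]
        refine max_le_max ?_ (le_of_eq (by ring))
        nlinarith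
      cases hi : c i with
      | true =>
        cases n with
        | zero => exact (hd0 i hi).trans (le_max_left _ _)
        | succ n =>
          refine ((hv n).1 i hi).trans (le_trans ?_ h3)
          exact mul_le_mul_of_nonneg_left (max_le (ih n) (ih (n + 1))) h0
      | false =>
        refine ((hv n).2 i hi).trans (le_trans ?_ h3)
        exact mul_le_mul_of_nonneg_left (max_le (ih n) (ih (n + 1))) h0
  intro n
  have := geom_le h0 h1 (fun k => key k n)
  rwa [max_eq_left hd] at this

/-- One step decay of forward bounded solutions. -/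
theorem fwd_step {c : Fin 4 → Bool} {lam D : ℝ} (h0 : 0 ≤ lam) (h1 : lam < 1)
    (v : ℕ → E) (hv : ∀ n, Rel c lam (v n) (v (n + 1))) (hD : ∀ n, ‖v n‖ ≤ D) (n : ℕ) :
    ‖v (n + 1)‖ ≤ lam * ‖v n‖ := by
  -- the maximum of the contracting coordinates at time `n + 1`
  set d : ℝ := lam * max ‖v n‖ ‖v (n + 1)‖ with hdd
  have hd : 0 ≤ d := mul_nonneg h0 (le_max_of_le_left (norm_nonneg _))
  have h2 := fwd_bound h0 h1 hd (fun k => v (n + 1 + k)) (fun k => hv (n + 1 + k))
    (fun k => hD _) (fun i hi => (hv n).1 i hi) 0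
  simp only [add_zero] at h2
  rcases le_total ‖v n‖ ‖v (n + 1)‖ with h3 | h3
  · rw [hdd, max_eq_right h3] at h2
    have h4 : ‖v (n + 1)‖ = 0 := by
      have := norm_nonneg (v (n + 1))
      nlinarith
    rw [h4]
    exact mul_nonneg h0 (norm_nonneg _)
  · rwa [hdd, max_eq_left h3] at h2

theorem fwd_decay {c : Fin 4 → Bool} {lam D : ℝ} (h0 : 0 ≤ lam) (h1 : lam < 1)
    (v : ℕ → E) (hv : ∀ n, Rel c lam (v n) (v (n + 1))) (hD : ∀ n, ‖v n‖ ≤ D) (n : ℕ) :
    ‖v n‖ ≤ lam ^ n * ‖v 0‖ := by
  induction n with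
  | zero => simp
  | succ n ih =>
    refine (fwd_step h0 h1 v hv hD n).trans ?_
    calc lam * ‖v n‖ ≤ lam * (lam ^ n * ‖v 0‖) := mul_le_mul_of_nonneg_left ih h0
      _ = lam ^ (n + 1) * ‖v 0‖ := by ring

/-- The noncontracting coordinates of a forward bounded solution are smaller by the factor `lam`. -/
theorem fwd_cone {c : Fin 4 → Bool} {lam D d : ℝ} (h0 : 0 ≤ lam) (h1 : lam < 1) (hd : 0 ≤ d)
    (v : ℕ → E) (hv : ∀ n, Rel c lam (v n) (v (n + 1))) (hD : ∀ n, ‖v n‖ ≤ D)
    (hd0 : ∀ i, c i = true → |v 0 i| ≤ d) (n : ℕ) (i : Fin 4) (hi : c i = false) :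
    |v n i| ≤ lam * d := by
  have h2 := fwd_bound h0 h1 hd v hv hD hd0
  exact ((hv n).2 i hi).trans (mul_le_mul_of_nonneg_left (max_le (h2 n) (h2 (n + 1))) h0)

/-- Two sided bounded solutions vanish. -/
theorem two_zero {c : Fin 4 → Bool} {lam D : ℝ} (h0 : 0 ≤ lam) (h1 : lam < 1)
    (v : ℤ → E) (hv : ∀ n, Rel c lam (v n) (v (n + 1))) (hD : ∀ n, ‖v n‖ ≤ D) (n : ℤ) :
    v n = 0 := by
  have hD0 : 0 ≤ D := (norm_nonneg _).trans (hD 0)
  have key : ∀ k : ℕ, ∀ n, ‖v n‖ ≤ lam ^ k * D := by
    intro k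
    induction k with
    | zero => intro n; simpa using hD n
    | succ k ih =>
      intro n
      rw [pi_norm_le_iff_of_nonneg (by positivity)]
      intro i
      rw [Real.norm_eq_abs]
      have h3 : lam * (lam ^ k * D) ≤ lam ^ (k + 1) * D := le_of_eq (by ring)
      cases hi : c i with
      | true =>
        have h4 := (hv (n - 1)).1 i hi
        rw [sub_add_cancel] at h4
        exact h4.trans ((mul_le_mul_of_nonneg_left (max_le (ih _) (ih n)) h0).trans h3)
      | false =>
        exact ((hv n).2 i hi).trans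
          ((mul_le_mul_of_nonneg_left (max_le (ih _) (ih _)) h0).trans h3)
  have h2 : Tendsto (fun k : ℕ => lam ^ k * D) atTop (𝓝 (0 * D)) :=
    (tendsto_pow_atTop_nhds_zero_of_lt_one h0 h1).mul_const D
  rw [zero_mul] at h2
  have h3 : ‖v n‖ ≤ 0 := ge_of_tendsto' h2 fun k => key k n
  exact norm_le_zero_iff.1 h3

theorem Rel.rev {c : Fin 4 → Bool} {lam : ℝ} {v w : E} (h : Rel c lam v w) :
    Rel (fun i => !c i) lam w v := by
  refine ⟨fun i hi => ?_, fun i hi => ?_⟩
  · rw [max_comm]; exact h.2 i (by simpa using hi)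
  · rw [max_comm]; exact h.1 i (by simpa using hi)

end Pool.Agent.W712.RC
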