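import Pool.Agent.W712.RC.Leaf

set_option autoImplicit false

/-! # The crossing of the unstable curve of `Γ` with the stable set of `Λ` -/

open Set Filter Topology Real

namespace Pool.Agent.W712.RC

variable (S : PSys)

/-- The image of the unstable curve. -/
noncomputable def BB (t : ℝ) : E := S.G (xW S t 0)

theorem BB_cont : Continuous (BB S) := S.hG.continuous.comp (xW_cont S 0)

theorem cos_near {e : ℝ} (h : |e| ≤ 3 / 10000) : 99 / 100 ≤ cos (2 * π * e) := by
  have h1 := Real.one_sub_sq_div_two_le_cos (x := 2 * π * e)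
  have h2 := Real.pi_lt_d2
  have h3 := Real.pi_pos
  have h4 : |2 * π * e| ≤ 1 / 100 := by
    rw [abs_mul, abs_of_pos (by positivity : 0 < 2 * π)]
    have := abs_nonneg e
    nlinarith
  have h5 : (2 * π * e) ^ 2 ≤ (1 / 100) ^ 2 := by
    rw [← sq_abs]
    exact pow_le_pow_left₀ (abs_nonneg _) h4 2
  linarith

theorem BB_formula (t : ℝ) : ∃ s y z : ℝ, |s| ≤ 3 * S.δ ∧ |y| ≤ 3 * S.δ ∧ |z| ≤ 3 * S.δ ∧
    |BB S t 2 - psi (y + 1 / 4 * (TT ((ph * t + s) / (ph + 2)) * cz z))| ≤ S.δ ∧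
    |BB S t 3 - psi (z + 3 / 4 * (TT ((ph * t + s) / (ph + 2)) *
      sy (y + 1 / 4 * (TT ((ph * t + s) / (ph + 2)) * cz z))))| ≤ S.δ := by
  have hd := S.δ1
  have hc := xW_close S t 0
  have c1 := coord_le hc 1
  have c2 := coord_le hc 2
  have c3 := coord_le hc 3
  simp only [rW, v4_1, v4_2, v4_3, sub_zero] at c1 c2 c3
  have hPsi : Psi (xW S t 0) = xW S t 0 := Psi_of (by
    rw [abs_le] at c3
    exact tau_zero (by linarith [c3.2]) (by linarith [c3.1]))
  have p2 := coord_le (y := FF (xW S t 0)) (S.bd (xW S t 0)) 2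
  have p3 := coord_le (y := FF (xW S t 0)) (S.bd (xW S t 0)) 3
  refine ⟨xW S t 0 1, xW S t 0 2, xW S t 0 3, c1, c2, c3, ?_, ?_⟩
  · have : FF (xW S t 0) 2 = psi (xW S t 0 2 + 1 / 4 * (TT ((ph * t + xW S t 0 1) / (ph + 2)) *
        cz (xW S t 0 3))) := by
      unfold FF
      rw [hPsi]
      show psi (xW S t 0 2 + 1 / 4 * (TT (xi1 (xW S t 0)) * cz (xW S t 0 3))) = _
      unfold xi1
      rw [xW_u]
    rw [this] at p2
    exact p2
  · have : FF (xW S t 0) 3 = psi (xW S t 0 3 + 3 / 4 * (TT ((ph * t + xW S t 0 1) / (ph + 2)) *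
        sy (xW S t 0 2 + 1 / 4 * (TT ((ph * t + xW S t 0 1) / (ph + 2)) *
        cz (xW S t 0 3))))) := by
      unfold FF
      rw [hPsi]
      show psi (xW S t 0 3 + 3 / 4 * (TT (xi1 (xW S t 0)) * sy (xW S t 0 2 +
        1 / 4 * (TT (xi1 (xW S t 0)) * cz (xW S t 0 3))))) = _
      unfold xi1
      rw [xW_u]
    rw [this] at p3
    exact p3

theorem TT_bd (x : ℝ) : 0 ≤ TT x ∧ TT x ≤ 1 := ⟨sT_nonneg _, sT_le _⟩
theorem cz_bd (x : ℝ) : 0 ≤ cz x ∧ cz x ≤ 1 := ⟨sT_nonneg _, sT_le _⟩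

theorem BB_y (t : ℝ) : |BB S t 2| < 1 / 8 := by
  obtain ⟨s, y, z, hs, hy, hz, h2, -⟩ := BB_formula S t
  have hd := S.δ1
  have hd0 := S.δ0
  obtain ⟨a0, a1⟩ := TT_bd ((ph * t + s) / (ph + 2))
  obtain ⟨b0, b1⟩ := cz_bd z
  have hab : TT ((ph * t + s) / (ph + 2)) * cz z ≤ 1 := by nlinarith
  have hab0 : 0 ≤ TT ((ph * t + s) / (ph + 2)) * cz z := mul_nonneg a0 b0
  rw [abs_le] at hy h2
  have l1 : psi (-(3 / 10000)) ≤ psi (y + 1 / 4 * (TT ((ph * t + s) / (ph + 2)) * cz z)) :=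
    psi_strictMono.monotone (by linarith [hy.1])
  have l2 : psi (y + 1 / 4 * (TT ((ph * t + s) / (ph + 2)) * cz z)) ≤ psi (1 / 4 + 3 / 10000) :=
    psi_strictMono.monotone (by linarith [hy.2])
  rw [psi_small (t := -(3 / 10000)) (by rw [abs_neg, abs_of_pos] <;> norm_num)] at l1
  rw [psi_mid (t := 1 / 4 + 3 / 10000) (by norm_num) (by norm_num)] at l2
  rw [abs_lt]
  constructor
  · linarith [h2.1]
  · norm_num at l2
    linarith [h2.2]

theorem BB_bot : BB S 0 3 < 1 / 2 - 1 / 16 := by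
  obtain ⟨s, y, z, hs, hy, hz, -, h3⟩ := BB_formula S 0
  have hd := S.δ1
  have g1 := ph_gt
  have hT : TT ((ph * 0 + s) / (ph + 2)) = 0 := by
    refine TT_zero ?_
    rw [mul_zero, zero_add, abs_div, abs_of_pos (by linarith : 0 < ph + 2),
      div_le_iff₀ (by linarith)]
    linarith
  rw [hT, zero_mul, mul_zero, add_zero, psi_small (by linarith)] at h3
  rw [abs_le] at hz h3
  linarith [hz.2, h3.2]

theorem BB_top : 1 / 2 + 1 / 16 < BB S (ph - 1 / 2) 3 := by
  obtain ⟨s, y, z, hs, hy, hz, -, h3⟩ := BB_formula S (ph - 1 / 2)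
  have hd := S.δ1
  have g1 := ph_gt
  have hp := ph_sq
  have hx : (ph * (ph - 1 / 2) + s) / (ph + 2) = 1 / 2 + s / (ph + 2) := by
    have : ph + 2 ≠ 0 := by linarith
    field_simp
    linear_combination 2 * hp
  have hse : |s / (ph + 2)| ≤ 3 / 10000 := by
    rw [abs_div, abs_of_pos (by linarith : 0 < ph + 2), div_le_iff₀ (by linarith)]
    nlinarith
  have hT : TT ((ph * (ph - 1 / 2) + s) / (ph + 2)) = 1 := by
    refine sT_one ?_
    rw [hx, show 2 * π * (1 / 2 + s / (ph + 2)) = 2 * π * (s / (ph + 2)) + π by ring,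
      Real.cos_add_pi, neg_neg]
    linarith [cos_near hse]
  have hcz : cz z = 1 := by
    refine sT_one ?_
    linarith [cos_near (e := z) (by linarith)]
  have hsy : sy (y + 1 / 4 * (1 * 1)) = 1 := by
    refine sT_one ?_
    rw [show 2 * π * (y + 1 / 4 * (1 * 1)) = 2 * π * y + π / 2 by ring, Real.sin_add_pi_div_two]
    linarith [cos_near (e := y) (by linarith)]
  rw [hT, hcz, hsy] at h3
  rw [abs_le] at hz h3
  have l1 : psi (7 / 12) ≤ psi (z + 3 / 4 * (1 * 1)) :=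
    psi_strictMono.monotone (by linarith [hz.1])
  rw [psi_top (by norm_num) le_rfl] at l1
  linarith [h3.1]

/-- The dynamics of the `y, z` coordinates in the zone. -/
theorem zone_yz {x : E} (hx : x ∈ ZL.O) : |S.G x 2| < 1 / 8 ∧
    |S.G x 3 - 1 / 2 - 11 / 4 * (x 3 - 1 / 2)| ≤ S.δ := by
  have hd := S.δ1
  have e2 : S.G x 2 = 1 / 8 * x 2 + 0 + S.p x 2 := Sys.G_zone hx 2
  have e3 : S.G x 3 = 11 / 4 * x 3 + -(7 / 8) + S.p x 3 := Sys.G_zone hx 3
  have p2 := (norm_le_pi_norm (S.p x) 2).trans (S.pbd x)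
  have p3 := (norm_le_pi_norm (S.p x) 3).trans (S.pbd x)
  rw [Real.norm_eq_abs] at p2 p3
  have h2 : |x 2| < 1 / 8 := hx.1
  constructor
  · rw [e2]
    rw [abs_lt] at h2 ⊢
    rw [abs_le] at p2
    constructor <;> linarith [h2.1, h2.2, p2.1, p2.2]
  · have : S.G x 3 - 1 / 2 - 11 / 4 * (x 3 - 1 / 2) = S.p x 3 := by rw [e3]; ring
    rw [this]; exact p3

/-- The `z` coordinates of the forward orbit. -/
noncomputable def za (n : ℕ) (t : ℝ) : ℝ := S.G^[n] (BB S t) 3 - 1 / 2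

theorem za_cont (n : ℕ) : Continuous (za S n) :=
  ((continuous_apply 3).comp ((iter_contDiff S.hG n).continuous.comp (BB_cont S))).sub
    continuous_const

theorem y_orb {t : ℝ} {n : ℕ} (h : ∀ j < n, |za S j t| < 1 / 12) :
    |S.G^[n] (BB S t) 2| < 1 / 8 := by
  induction n with
  | zero => exact BB_y S t
  | succ n ih =>
    rw [Function.iterate_succ_apply']
    exact (zone_yz S ⟨ih fun j hj => h j (by omega), h n (by omega)⟩).1

theorem za_step {t : ℝ} {n : ℕ} (h : ∀ j ≤ n, |za S j t| < 1 / 12) :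
    |za S (n + 1) t - 11 / 4 * za S n t| ≤ S.δ := by
  have := (zone_yz S (x := S.G^[n] (BB S t)) ⟨y_orb S fun j hj => h j (by omega), h n le_rfl⟩).2
  unfold za
  rw [Function.iterate_succ_apply']
  exact this

theorem cross_zone : ∃ t ∈ Icc (0 : ℝ) (ph - 1 / 2), ∀ n, S.G^[n] (BB S t) ∈ ZL.O := by
  have hd := S.δ1
  have g1 := ph_gt
  set U : Set ℝ := {t | ∃ n, (∀ j < n, |za S j t| < 1 / 12) ∧ za S n t < -(1 / 16)} with hU
  set V : Set ℝ := {t | ∃ n, (∀ j < n, |za S j t| < 1 / 12) ∧ 1 / 16 < za S n t} with hV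
  have hUo : IsOpen U := by
    have : U = ⋃ n, ((⋂ j ∈ Finset.range n, {t | |za S j t| < 1 / 12}) ∩
        {t | za S n t < -(1 / 16)}) := by
      ext t; simp [hU]
    rw [this]
    exact isOpen_iUnion fun n => (isOpen_biInter_finset fun j _ =>
      isOpen_lt (continuous_abs.comp (za_cont S j)) continuous_const).inter
        (isOpen_lt (za_cont S n) continuous_const)
  have hVo : IsOpen V := by
    have : V = ⋃ n, ((⋂ j ∈ Finset.range n, {t | |za S j t| < 1 / 12}) ∩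
        {t | 1 / 16 < za S n t}) := by
      ext t; simp [hV]
    rw [this]
    exact isOpen_iUnion fun n => (isOpen_biInter_finset fun j _ =>
      isOpen_lt (continuous_abs.comp (za_cont S j)) continuous_const).inter
        (isOpen_lt continuous_const (za_cont S n))
  have hdis : ∀ t, t ∈ U → t ∈ V → False := by
    rintro t ⟨n, hn, hn'⟩ ⟨m, hm, hm'⟩
    rcases lt_trichotomy n m with h | h | h
    · have h1 := za_step S (t := t) (n := n) (fun j hj => hm j (by omega))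
      rw [abs_le] at h1
      have h2 : za S (n + 1) t < -(1 / 12) := by linarith [h1.2]
      rcases (Nat.succ_le_of_lt h).lt_or_eq with h3 | h3
      · have := (abs_lt.1 (hm _ h3)).1
        have h4 : za S (n.succ) t = za S (n + 1) t := rfl
        linarith
      · rw [← h3] at hm'
        have h4 : za S (n.succ) t = za S (n + 1) t := rfl
        linarith
    · subst h; linarith
    · have h1 := za_step S (t := t) (n := m) (fun j hj => hn j (by omega))
      rw [abs_le] at h1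
      have h2 : 1 / 12 < za S (m + 1) t := by linarith [h1.1]
      rcases (Nat.succ_le_of_lt h).lt_or_eq with h3 | h3
      · have := (abs_lt.1 (hn _ h3)).2
        have h4 : za S (m.succ) t = za S (m + 1) t := rfl
        linarith
      · rw [← h3] at hn'
        have h4 : za S (m.succ) t = za S (m + 1) t := rfl
        linarith
  have hex : ∃ t ∈ Icc (0 : ℝ) (ph - 1 / 2), t ∉ U ∧ t ∉ V := by
    by_contra hcon
    push Not at hcon
    have hsub : Icc (0 : ℝ) (ph - 1 / 2) ⊆ U ∪ V := by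
      intro t ht
      by_cases h : t ∈ U
      · exact Or.inl h
      · exact Or.inr (hcon t ht h)
    obtain ⟨t, -, htU, htV⟩ := isPreconnected_Icc U V hUo hVo hsub
      ⟨0, ⟨le_rfl, by linarith⟩, 0, by simp, by
        have := BB_bot S
        show BB S 0 3 - 1 / 2 < _
        linarith⟩
      ⟨ph - 1 / 2, ⟨by linarith, le_rfl⟩, 0, by simp, by
        have := BB_top S
        show _ < BB S (ph - 1 / 2) 3 - 1 / 2
        linarith⟩
    exact hdis t htU htV
  obtain ⟨t, ht, htU, htV⟩ := hex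
  have hz : ∀ n, |za S n t| ≤ 1 / 16 := by
    intro n
    induction n using Nat.strong_induction_on with
    | _ n ih =>
      have hj : ∀ j < n, |za S j t| < 1 / 12 := fun j hj => (ih j hj).trans_lt (by norm_num)
      rw [abs_le]
      constructor
      · by_contra h
        exact htU ⟨n, hj, not_le.1 h⟩
      · by_contra h
        exact htV ⟨n, hj, not_le.1 h⟩
  have hz' : ∀ n, |za S n t| < 1 / 12 := fun n => (hz n).trans_lt (by norm_num)
  exact ⟨t, ht, fun n => ⟨y_orb S fun j _ => hz' j, hz' n⟩⟩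

/-- Forward orbits in the zone of `Λ` are asymptotic to the continuation of `Λ`. -/
theorem zone_asymp {q : E} (hq : ∀ n : ℕ, S.G^[n] q ∈ ZL.O) :
    ∃ θ : ℝ × ℝ, ∃ C : ℝ, ∀ n : ℕ, ‖S.G^[n] q - xL S θ n‖ ≤ (2 / 3) ^ n * C := by
  have hd := S.δ1
  have hd0 := S.δ0
  have g1 := ph_gt
  have g2 := ph_lt
  have hp := ph_sq
  have hpb : ∀ n i, |S.p (S.G^[n] q) i| ≤ S.δ := fun n i =>
    (norm_le_pi_norm (S.p (S.G^[n] q)) i).trans (S.pbd _)
  have hu : ∀ n, S.G^[n + 1] q 0 = ph * S.G^[n] q 0 + S.p (S.G^[n] q) 0 := by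
    intro n
    rw [Function.iterate_succ_apply']
    have : S.G (S.G^[n] q) 0 = ph * S.G^[n] q 0 + 0 + S.p (S.G^[n] q) 0 := Sys.G_zone (hq n) 0
    linarith
  have hs : ∀ n, S.G^[n + 1] q 1 = (1 - ph) * S.G^[n] q 1 + S.p (S.G^[n] q) 1 := by
    intro n
    rw [Function.iterate_succ_apply']
    have : S.G (S.G^[n] q) 1 = (1 - ph) * S.G^[n] q 1 + 0 + S.p (S.G^[n] q) 1 :=
      Sys.G_zone (hq n) 1
    linarith
  -- the unstable coordinate
  set a : ℕ → ℝ := fun n => (ph - 1) ^ n * S.G^[n] q 0 with ha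
  have hr1 : ph - 1 < 1 := by linarith
  have hr0 : 0 < ph - 1 := by linarith
  have hda : ∀ n, dist (a n) (a (n + 1)) ≤ S.δ * (ph - 1) ^ n := by
    intro n
    rw [Real.dist_eq, ha]
    simp only
    have : (ph - 1) ^ n * S.G^[n] q 0 - (ph - 1) ^ (n + 1) * S.G^[n + 1] q 0
        = -((ph - 1) ^ n * ((ph - 1) * S.p (S.G^[n] q) 0)) := by
      rw [hu n, pow_succ]
      linear_combination (-((ph - 1) ^ n * S.G^[n] q 0)) * hp
    rw [this, abs_neg, abs_mul, abs_mul, abs_of_pos (pow_pos hr0 n), abs_of_pos hr0]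
    have h1 := hpb n 0
    have h2 := pow_pos hr0 n
    have h3 : (ph - 1) * |S.p (S.G^[n] q) 0| ≤ S.δ := by
      have := abs_nonneg (S.p (S.G^[n] q) 0)
      nlinarith
    calc _ ≤ (ph - 1) ^ n * S.δ := mul_le_mul_of_nonneg_left h3 h2.le
      _ = _ := by ring
  obtain ⟨θu, hθ⟩ := cauchySeq_tendsto_of_complete (cauchySeq_of_le_geometric _ _ hr1 hda)
  have hθd := dist_le_of_le_geometric_of_tendsto _ _ hr1 hda hθ
  have hub : ∀ n, |S.G^[n] q 0 - ph ^ n * θu| ≤ 1 := by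
    intro n
    have h1 := hθd n
    rw [Real.dist_eq] at h1
    have h2 : ph ^ n * (ph - 1) ^ n = 1 := by
      rw [← mul_pow]
      have : ph * (ph - 1) = 1 := by linear_combination hp
      rw [this, one_pow]
    have h3 : S.G^[n] q 0 - ph ^ n * θu = ph ^ n * (a n - θu) := by
      rw [ha]; simp only
      linear_combination (-(S.G^[n] q 0)) * h2
    rw [h3, abs_mul, abs_of_pos (pow_pos ph_pos n)]
    calc ph ^ n * |a n - θu| ≤ ph ^ n * (S.δ * (ph - 1) ^ n / (1 - (ph - 1))) :=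
          mul_le_mul_of_nonneg_left h1 (pow_pos ph_pos n).le
      _ = (ph ^ n * (ph - 1) ^ n) * (S.δ / (1 - (ph - 1))) := by ring
      _ = S.δ / (1 - (ph - 1)) := by rw [h2, one_mul]
      _ ≤ 1 := by rw [div_le_one (by linarith)]; linarith
  have hsb : ∀ n, |S.G^[n] q 1| ≤ |q 1| + 1 := by
    intro n
    induction n with
    | zero => simp
    | succ n ih =>
      rw [hs n]
      refine (abs_add_le _ _).trans ?_
      rw [abs_mul, abs_of_neg (by linarith : 1 - ph < 0)]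
      have h1 := hpb n 1
      have h2 := abs_nonneg (q 1)
      have h3 := abs_nonneg (S.G^[n] q 1)
      nlinarith
  refine ⟨(θu, 0), ‖q - xL S (θu, 0) 0‖, fun n => ?_⟩
  refine Sys.fwd_dist (S := S.toSys) (Z := ZL) (x := fun n => S.G^[n] q)
    (y := fun n => xL S (θu, 0) n) hq (fun n => xL_zone S _ _)
    (fun n => (Function.iterate_succ_apply' _ _ _).symm) (fun n => by
      rw [xL_step]; push_cast; rfl) (D := |q 1| + 4) (fun n => ?_) n
  have hq1 := abs_nonneg (q 1)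
  have hc := xL_close S (θu, 0) n
  have c0 := coord_le hc 0
  have c1 := coord_le hc 1
  have c2 := coord_le hc 2
  have c3 := coord_le hc 3
  simp only [rL, v4_0, v4_1, v4_2, v4_3, zpow_natCast, mul_zero, sub_zero] at c0 c1 c2 c3
  have z2 : |S.G^[n] q 2| < 1 / 8 := (hq n).1
  have z3 : |S.G^[n] q 3 - 1 / 2| < 1 / 12 := (hq n).2
  have u0 := hub n
  have u1 := hsb n
  rw [pi_norm_le_iff_of_nonneg (by positivity)]
  intro i
  rw [Real.norm_eq_abs, Pi.sub_apply]
  rw [abs_le] at c0 c1 c2 c3 u0 u1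
  rw [abs_lt] at z2 z3
  fin_cases i
  · show |S.G^[n] q 0 - xL S (θu, 0) n 0| ≤ _
    rw [abs_le]; constructor <;> linarith [c0.1, c0.2, u0.1, u0.2]
  · show |S.G^[n] q 1 - xL S (θu, 0) n 1| ≤ _
    rw [abs_le]; constructor <;> linarith [c1.1, c1.2, u1.1, u1.2]
  · show |S.G^[n] q 2 - xL S (θu, 0) n 2| ≤ _
    rw [abs_le]; constructor <;> linarith [c2.1, c2.2, z2.1, z2.2]
  · show |S.G^[n] q 3 - xL S (θu, 0) n 3| ≤ _
    rw [abs_le]; constructor <;> linarith [c3.1, c3.2, z3.1, z3.2]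

/-- The crossing. -/
theorem crossing : ∃ t : ℝ, |t| ≤ 6 / 5 ∧ ∃ θ : ℝ × ℝ, ∃ C : ℝ, ∀ n : ℕ,
    ‖S.G^[n] (S.G (xW S t 0)) - xL S θ n‖ ≤ (2 / 3) ^ n * C := by
  obtain ⟨t, ht, hz⟩ := cross_zone S
  have g2 := ph_lt
  obtain ⟨θ, C, h⟩ := zone_asymp S hz
  exact ⟨t, by rw [abs_le]; constructor <;> linarith [ht.1, ht.2], θ, C, h⟩

end Pool.Agent.W712.RC
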