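import Mathlib

set_option autoImplicit false

/-! # The torus `ℝ⁴/L` and stable spaces -/

open Set Filter Topology

namespace Pool.Agent.W712.RC

/-- The space `ℝ⁴` with the sup norm. -/
abbrev E : Type := Fin 4 → ℝ

theorem ext4 {x y : E} (h0 : x 0 = y 0) (h1 : x 1 = y 1) (h2 : x 2 = y 2) (h3 : x 3 = y 3) :
    x = y := by
  funext i
  fin_cases i
  · exact h0
  · exact h1
  · exact h2
  · exact h3

theorem v4_0 (a b c d : ℝ) : (![a, b, c, d] : E) 0 = a := rfl
theorem v4_1 (a b c d : ℝ) : (![a, b, c, d] : E) 1 = b := rfl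
theorem v4_2 (a b c d : ℝ) : (![a, b, c, d] : E) 2 = c := rfl
theorem v4_3 (a b c d : ℝ) : (![a, b, c, d] : E) 3 = d := rfl

/-- The golden ratio `φ = (1 + √5)/2`. -/
noncomputable def ph : ℝ := Real.goldenRatio

/-- The lattice `L ⊂ ℝ⁴` generated by `(φ,1,0,0)`, `(1,-φ,0,0)`, `(0,0,1,0)`, `(0,0,0,1)`. -/
def Ltc : AddSubgroup E where
  carrier := {x | ∃ m n k l : ℤ, x = ![ph * m + n, m - ph * n, k, l]}
  add_mem' := by
    rintro x y ⟨m, n, k, l, rfl⟩ ⟨m', n', k', l', rfl⟩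
    refine ⟨m + m', n + n', k + k', l + l', ?_⟩
    refine ext4 ?_ ?_ ?_ ?_ <;> simp only [Pi.add_apply, v4_0, v4_1, v4_2, v4_3] <;>
      push_cast <;> ring
  zero_mem' := ⟨0, 0, 0, 0, by refine ext4 ?_ ?_ ?_ ?_ <;> simp⟩
  neg_mem' := by
    rintro x ⟨m, n, k, l, rfl⟩
    refine ⟨-m, -n, -k, -l, ?_⟩
    refine ext4 ?_ ?_ ?_ ?_ <;> simp only [Pi.neg_apply, v4_0, v4_1, v4_2, v4_3] <;>
      push_cast <;> ring

/-- The torus `M = ℝ⁴/L`, with the quotient metric `dist (x + L) (y + L) = inf ‖x - y + l‖`. -/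
abbrev MM : Type := E ⧸ Ltc

/-- The covering map `ℝ⁴ → M`. -/
def pr (x : E) : MM := (x : E ⧸ Ltc)

/-- The space of the vectors `v` with `DF^n(z) v → 0` as `n → ∞`. -/
def Stab {V : Type*} [NormedAddCommGroup V] [NormedSpace ℝ V] (F : V → V) (z : V) :
    Submodule ℝ V where
  carrier := {v | Tendsto (fun n : ℕ => fderiv ℝ (F^[n]) z v) atTop (𝓝 0)}
  add_mem' := fun {v w} hv hw => by
    have := Tendsto.add hv hw
    simpa using this
  zero_mem' := by simp
  smul_mem' := fun c v hv => by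
    have := Tendsto.const_smul hv c
    simpa using this

end Pool.Agent.W712.RC
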