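import Pool.Agent.W712.RC.Exist

set_option autoImplicit false

/-! # Hyperbolicity of orbits staying in zones of affine behaviour -/

open Set Filter Topology

namespace Pool.Agent.W712.RC

theorem mem_stab {V : Type*} [NormedAddCommGroup V] [NormedSpace ℝ V] {F : V → V} {z v : V} :
    v ∈ Stab F z ↔ Tendsto (fun n : ℕ => fderiv ℝ (F^[n]) z v) atTop (𝓝 0) := Iff.rfl

/-- A zone in which `F` is affine, diagonal and hyperbolic. -/
structure Zone (F : E → E) extends Mult where
  O : Set E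
  b : E
  hO : IsOpen O
  hF : ∀ x ∈ O, ∀ i, F x i = m i * x i + b i

/-- A perturbation of `F`. -/
structure Sys (F : E → E) where
  G : E → E
  H : E → E
  δ : ℝ
  hG : ContDiff ℝ 1 G
  hH : ContDiff ℝ 1 H
  GH : ∀ x, G (H x) = x
  HG : ∀ x, H (G x) = x
  δ0 : 0 ≤ δ
  δ1 : δ ≤ 1 / 10000
  bd : ∀ x, ‖G x - F x‖ ≤ δ
  lip : ∀ x y, ‖(G x - F x) - (G y - F y)‖ ≤ δ * ‖x - y‖

variable {F : E → E} (S : Sys F) (Z : Zone F)

theorem iter_contDiff {G : E → E} (hG : ContDiff ℝ 1 G) (n : ℕ) : ContDiff ℝ 1 (G^[n]) := by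
  induction n with
  | zero => exact contDiff_id
  | succ n ih => rw [Function.iterate_succ]; exact ih.comp hG

theorem fderiv_iter {G : E → E} (hG : ContDiff ℝ 1 G) (n : ℕ) (x v : E) :
    fderiv ℝ (G^[n + 1]) x v = fderiv ℝ G (G^[n] x) (fderiv ℝ (G^[n]) x v) := by
  have h1 : G^[n + 1] = G ∘ G^[n] := Function.iterate_succ' G n
  rw [h1, fderiv_comp x (hG.differentiable one_ne_zero).differentiableAt
    ((iter_contDiff hG n).differentiable one_ne_zero).differentiableAt]
  rfl

theorem fderiv_iter' {G : E → E} (hG : ContDiff ℝ 1 G) (n : ℕ) (x v : E) :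
    fderiv ℝ (G^[n + 1]) x v = fderiv ℝ (G^[n]) (G x) (fderiv ℝ G x v) := by
  have h1 : G^[n + 1] = G^[n] ∘ G := Function.iterate_succ G n
  rw [h1, fderiv_comp x ((iter_contDiff hG n).differentiable one_ne_zero).differentiableAt
    (hG.differentiable one_ne_zero).differentiableAt]
  rfl

namespace Sys

/-- The perturbation. -/
def p (x : E) : E := S.G x - F x

theorem p_lip : Lip S.p := fun x y => (S.lip x y).trans
  (mul_le_mul_of_nonneg_right S.δ1 (norm_nonneg _))

/-- The reversed derivative relations. -/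
theorem dGH (x v : E) : fderiv ℝ S.G (S.H x) (fderiv ℝ S.H x v) = v := by
  have h1 : S.G ∘ S.H = id := funext S.GH
  have h2 := fderiv_comp x ((S.hG.differentiable one_ne_zero) (S.H x))
    ((S.hH.differentiable one_ne_zero) x)
  rw [h1, fderiv_id] at h2
  have := congrArg (fun T => T v) h2
  simpa using this.symm

theorem dHG (x v : E) : fderiv ℝ S.H (S.G x) (fderiv ℝ S.G x v) = v := by
  have h1 : S.H ∘ S.G = id := funext S.HG
  have h2 := fderiv_comp x ((S.hH.differentiable one_ne_zero) (S.G x))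
    ((S.hG.differentiable one_ne_zero) x)
  rw [h1, fderiv_id] at h2
  have := congrArg (fun T => T v) h2
  simpa using this.symm

variable {S Z}

theorem G_zone {x : E} (hx : x ∈ Z.O) (i : Fin 4) : S.G x i = Z.m i * x i + Z.b i + S.p x i := by
  have := Z.hF x hx i
  simp only [p, Pi.sub_apply]
  linarith

/-- Nonlinear relation. -/
theorem rel {x y : E} (hx : x ∈ Z.O) (hy : y ∈ Z.O) :
    Rel (fun i => !Z.e i) (2 / 3) (x - y) (S.G x - S.G y) := by
  refine rel_of (Z := Z.toMult) (q := S.p x - S.p y) (fun i => ?_) (S.p_lip x y)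
  simp only [Pi.sub_apply, G_zone hx, G_zone hy]
  ring

/-- The derivative in a zone. -/
theorem norm_lin {x : E} (hx : x ∈ Z.O) (v : E) :
    ‖fderiv ℝ S.G x v - (fun i => Z.m i * v i : E)‖ ≤ 1 / 10000 * ‖v‖ := by
  set D : E →L[ℝ] E := ContinuousLinearMap.pi fun i => Z.m i • ContinuousLinearMap.proj i with hD
  have hDv : D v = fun i => Z.m i * v i := by
    funext i; simp [hD]
  have hF' : HasFDerivAt F D x := by
    have h1 : HasFDerivAt (fun x => D x + Z.b) D x := (D.hasFDerivAt).add_const _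
    refine h1.congr_of_eventuallyEq ?_
    filter_upwards [Z.hO.mem_nhds hx] with y hy
    funext i
    rw [Z.hF y hy i]
    simp [hD]
  have hG' : HasFDerivAt S.G (fderiv ℝ S.G x) x :=
    ((S.hG.differentiable one_ne_zero) x).hasFDerivAt
  have hp' : HasFDerivAt S.p (fderiv ℝ S.G x - D) x := hG'.sub hF'
  have hl : LipschitzWith (Real.toNNReal (1 / 10000)) S.p := by
    refine LipschitzWith.of_dist_le_mul fun x y => ?_
    rw [dist_eq_norm, dist_eq_norm, Real.coe_toNNReal _ (by norm_num)]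
    exact S.p_lip x y
  have h3 := hp'.le_of_lipschitz hl
  rw [Real.coe_toNNReal _ (by norm_num)] at h3
  have h4 := (fderiv ℝ S.G x - D).le_opNorm v
  rw [_root_.sub_apply, hDv] at h4
  exact h4.trans (mul_le_mul_of_nonneg_right h3 (norm_nonneg _))

theorem lin_rel {x : E} (hx : x ∈ Z.O) (v : E) :
    Rel (fun i => !Z.e i) (2 / 3) v (fderiv ℝ S.G x v) := by
  refine rel_of (Z := Z.toMult) (q := fderiv ℝ S.G x v - (fun i => Z.m i * v i : E))
    (fun i => ?_) (norm_lin hx v)
  simp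

/-! ### Forward orbits -/

theorem stab_rel {x : E} (hx : ∀ n : ℕ, S.G^[n] x ∈ Z.O) (v : E) (n : ℕ) :
    Rel (fun i => !Z.e i) (2 / 3) (fderiv ℝ (S.G^[n]) x v) (fderiv ℝ (S.G^[n + 1]) x v) := by
  rw [fderiv_iter S.hG]
  exact lin_rel (hx n) _

theorem bdd_of_tendsto {u : ℕ → E} (hu : Tendsto u atTop (𝓝 0)) : ∃ D, ∀ n, ‖u n‖ ≤ D := by
  obtain ⟨D, hD⟩ := (hu.norm).bddAbove_range
  exact ⟨D, fun n => hD ⟨n, rfl⟩⟩

theorem fderiv_iter_zero (G : E → E) (x v : E) : fderiv ℝ (G^[0]) x v = v := by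
  simp

theorem stab_decay {x : E} (hx : ∀ n : ℕ, S.G^[n] x ∈ Z.O) {v : E} (hv : v ∈ Stab S.G x) (n : ℕ) :
    ‖fderiv ℝ (S.G^[n]) x v‖ ≤ (2 / 3) ^ n * ‖v‖ := by
  obtain ⟨D, hD⟩ := bdd_of_tendsto (mem_stab.1 hv)
  have := fwd_decay (by norm_num) (by norm_num) (fun n => fderiv ℝ (S.G^[n]) x v)
    (stab_rel hx v) hD n
  simpa only [fderiv_iter_zero] using this

/-- The expanding coordinates of stable vectors are small. -/
theorem stab_cone {x : E} (hx : ∀ n : ℕ, S.G^[n] x ∈ Z.O) {v : E} (hv : v ∈ Stab S.G x)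
    (i : Fin 4) (hi : Z.e i = true) : |v i| ≤ 2 / 3 * ‖v‖ := by
  have h1 := (stab_rel hx v 0).2 i (by simp [hi])
  have h2 := stab_decay hx hv 1
  rw [fderiv_iter_zero] at h1
  refine h1.trans (mul_le_mul_of_nonneg_left (max_le le_rfl (h2.trans ?_)) (by norm_num))
  have := norm_nonneg v
  linarith

theorem mem_stab_of_bdd {x : E} (hx : ∀ n : ℕ, S.G^[n] x ∈ Z.O) {v : E} {D : ℝ}
    (hD : ∀ n, ‖fderiv ℝ (S.G^[n]) x v‖ ≤ D) : v ∈ Stab S.G x := by
  rw [mem_stab]
  have h1 := fwd_decay (by norm_num) (by norm_num) (fun n => fderiv ℝ (S.G^[n]) x v)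
    (stab_rel hx v) hD
  refine squeeze_zero_norm h1 ?_
  have := (tendsto_pow_atTop_nhds_zero_of_lt_one (r := (2 / 3 : ℝ)) (by norm_num)
    (by norm_num)).mul_const ‖fderiv ℝ (S.G^[0]) x v‖
  simpa using this

theorem stab_exists {x : E} (hx : ∀ n : ℕ, S.G^[n] x ∈ Z.O) (a : E) :
    ∃ v ∈ Stab S.G x, ∀ i, Z.e i = false → v i = a i := by
  obtain ⟨u, hu, hu0, hur, -⟩ := exists_fwd Z.toMult 0
    (fun n v => fderiv ℝ S.G (S.G^[n] x) v - (fun i => Z.m i * v i : E))
    (fun n v w => by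
      have := norm_lin (S := S) (hx n) (v - w)
      have h1 : (fderiv ℝ S.G (S.G^[n] x)) (v - w) - (fun i => Z.m i * (v - w) i : E)
        = (fderiv ℝ S.G (S.G^[n] x)) v - (fun i => Z.m i * v i : E) -
          ((fderiv ℝ S.G (S.G^[n] x)) w - (fun i => Z.m i * w i : E)) := by
        funext i
        simp only [map_sub, Pi.sub_apply]
        ring
      rw [h1] at this
      exact this)
    (Θ := Unit) (fun _ => a) continuous_const
    (fun _ n i => if Z.e i = false then Z.m i ^ n * a i else 0)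
    (fun _ n i => by
      by_cases h : Z.e i = false
      · simp only [h, if_true, Pi.zero_apply]; ring
      · simp [h]) (fun _ i hi => by simp [hi]) (fun n => continuous_const)
    (1 / 10000 * ‖a‖) (by positivity) (fun _ n => by
      refine (norm_lin (hx n) _).trans (mul_le_mul_of_nonneg_left ?_ (by norm_num))
      rw [pi_norm_le_iff_of_nonneg (norm_nonneg _)]
      intro i
      by_cases h : Z.e i = false
      · simp only [h, if_true, norm_mul, norm_pow]
        have h1 := Z.hcon i h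
        have h2 : |Z.m i| ^ n ≤ 1 := pow_le_one₀ (abs_nonneg _) (by linarith)
        rw [Real.norm_eq_abs]
        calc |Z.m i| ^ n * ‖a i‖ ≤ 1 * ‖a‖ :=
              mul_le_mul h2 (norm_le_pi_norm a i) (norm_nonneg _) (by norm_num)
          _ = ‖a‖ := one_mul _
      · simp [h])
  have hw : ∀ n : ℕ, fderiv ℝ (S.G^[n]) x (u () 0) = u () n := by
    intro n
    induction n with
    | zero => simp
    | succ n ih =>
      rw [fderiv_iter S.hG, ih]
      funext i
      rw [hu () n i]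
      simp
  refine ⟨u () 0, mem_stab_of_bdd hx (D := 3 * (1 / 10000 * ‖a‖) + ‖a‖) (fun n => ?_),
    fun i hi => hu0 () i hi⟩
  rw [hw n]
  have h1 := hur () n
  refine (norm_le_norm_sub_add _ (fun i => if Z.e i = false then Z.m i ^ n * a i else 0)).trans
    (add_le_add h1 ?_)
  rw [pi_norm_le_iff_of_nonneg (norm_nonneg _)]
  intro i
  by_cases h : Z.e i = false
  · simp only [h, if_true, norm_mul, norm_pow]
    have h1 := Z.hcon i h
    have h2 : |Z.m i| ^ n ≤ 1 := pow_le_one₀ (abs_nonneg _) (by linarith)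
    rw [Real.norm_eq_abs]
    calc |Z.m i| ^ n * ‖a i‖ ≤ 1 * ‖a‖ :=
          mul_le_mul h2 (norm_le_pi_norm a i) (norm_nonneg _) (by norm_num)
      _ = ‖a‖ := one_mul _
  · simp [h]

theorem stab_unique {x : E} (hx : ∀ n : ℕ, S.G^[n] x ∈ Z.O) {v : E} (hv : v ∈ Stab S.G x)
    (h0 : ∀ i, Z.e i = false → v i = 0) : v = 0 := by
  obtain ⟨D, hD⟩ := bdd_of_tendsto (mem_stab.1 hv)
  have := fwd_bound (by norm_num) (by norm_num) le_rfl (fun n => fderiv ℝ (S.G^[n]) x v)
    (stab_rel hx v) hD (fun i hi => by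
      rw [fderiv_iter_zero, h0 i (by simpa using hi)]; simp) 0
  rw [fderiv_iter_zero] at this
  exact norm_le_zero_iff.1 this

/-! ### Backward orbits -/

theorem bstab_eq (x v : E) (n : ℕ) :
    fderiv ℝ S.G (S.H^[n + 1] x) (fderiv ℝ (S.H^[n + 1]) x v) = fderiv ℝ (S.H^[n]) x v := by
  rw [fderiv_iter S.hH, Function.iterate_succ_apply']
  exact S.dGH _ _

theorem bstab_rel {x : E} (hx : ∀ n : ℕ, S.H^[n + 1] x ∈ Z.O) (v : E) (n : ℕ) :
    Rel Z.e (2 / 3) (fderiv ℝ (S.H^[n]) x v) (fderiv ℝ (S.H^[n + 1]) x v) := by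
  have h1 := lin_rel (S := S) (hx n) (fderiv ℝ (S.H^[n + 1]) x v)
  rw [bstab_eq] at h1
  have := h1.rev
  simpa using this

theorem bstab_decay {x : E} (hx : ∀ n : ℕ, S.H^[n + 1] x ∈ Z.O) {v : E} (hv : v ∈ Stab S.H x)
    (n : ℕ) : ‖fderiv ℝ (S.H^[n]) x v‖ ≤ (2 / 3) ^ n * ‖v‖ := by
  obtain ⟨D, hD⟩ := bdd_of_tendsto (mem_stab.1 hv)
  have := fwd_decay (by norm_num) (by norm_num) (fun n => fderiv ℝ (S.H^[n]) x v)
    (bstab_rel hx v) hD n
  simpa only [fderiv_iter_zero] using this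

/-- The contracting coordinates of unstable vectors are small. -/
theorem bstab_cone {x : E} (hx : ∀ n : ℕ, S.H^[n + 1] x ∈ Z.O) {v : E} (hv : v ∈ Stab S.H x)
    (i : Fin 4) (hi : Z.e i = false) : |v i| ≤ 2 / 3 * ‖v‖ := by
  have h1 := (bstab_rel hx v 0).2 i hi
  have h2 := bstab_decay hx hv 1
  rw [fderiv_iter_zero] at h1
  refine h1.trans (mul_le_mul_of_nonneg_left (max_le le_rfl (h2.trans ?_)) (by norm_num))
  have := norm_nonneg v
  linarith

theorem mem_bstab_of_bdd {x : E} (hx : ∀ n : ℕ, S.H^[n + 1] x ∈ Z.O) {v : E} {D : ℝ}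
    (hD : ∀ n, ‖fderiv ℝ (S.H^[n]) x v‖ ≤ D) : v ∈ Stab S.H x := by
  rw [mem_stab]
  have h1 := fwd_decay (by norm_num) (by norm_num) (fun n => fderiv ℝ (S.H^[n]) x v)
    (bstab_rel hx v) hD
  refine squeeze_zero_norm h1 ?_
  have := (tendsto_pow_atTop_nhds_zero_of_lt_one (r := (2 / 3 : ℝ)) (by norm_num)
    (by norm_num)).mul_const ‖fderiv ℝ (S.H^[0]) x v‖
  simpa using this

theorem bstab_exists {x : E} (hx : ∀ n : ℕ, S.H^[n + 1] x ∈ Z.O) (a : E) :
    ∃ v ∈ Stab S.H x, ∀ i, Z.e i = true → v i = a i := by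
  have hm0 : ∀ i, Z.e i = true → Z.m i ≠ 0 := by
    intro i hi h0
    have := Z.hexp i hi
    rw [h0] at this
    norm_num at this
  have hn : ∀ n i, Z.e i = true → |(Z.m i)⁻¹| ^ n * ‖a i‖ ≤ ‖a‖ := by
    intro n i hi
    have h1 := Z.hexp i hi
    have h3 : |(Z.m i)⁻¹| ≤ 1 := by
      rw [abs_inv]
      exact inv_le_one_of_one_le₀ (by linarith)
    have h2 : |(Z.m i)⁻¹| ^ n ≤ 1 := pow_le_one₀ (abs_nonneg _) h3
    calc |(Z.m i)⁻¹| ^ n * ‖a i‖ ≤ 1 * ‖a‖ :=
          mul_le_mul h2 (norm_le_pi_norm a i) (norm_nonneg _) (by norm_num)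
      _ = ‖a‖ := one_mul _
  have hr : ∀ n : ℕ, ‖(fun i => if Z.e i = true then (Z.m i)⁻¹ ^ n * a i else 0 : E)‖ ≤ ‖a‖ := by
    intro n
    rw [pi_norm_le_iff_of_nonneg (norm_nonneg _)]
    intro i
    by_cases h : Z.e i = true
    · simp only [h, if_true, norm_mul, norm_pow]
      rw [Real.norm_eq_abs (Z.m i)⁻¹]
      exact hn n i h
    · simp [h]
  obtain ⟨u, hu, hu0, hur, -⟩ := exists_bwd Z.toMult 0
    (fun n v => match n with
      | 0 => 0
      | n + 1 => fderiv ℝ S.G (S.H^[n + 1] x) v - (fun i => Z.m i * v i : E))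
    (fun n v w => by
      cases n with
      | zero => simp
      | succ n =>
      have := norm_lin (S := S) (hx n) (v - w)
      have h1 : (fderiv ℝ S.G (S.H^[n + 1] x)) (v - w) - (fun i => Z.m i * (v - w) i : E)
        = (fderiv ℝ S.G (S.H^[n + 1] x)) v - (fun i => Z.m i * v i : E) -
          ((fderiv ℝ S.G (S.H^[n + 1] x)) w - (fun i => Z.m i * w i : E)) := by
        funext i
        simp only [map_sub, Pi.sub_apply]
        ring
      rw [h1] at this
      exact this)
    (Θ := Unit) (fun _ => a) continuous_const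
    (fun _ n i => if Z.e i = true then (Z.m i)⁻¹ ^ n * a i else 0)
    (fun _ n i => by
      by_cases h : Z.e i = true
      · have := hm0 i h
        have h2 := mul_inv_cancel₀ this
        simp only [h, if_true, Pi.zero_apply, pow_succ]
        linear_combination (-(Z.m i)⁻¹ ^ n * a i) * h2
      · simp [h]) (fun _ i hi => by simp [hi]) (fun n => continuous_const)
    (1 / 10000 * ‖a‖) (by positivity) (fun _ n => by
      cases n with
      | zero => simp
      | succ n =>
      exact (norm_lin (hx n) _).trans (mul_le_mul_of_nonneg_left (hr _) (by norm_num)))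
  have hw : ∀ n : ℕ, fderiv ℝ (S.H^[n]) x (u () 0) = u () n := by
    intro n
    induction n with
    | zero => simp
    | succ n ih =>
      rw [fderiv_iter S.hH, ih]
      have h1 : u () n = fderiv ℝ S.G (S.H^[n + 1] x) (u () (n + 1)) := by
        funext i
        rw [hu () n i]
        simp
      rw [h1, Function.iterate_succ_apply']
      have h2 := S.dHG (S.H (S.H^[n] x)) (u () (n + 1))
      rw [S.GH] at h2
      exact h2
  refine ⟨u () 0, mem_bstab_of_bdd hx (D := 3 * (1 / 10000 * ‖a‖) + ‖a‖) (fun n => ?_),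
    fun i hi => hu0 () i hi⟩
  rw [hw n]
  have h1 := hur () n
  exact (norm_le_norm_sub_add _ (fun i => if Z.e i = true then (Z.m i)⁻¹ ^ n * a i else 0)).trans
    (add_le_add h1 (hr n))

theorem bstab_unique {x : E} (hx : ∀ n : ℕ, S.H^[n + 1] x ∈ Z.O) {v : E} (hv : v ∈ Stab S.H x)
    (h0 : ∀ i, Z.e i = true → v i = 0) : v = 0 := by
  obtain ⟨D, hD⟩ := bdd_of_tendsto (mem_stab.1 hv)
  have := fwd_bound (by norm_num) (by norm_num) le_rfl (fun n => fderiv ℝ (S.H^[n]) x v)
    (bstab_rel hx v) hD (fun i hi => by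
      rw [fderiv_iter_zero, h0 i hi]; simp) 0
  rw [fderiv_iter_zero] at this
  exact norm_le_zero_iff.1 this

end Sys

/-- Dimension count. -/
theorem finrank_of (W : Submodule ℝ E) (s : Fin 4 → Bool)
    (hex : ∀ a : E, ∃ v ∈ W, ∀ i, s i = true → v i = a i)
    (hun : ∀ v ∈ W, (∀ i, s i = true → v i = 0) → v = 0) :
    Module.finrank ℝ W = Fintype.card {i // s i = true} := by
  let T : W →ₗ[ℝ] ({i // s i = true} → ℝ) :=
    { toFun := fun v i => (v : E) i
      map_add' := fun v w => by funext i; simp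
      map_smul' := fun c v => by funext i; simp }
  have hT : Function.Bijective T := by
    constructor
    · rw [← LinearMap.ker_eq_bot, LinearMap.ker_eq_bot']
      intro v hv
      have := hun v v.2 (fun i hi => congrFun hv ⟨i, hi⟩)
      exact Subtype.ext this
    · intro a
      obtain ⟨v, hv, hva⟩ := hex (fun i => if h : s i = true then a ⟨i, h⟩ else 0)
      refine ⟨⟨v, hv⟩, ?_⟩
      funext i
      show v i = a i
      rw [hva i i.2, dif_pos i.2]
  rw [(LinearEquiv.ofBijective T hT).finrank_eq, Module.finrank_fintype_fun_eq_card]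

namespace Sys

variable {S Z}

theorem stab_finrank {x : E} (hx : ∀ n : ℕ, S.G^[n] x ∈ Z.O) :
    Module.finrank ℝ (Stab S.G x) = Fintype.card {i // (!Z.e i) = true} :=
  finrank_of _ (fun i => !Z.e i) (fun a => by
    obtain ⟨v, hv, hva⟩ := stab_exists hx a
    exact ⟨v, hv, fun i hi => hva i (by simpa using hi)⟩)
    (fun _ hv h0 => stab_unique hx hv fun i hi => h0 i (by simp [hi]))

theorem bstab_finrank {x : E} (hx : ∀ n : ℕ, S.H^[n + 1] x ∈ Z.O) :
    Module.finrank ℝ (Stab S.H x) = Fintype.card {i // Z.e i = true} :=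
  finrank_of _ Z.e (fun a => bstab_exists hx a) (fun _ hv h0 => bstab_unique hx hv h0)

theorem isCompl {x : E} (hx : ∀ n : ℕ, S.G^[n] x ∈ Z.O) (hx' : ∀ n : ℕ, S.H^[n + 1] x ∈ Z.O) :
    IsCompl (Stab S.G x) (Stab S.H x) := by
  have hd : Disjoint (Stab S.G x) (Stab S.H x) := by
    rw [Submodule.disjoint_def]
    intro v hv hv'
    have h1 : ‖v‖ ≤ 2 / 3 * ‖v‖ := by
      rw [pi_norm_le_iff_of_nonneg (by positivity)]
      intro i
      rw [Real.norm_eq_abs]
      cases hi : Z.e i with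
      | true => exact stab_cone hx hv i hi
      | false => exact bstab_cone hx' hv' i hi
    have := norm_nonneg v
    exact norm_le_zero_iff.1 (by linarith)
  refine ⟨hd, ?_⟩
  rw [codisjoint_iff]
  refine Submodule.eq_top_of_disjoint _ _ ?_ hd
  rw [stab_finrank hx, bstab_finrank hx']
  have h1 : Fintype.card {i // (!Z.e i) = true} + Fintype.card {i // Z.e i = true} = 4 := by
    rw [Fintype.card_subtype, Fintype.card_subtype, ← Finset.card_union_of_disjoint]
    · have : (Finset.univ.filter fun i => (!Z.e i) = true) ∪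
        (Finset.univ.filter fun i => Z.e i = true) = Finset.univ := by
        ext i
        cases Z.e i <;> simp_all
      rw [this]; simp
    · rw [Finset.disjoint_filter]
      intro i _ h
      simpa using h
  rw [h1]
  simp

end Sys

end Pool.Agent.W712.RC
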