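import Pool.Agent.W712.RC.Orb

set_option autoImplicit false

/-! # Unstable leaves of `Λ`, stable graph, unstable curve and fixed point of `Γ` -/

open Set Filter Topology Real

namespace Pool.Agent.W712.RC

variable (S : PSys)

/-! ### Unstable leaves of the continuation of `Λ` -/

/-- Reference backward orbit; the parameters are `(c, u, z)`. -/
noncomputable def rP (θ : ℝ × ℝ × ℝ) (n : ℕ) : E :=
  ![(ph - 1) ^ n * θ.2.1, (-ph) ^ n * θ.1, 0, 1 / 2 + (4 / 11) ^ n * (θ.2.2 - 1 / 2)]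

theorem rP_step (θ : ℝ × ℝ × ℝ) (n : ℕ) (i : Fin 4) :
    rP θ n i = ZL.m i * rP θ (n + 1) i + ZL.b i := by
  have h := ph_sq
  fin_cases i
  · show (ph - 1) ^ n * θ.2.1 = ph * ((ph - 1) ^ (n + 1) * θ.2.1) + 0
    rw [pow_succ]
    linear_combination (-((ph - 1) ^ n * θ.2.1)) * h
  · show (-ph) ^ n * θ.1 = (1 - ph) * ((-ph) ^ (n + 1) * θ.1) + 0
    rw [pow_succ]
    linear_combination (-((-ph) ^ n * θ.1)) * h
  · show (0 : ℝ) = 1 / 8 * 0 + 0
    norm_num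
  · show (1 / 2 + (4 / 11) ^ n * (θ.2.2 - 1 / 2) : ℝ)
      = 11 / 4 * (1 / 2 + (4 / 11) ^ (n + 1) * (θ.2.2 - 1 / 2)) + -(7 / 8)
    rw [pow_succ]; ring

theorem xP_exists : ∃ x : ℝ × ℝ × ℝ → ℕ → E,
    (∀ θ n i, x θ n i = ZL.m i * x θ (n + 1) i + ZL.b i + S.p (x θ (n + 1)) i) ∧
      (∀ θ i, ZL.e i = true → x θ 0 i = (fun θ : ℝ × ℝ × ℝ => (![θ.2.1, 0, 0, θ.2.2] : E)) θ i) ∧
      (∀ θ n, ‖x θ n - rP θ n‖ ≤ 3 * S.δ) ∧ ∀ n, Continuous fun θ => x θ n := by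
  have hc : Continuous (fun θ : ℝ × ℝ × ℝ => (![θ.2.1, 0, 0, θ.2.2] : E)) :=
    cc4 (by fun_prop) continuous_const continuous_const (by fun_prop)
  have hrc : ∀ n, Continuous fun θ => rP θ n := fun n =>
    cc4 (by fun_prop) (by fun_prop) continuous_const (by fun_prop)
  refine exists_bwd ZL.toMult ZL.b (fun _ => S.p) (fun _ => S.p_lip)
    (fun θ : ℝ × ℝ × ℝ => (![θ.2.1, 0, 0, θ.2.2] : E)) hc rP rP_step ?_ hrc S.δ S.δ0
    (fun _ _ => S.pbd _)
  intro θ i hi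
  fin_cases i
  · show (ph - 1) ^ 0 * θ.2.1 = θ.2.1
    simp
  · simp [ZL, eL] at hi
  · simp [ZL, eL] at hi
  · show (1 / 2 + (4 / 11) ^ 0 * (θ.2.2 - 1 / 2) : ℝ) = θ.2.2
    simp

/-- The backward orbits on the unstable leaves. -/
noncomputable def xP : ℝ × ℝ × ℝ → ℕ → E := (xP_exists S).choose

theorem xP_close (θ : ℝ × ℝ × ℝ) (n : ℕ) : ‖xP S θ n - rP θ n‖ ≤ 3 * S.δ :=
  (xP_exists S).choose_spec.2.2.1 θ n

theorem xP_cont (n : ℕ) : Continuous fun θ => xP S θ n := (xP_exists S).choose_spec.2.2.2 n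

theorem xP_u (θ : ℝ × ℝ × ℝ) : xP S θ 0 0 = θ.2.1 := (xP_exists S).choose_spec.2.1 θ 0 rfl
theorem xP_z (θ : ℝ × ℝ × ℝ) : xP S θ 0 3 = θ.2.2 := (xP_exists S).choose_spec.2.1 θ 3 rfl

theorem xP_zone {θ : ℝ × ℝ × ℝ} (h : |θ.2.2 - 1 / 2| ≤ 9 / 40) (n : ℕ) :
    xP S θ (n + 1) ∈ ZL.O := by
  have hd := S.δ1
  have hc := xP_close S θ (n + 1)
  have h2 := coord_le hc 2
  have h3 := coord_le hc 3
  simp only [rP, v4_2, v4_3, sub_zero] at h2 h3
  refine ⟨by linarith, ?_⟩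
  have h4 : |(4 / 11 : ℝ) ^ (n + 1) * (θ.2.2 - 1 / 2)| ≤ 4 / 11 * (9 / 40) := by
    rw [abs_mul, abs_of_pos (by positivity)]
    refine mul_le_mul ?_ h (abs_nonneg _) (by norm_num)
    rw [pow_succ]
    have : (4 / 11 : ℝ) ^ n ≤ 1 := pow_le_one₀ (by norm_num) (by norm_num)
    linarith
  have h5 : xP S θ (n + 1) 3 - 1 / 2 = (xP S θ (n + 1) 3 -
    (1 / 2 + (4 / 11) ^ (n + 1) * (θ.2.2 - 1 / 2))) + (4 / 11 : ℝ) ^ (n + 1) * (θ.2.2 - 1 / 2) := by
    ring
  rw [h5]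
  refine (abs_add_le _ _).trans_lt ?_
  linarith

theorem xP_step {θ : ℝ × ℝ × ℝ} (h : |θ.2.2 - 1 / 2| ≤ 9 / 40) (n : ℕ) :
    S.G (xP S θ (n + 1)) = xP S θ n :=
  G_of_zone (xP_zone S h n) ((xP_exists S).choose_spec.1 θ n)

theorem xP_iter {θ : ℝ × ℝ × ℝ} (h : |θ.2.2 - 1 / 2| ≤ 9 / 40) (n : ℕ) :
    S.H^[n] (xP S θ 0) = xP S θ n := by
  induction n with
  | zero => rfl
  | succ n ih => rw [Function.iterate_succ_apply', ih, ← xP_step S h, S.HG]

/-- The leaf points are backward asymptotic to the continuation of `Λ`. -/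
theorem xP_asymp {θ : ℝ × ℝ × ℝ} (h : |θ.2.2 - 1 / 2| ≤ 9 / 40) (n : ℕ) :
    ‖xP S θ n - xL S (0, θ.1) (-n)‖ ≤ (2 / 3) ^ n * ‖xP S θ 0 - xL S (0, θ.1) 0‖ := by
  have hd := S.δ1
  have hd0 := S.δ0
  have hstep : ∀ n : ℕ, S.G (xL S (0, θ.1) (-(n + 1 : ℕ))) = xL S (0, θ.1) (-n) := by
    intro n
    rw [xL_step]
    congr 1
    push_cast; ring
  have := Sys.bwd_dist (S := S.toSys) (Z := ZL) (x := fun n => xP S θ n)
    (y := fun n => xL S (0, θ.1) (-n)) (xP_zone S h) (fun n => xL_zone S _ _) (xP_step S h)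
    hstep (D := 6 * S.δ + (|θ.2.1| + 1)) (fun n => ?_) n
  · simpa using this
  · have a1 := xP_close S θ n
    have a2 := xL_close S (0, θ.1) (-n)
    have a3 : ‖rP θ n - rL (0, θ.1) (-n)‖ ≤ |θ.2.1| + 1 := by
      have hu := abs_nonneg θ.2.1
      rw [pi_norm_le_iff_of_nonneg (by positivity)]
      intro i
      fin_cases i
      · show ‖(ph - 1) ^ n * θ.2.1 - ph ^ (-(n : ℤ)) * 0‖ ≤ _
        rw [mul_zero, sub_zero, Real.norm_eq_abs, abs_mul, abs_pow]
        have h1 := ph_gt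
        have h2 := ph_lt
        have : |ph - 1| ^ n ≤ 1 := pow_le_one₀ (abs_nonneg _) (by
          rw [abs_of_pos (by linarith)]; linarith)
        nlinarith
      · show ‖(-ph) ^ n * θ.1 - (1 - ph) ^ (-(n : ℤ)) * θ.1‖ ≤ _
        have hinv : (1 - ph)⁻¹ = -ph := by
          rw [inv_eq_iff_eq_inv]
          symm
          refine inv_eq_of_mul_eq_one_left ?_
          linear_combination ph_sq
        rw [zpow_neg, zpow_natCast, ← inv_pow, hinv, sub_self, norm_zero]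
        positivity
      · show ‖(0 : ℝ) - 0‖ ≤ _
        rw [sub_self, norm_zero]; positivity
      · show ‖(1 / 2 + (4 / 11) ^ n * (θ.2.2 - 1 / 2) : ℝ) - 1 / 2‖ ≤ _
        rw [add_sub_cancel_left, norm_mul, Real.norm_eq_abs, Real.norm_eq_abs,
          abs_of_pos (by positivity : (0 : ℝ) < (4 / 11) ^ n)]
        have : (4 / 11 : ℝ) ^ n ≤ 1 := pow_le_one₀ (by norm_num) (by norm_num)
        have h' := abs_nonneg (θ.2.2 - 1 / 2)
        nlinarith
    calc ‖xP S θ n - xL S (0, θ.1) (-n)‖ = ‖(xP S θ n - rP θ n) + (rP θ n - rL (0, θ.1) (-n)) +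
          (rL (0, θ.1) (-n) - xL S (0, θ.1) (-n))‖ := by congr 1; abel
      _ ≤ ‖xP S θ n - rP θ n‖ + ‖rP θ n - rL (0, θ.1) (-n)‖ +
          ‖rL (0, θ.1) (-n) - xL S (0, θ.1) (-n)‖ := norm_add₃_le
      _ ≤ 3 * S.δ + (|θ.2.1| + 1) + 3 * S.δ := by
          rw [norm_sub_rev (rL (0, θ.1) (-n))]
          gcongr
      _ = _ := by ring

/-! ### The stable graph of the continuation of `Γ` -/

/-- Reference forward orbit. -/
noncomputable def rS (x : E) (n : ℕ) : E :=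
  ![0, (1 - ph) ^ n * x 1, (1 / 8) ^ n * x 2, (1 / 8) ^ n * x 3]

theorem rS_step (x : E) (n : ℕ) (i : Fin 4) :
    rS x (n + 1) i = ZG.m i * rS x n i + ZG.b i := by
  fin_cases i
  · show (0 : ℝ) = ph * 0 + 0
    ring
  · show (1 - ph) ^ (n + 1) * x 1 = (1 - ph) * ((1 - ph) ^ n * x 1) + 0
    ring
  · show (1 / 8) ^ (n + 1) * x 2 = (1 / 8) * ((1 / 8) ^ n * x 2) + 0
    ring
  · show (1 / 8) ^ (n + 1) * x 3 = (1 / 8) * ((1 / 8) ^ n * x 3) + 0
    ring

theorem xS_exists : ∃ x : E → ℕ → E,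
    (∀ θ n i, x θ (n + 1) i = ZG.m i * x θ n i + ZG.b i + S.p (x θ n) i) ∧
      (∀ θ i, ZG.e i = false → x θ 0 i = (fun θ : E => θ) θ i) ∧
      (∀ θ n, ‖x θ n - rS θ n‖ ≤ 3 * S.δ) ∧ ∀ n, Continuous fun θ => x θ n := by
  refine exists_fwd ZG.toMult ZG.b (fun _ => S.p) (fun _ => S.p_lip)
    (fun θ => θ) continuous_id rS rS_step ?_
    (fun n => cc4 (by fun_prop) (by fun_prop) (by fun_prop) (by fun_prop)) S.δ S.δ0
    (fun _ _ => S.pbd _)
  intro θ i hi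
  fin_cases i
  · simp [ZG, eG] at hi
  · show (1 - ph) ^ 0 * θ 1 = θ 1
    simp
  · show (1 / 8) ^ 0 * θ 2 = θ 2
    simp
  · show (1 / 8) ^ 0 * θ 3 = θ 3
    simp

/-- Forward orbits on the stable graph. -/
noncomputable def xS : E → ℕ → E := (xS_exists S).choose

theorem xS_close (x : E) (n : ℕ) : ‖xS S x n - rS x n‖ ≤ 3 * S.δ :=
  (xS_exists S).choose_spec.2.2.1 x n

theorem xS_cont (n : ℕ) : Continuous fun x => xS S x n := (xS_exists S).choose_spec.2.2.2 n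

theorem xS_0 (x : E) (i : Fin 4) (hi : eG i = false) : xS S x 0 i = x i :=
  (xS_exists S).choose_spec.2.1 x i hi

/-- The base region of the graph. -/
def Reg (x : E) : Prop := |x 1| ≤ 11 / 10 ∧ |x 2| ≤ 24 / 100 ∧ |x 3| ≤ 24 / 100

theorem xS_zone {x : E} (h : Reg x) (n : ℕ) : xS S x n ∈ ZG.O := by
  have hd := S.δ1
  have h1 := ph_gt
  have h2 := ph_lt
  have hc := xS_close S x n
  have c0 := coord_le hc 0
  have c1 := coord_le hc 1
  have c2 := coord_le hc 2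
  have c3 := coord_le hc 3
  simp only [rS, v4_0, v4_1, v4_2, v4_3, sub_zero] at c0 c1 c2 c3
  have p1 : |(1 - ph) ^ n * x 1| ≤ 11 / 10 := by
    rw [abs_mul, abs_pow]
    have : |1 - ph| ^ n ≤ 1 := pow_le_one₀ (abs_nonneg _) (by
      rw [abs_of_neg (by linarith)]; linarith)
    have h3 := abs_nonneg (x 1)
    nlinarith [h.1]
  have p8 : (1 / 8 : ℝ) ^ n ≤ 1 := pow_le_one₀ (by norm_num) (by norm_num)
  have p2 : |(1 / 8) ^ n * x 2| ≤ 24 / 100 := by
    rw [abs_mul, abs_of_pos (by positivity : (0 : ℝ) < (1 / 8) ^ n)]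
    have h3 := abs_nonneg (x 2)
    nlinarith [h.2.1]
  have p3 : |(1 / 8) ^ n * x 3| ≤ 24 / 100 := by
    rw [abs_mul, abs_of_pos (by positivity : (0 : ℝ) < (1 / 8) ^ n)]
    have h3 := abs_nonneg (x 3)
    nlinarith [h.2.2]
  rw [abs_le] at c0 c1 c2 c3 p1 p2 p3
  refine ⟨?_, ?_, ?_⟩
  · unfold xi1
    rw [abs_div, abs_of_pos (by linarith : (0 : ℝ) < ph + 2), div_lt_iff₀ (by linarith), abs_lt]
    constructor <;> nlinarith [c0.1, c0.2, c1.1, c1.2, p1.1, p1.2]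
  · rw [abs_lt]; constructor <;> linarith [c2.1, c2.2, p2.1, p2.2]
  · rw [abs_lt]; constructor <;> linarith [c3.1, c3.2, p3.1, p3.2]

theorem xS_step {x : E} (h : Reg x) (n : ℕ) : S.G (xS S x n) = xS S x (n + 1) :=
  G_of_zone (xS_zone S h n) ((xS_exists S).choose_spec.1 x n)

theorem xS_iter {x : E} (h : Reg x) (n : ℕ) : S.G^[n] (xS S x 0) = xS S x n := by
  induction n with
  | zero => rfl
  | succ n ih => rw [Function.iterate_succ_apply', ih, xS_step S h]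

theorem xS_bdd {x : E} (h : Reg x) (n : ℕ) : ‖xS S x n‖ ≤ 2 := by
  have hd := S.δ1
  have h1 := ph_gt
  have h2 := ph_lt
  have hc := xS_close S x n
  have h3 : ‖rS x n‖ ≤ 11 / 10 := by
    rw [pi_norm_le_iff_of_nonneg (by norm_num)]
    have p8 : (1 / 8 : ℝ) ^ n ≤ 1 := pow_le_one₀ (by norm_num) (by norm_num)
    intro i
    fin_cases i
    · show ‖(0 : ℝ)‖ ≤ _
      norm_num
    · show |(1 - ph) ^ n * x 1| ≤ 11 / 10
      rw [abs_mul, abs_pow]
      have : |1 - ph| ^ n ≤ 1 := pow_le_one₀ (abs_nonneg _) (by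
        rw [abs_of_neg (by linarith)]; linarith)
      have h3 := abs_nonneg (x 1)
      nlinarith [h.1]
    · show |(1 / 8) ^ n * x 2| ≤ 11 / 10
      rw [abs_mul, abs_of_pos (by positivity : (0 : ℝ) < (1 / 8) ^ n)]
      have h3 := abs_nonneg (x 2)
      nlinarith [h.2.1]
    · show |(1 / 8) ^ n * x 3| ≤ 11 / 10
      rw [abs_mul, abs_of_pos (by positivity : (0 : ℝ) < (1 / 8) ^ n)]
      have h3 := abs_nonneg (x 3)
      nlinarith [h.2.2]
  have := norm_le_norm_sub_add (xS S x n) (rS x n)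
  linarith

/-- The Lipschitz property of the graph. -/
theorem xS_lip {x : E} (h : Reg x) {y : ℕ → E} (hy : ∀ n, y n ∈ ZG.O)
    (hGy : ∀ n, S.G (y n) = y (n + 1)) {D : ℝ} (hD : ∀ n, ‖y n‖ ≤ D) {d : ℝ} (hd : 0 ≤ d)
    (hd0 : ∀ i, eG i = false → |y 0 i - x i| ≤ d) :
    (∀ n, ‖y n - xS S x n‖ ≤ d) ∧ |y 0 0 - xS S x 0 0| ≤ 2 / 3 * d := by
  have := Sys.fwd_ctrl (S := S.toSys) (Z := ZG) hy (xS_zone S h) hGy (xS_step S h)
    (D := D + 2) (fun n => (norm_sub_le _ _).trans (add_le_add (hD n) (xS_bdd S h n))) hd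
    (fun i hi => by rw [xS_0 S x i hi]; exact hd0 i hi)
  exact ⟨this.1, this.2 0 0 rfl⟩

/-- Signed distance to the graph. -/
noncomputable def JJ (x : E) : ℝ := x 0 - xS S x 0 0

theorem JJ_cont : Continuous (JJ S) :=
  (continuous_apply 0).sub ((continuous_apply 0).comp (xS_cont S 0))

/-- The point of the graph over `x`. -/
theorem xS_sub (x : E) : x - xS S x 0 = ![JJ S x, 0, 0, 0] := by
  refine ext4 ?_ ?_ ?_ ?_
  · rfl
  · show x 1 - xS S x 0 1 = 0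
    rw [xS_0 S x 1 rfl, sub_self]
  · show x 2 - xS S x 0 2 = 0
    rw [xS_0 S x 2 rfl, sub_self]
  · show x 3 - xS S x 0 3 = 0
    rw [xS_0 S x 3 rfl, sub_self]

theorem norm_v (a : ℝ) : ‖(![a, 0, 0, 0] : E)‖ = |a| := by
  apply le_antisymm
  · rw [pi_norm_le_iff_of_nonneg (abs_nonneg _)]
    intro i
    fin_cases i
    · exact le_rfl
    · show ‖(0 : ℝ)‖ ≤ _
      simp
    · show ‖(0 : ℝ)‖ ≤ _
      simp
    · show ‖(0 : ℝ)‖ ≤ _
      simp
  · exact norm_le_pi_norm (![a, 0, 0, 0] : E) 0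

/-- Side preservation. -/
theorem JJ_side {x : E} (h : Reg x) (hx : x ∈ ZG.O) (h' : Reg (S.G x)) :
    |JJ S (S.G x) - ph * JJ S x| ≤ 1 / 2 * |JJ S x| := by
  set Δ := JJ S x with hΔ
  have hd : ‖x - xS S x 0‖ = |Δ| := by rw [xS_sub, norm_v]
  have hlip : ‖S.p x - S.p (xS S x 0)‖ ≤ 1 / 10000 * |Δ| := by
    rw [← hd]; exact S.p_lip _ _
  have hg : ∀ i, S.G x i - xS S x 1 i = ZG.m i * (x i - xS S x 0 i) +
      (S.p x i - S.p (xS S x 0) i) := by
    intro i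
    rw [← xS_step S h 0, Sys.G_zone hx, Sys.G_zone (xS_zone S h 0)]
    ring
  have hsub := xS_sub S x
  have hi : ∀ i, eG i = false → |xS S x 1 i - S.G x i| ≤ 1 / 10000 * |Δ| := by
    intro i hi
    rw [abs_sub_comm, hg i, xS_0 S x i hi, sub_self, mul_zero, zero_add]
    exact coord_le hlip i
  have h1 := (xS_lip S h' (y := fun n => xS S x (n + 1)) (fun n => xS_zone S h _)
    (fun n => xS_step S h _) (fun n => xS_bdd S h _) (d := 1 / 10000 * |Δ|) (by positivity) hi).2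
  have h2 : S.G x 0 - xS S x 1 0 = ph * Δ + (S.p x 0 - S.p (xS S x 0) 0) := hg 0
  have h3 := coord_le hlip 0
  have h4 : JJ S (S.G x) = S.G x 0 - xS S (S.G x) 0 0 := rfl
  rw [h4]
  have h5 : |xS S x 1 0 - xS S (S.G x) 0 0| ≤ 2 / 3 * (1 / 10000 * |Δ|) := h1
  have h6 : S.G x 0 - xS S (S.G x) 0 0 - ph * Δ = (S.p x 0 - S.p (xS S x 0) 0) +
      (xS S x 1 0 - xS S (S.G x) 0 0) := by linarith
  rw [h6]
  refine (abs_add_le _ _).trans ?_
  have := abs_nonneg Δ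
  linarith

/-! ### The unstable curve of the continuation of `Γ` -/

/-- Reference. -/
noncomputable def rW (t : ℝ) (n : ℕ) : E := ![(ph - 1) ^ n * t, 0, 0, 0]

theorem rW_step (t : ℝ) (n : ℕ) (i : Fin 4) : rW t n i = ZG.m i * rW t (n + 1) i + ZG.b i := by
  have h := ph_sq
  fin_cases i
  · show (ph - 1) ^ n * t = ph * ((ph - 1) ^ (n + 1) * t) + 0
    rw [pow_succ]
    linear_combination (-((ph - 1) ^ n * t)) * h
  · show (0 : ℝ) = (1 - ph) * 0 + 0
    ring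
  · show (0 : ℝ) = 1 / 8 * 0 + 0
    norm_num
  · show (0 : ℝ) = 1 / 8 * 0 + 0
    norm_num

theorem xW_exists : ∃ x : ℝ → ℕ → E,
    (∀ θ n i, x θ n i = ZG.m i * x θ (n + 1) i + ZG.b i + S.p (x θ (n + 1)) i) ∧
      (∀ θ i, ZG.e i = true → x θ 0 i = (fun θ : ℝ => (![θ, 0, 0, 0] : E)) θ i) ∧
      (∀ θ n, ‖x θ n - rW θ n‖ ≤ 3 * S.δ) ∧ ∀ n, Continuous fun θ => x θ n := by
  refine exists_bwd ZG.toMult ZG.b (fun _ => S.p) (fun _ => S.p_lip)
    (fun θ => (![θ, 0, 0, 0] : E)) (cc4 (by fun_prop) (by fun_prop) (by fun_prop)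
      (by fun_prop)) rW rW_step ?_
    (fun n => cc4 (by fun_prop) (by fun_prop) (by fun_prop) (by fun_prop)) S.δ S.δ0
    (fun _ _ => S.pbd _)
  intro θ i hi
  fin_cases i
  · show (ph - 1) ^ 0 * θ = θ
    simp
  · simp [ZG, eG] at hi
  · simp [ZG, eG] at hi
  · simp [ZG, eG] at hi

/-- The backward orbits on the unstable curve. -/
noncomputable def xW : ℝ → ℕ → E := (xW_exists S).choose

theorem xW_close (t : ℝ) (n : ℕ) : ‖xW S t n - rW t n‖ ≤ 3 * S.δ :=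
  (xW_exists S).choose_spec.2.2.1 t n

theorem xW_cont (n : ℕ) : Continuous fun t => xW S t n := (xW_exists S).choose_spec.2.2.2 n

theorem xW_u (t : ℝ) : xW S t 0 0 = t := (xW_exists S).choose_spec.2.1 t 0 rfl

theorem xW_zone {t : ℝ} (h : |t| ≤ 6 / 5) (n : ℕ) : xW S t (n + 1) ∈ ZG.O := by
  have hd := S.δ1
  have h1 := ph_gt
  have h2 := ph_lt
  have hc := xW_close S t (n + 1)
  have c0 := coord_le hc 0
  have c1 := coord_le hc 1
  have c2 := coord_le hc 2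
  have c3 := coord_le hc 3
  simp only [rW, v4_0, v4_1, v4_2, v4_3, sub_zero] at c0 c1 c2 c3
  have p1 : |ph * ((ph - 1) ^ (n + 1) * t)| ≤ 6 / 5 := by
    have : ph * ((ph - 1) ^ (n + 1) * t) = (ph - 1) ^ n * t := by
      rw [pow_succ]
      linear_combination ((ph - 1) ^ n * t) * ph_sq
    rw [this, abs_mul, abs_pow]
    have : |ph - 1| ^ n ≤ 1 := pow_le_one₀ (abs_nonneg _) (by
      rw [abs_of_pos (by linarith)]; linarith)
    have h3 := abs_nonneg t
    nlinarith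
  rw [abs_le] at c0 c1 c2 c3 p1
  refine ⟨?_, ?_, ?_⟩
  · unfold xi1
    rw [abs_div, abs_of_pos (by linarith : (0 : ℝ) < ph + 2), div_lt_iff₀ (by linarith), abs_lt]
    constructor <;> nlinarith [c0.1, c0.2, c1.1, c1.2, p1.1, p1.2]
  · rw [abs_lt]; constructor <;> linarith [c2.1, c2.2]
  · rw [abs_lt]; constructor <;> linarith [c3.1, c3.2]

theorem xW_step {t : ℝ} (h : |t| ≤ 6 / 5) (n : ℕ) : S.G (xW S t (n + 1)) = xW S t n :=
  G_of_zone (xW_zone S h n) ((xW_exists S).choose_spec.1 t n)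

theorem xW_iter {t : ℝ} (h : |t| ≤ 6 / 5) (n : ℕ) : S.H^[n] (xW S t 0) = xW S t n := by
  induction n with
  | zero => rfl
  | succ n ih => rw [Function.iterate_succ_apply', ih, ← xW_step S h, S.HG]

/-! ### The fixed point -/

theorem xG_exists : ∃ x : Unit → ℤ → E,
    (∀ θ n i, x θ (n + 1) i = ZG.m i * x θ n i + ZG.b i + S.p (x θ n) i) ∧
      (∀ θ n, ‖x θ n - (fun _ _ => (0 : E)) θ n‖ ≤ 3 * S.δ) ∧ ∀ n, Continuous fun θ => x θ n :=
  exists_two ZG.toMult ZG.b (fun _ => S.p) (fun _ => S.p_lip) (fun _ _ => 0)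
    (fun _ _ i => by simp [ZG]) (fun n => continuous_const) S.δ S.δ0 (fun _ _ => S.pbd _)

theorem zg_of_small {x : E} (h : ‖x‖ ≤ 1 / 20) : x ∈ ZG.O := by
  have h1 := ph_gt
  have h2 := ph_lt
  have c0 := (norm_le_pi_norm x 0).trans h
  have c1 := (norm_le_pi_norm x 1).trans h
  have c2 := (norm_le_pi_norm x 2).trans h
  have c3 := (norm_le_pi_norm x 3).trans h
  rw [Real.norm_eq_abs] at c0 c1 c2 c3
  rw [abs_le] at c0 c1
  refine ⟨?_, by linarith, by linarith⟩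
  unfold xi1
  rw [abs_div, abs_of_pos (by linarith : (0 : ℝ) < ph + 2), div_lt_iff₀ (by linarith), abs_lt]
  constructor <;> nlinarith [c0.1, c0.2, c1.1, c1.2]

/-- The continuation of the fixed point. -/
noncomputable def ga : E := (xG_exists S).choose () 0

theorem xG_close (n : ℤ) : ‖(xG_exists S).choose () n‖ ≤ 3 * S.δ := by
  have := (xG_exists S).choose_spec.2.1 () n
  simpa using this

theorem ga_close : ‖ga S‖ ≤ 3 * S.δ := xG_close S 0

theorem ga_zone : ga S ∈ ZG.O := zg_of_small ((ga_close S).trans (by have := S.δ1; linarith))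

theorem ga_fix : S.G (ga S) = ga S := by
  have hd := S.δ1
  have hz : ∀ n, (xG_exists S).choose () n ∈ ZG.O := fun n =>
    zg_of_small ((xG_close S n).trans (by linarith))
  have hs : ∀ n, S.G ((xG_exists S).choose () n) = (xG_exists S).choose () (n + 1) := fun n =>
    G_of_zone (hz n) ((xG_exists S).choose_spec.1 () n)
  have := Sys.two_unique (S := S.toSys) (Z := ZG)
    (x := fun n => (xG_exists S).choose () (n + 1)) (y := fun n => (xG_exists S).choose () n)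
    (fun n => hz _) hz (fun n => hs _) hs
    (D := 6 * S.δ) (fun n => (norm_sub_le _ _).trans (by
      have := xG_close S n
      have := xG_close S (n + 1)
      linarith)) 0
  unfold ga
  rw [hs]
  exact this

theorem ga_iter (n : ℕ) : S.G^[n] (ga S) = ga S := by
  induction n with
  | zero => rfl
  | succ n ih => rw [Function.iterate_succ_apply', ih, ga_fix]

theorem ga_fixH : S.H (ga S) = ga S := by
  have := S.HG (ga S)
  rwa [ga_fix] at this

theorem ga_iterH (n : ℕ) : S.H^[n] (ga S) = ga S := by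
  induction n with
  | zero => rfl
  | succ n ih => rw [Function.iterate_succ_apply', ih, ga_fixH]

/-- Uniqueness of the continuation. -/
theorem ga_unique {y : ℤ → E} (hG : ∀ n, S.G (y n) = y (n + 1)) (hc : ∀ n, ‖y n‖ ≤ 1 / 20)
    (n : ℤ) : y n = ga S :=
  Sys.two_unique (S := S.toSys) (Z := ZG) (fun n => zg_of_small (hc n)) (fun _ => ga_zone S) hG
    (fun _ => ga_fix S) (D := 1 / 20 + 3 * S.δ) (fun n => (norm_sub_le _ _).trans
      (add_le_add (hc n) (ga_close S))) n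

/-- Points of the stable graph are forward asymptotic to the fixed point. -/
theorem xS_asymp {x : E} (h : Reg x) (n : ℕ) :
    ‖xS S x n - ga S‖ ≤ (2 / 3) ^ n * ‖xS S x 0 - ga S‖ :=
  Sys.fwd_dist (S := S.toSys) (Z := ZG) (y := fun _ => ga S) (xS_zone S h) (fun _ => ga_zone S)
    (xS_step S h) (fun _ => ga_fix S) (D := 2 + 3 * S.δ)
    (fun n => (norm_sub_le _ _).trans (add_le_add (xS_bdd S h n) (ga_close S))) n

/-- Points of the unstable curve are backward asymptotic to the fixed point. -/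
theorem xW_asymp {t : ℝ} (h : |t| ≤ 6 / 5) (n : ℕ) :
    ‖xW S t n - ga S‖ ≤ (2 / 3) ^ n * ‖xW S t 0 - ga S‖ := by
  refine Sys.bwd_dist (S := S.toSys) (Z := ZG) (y := fun _ => ga S) (xW_zone S h)
    (fun _ => ga_zone S) (xW_step S h) (fun _ => ga_fix S) (D := 6 / 5 + 6 * S.δ)
    (fun n => ?_) n
  have h1 := ph_gt
  have h2 := ph_lt
  have h3 : ‖rW t n‖ ≤ 6 / 5 := by
    unfold rW
    rw [norm_v, abs_mul, abs_pow]
    have : |ph - 1| ^ n ≤ 1 := pow_le_one₀ (abs_nonneg _) (by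
      rw [abs_of_pos (by linarith)]; linarith)
    have h3 := abs_nonneg t
    nlinarith
  have h4 := norm_le_norm_sub_add (xW S t n) (rW t n)
  have h5 := xW_close S t n
  have h6 := ga_close S
  exact (norm_sub_le _ _).trans (by linarith)

end Pool.Agent.W712.RC
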