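import Pool.Agent.W712.RC.Psi
import Pool.Agent.W712.RC.Hyp

set_option autoImplicit false

/-! # The map `F` of `ℝ⁴` -/

open Set Filter Topology Real

namespace Pool.Agent.W712.RC

theorem ph_sq : ph * ph = ph + 1 := by
  have := Real.goldenRatio_sq
  unfold ph; rw [← this]; ring

theorem ph_gt : 1618 / 1000 < ph := by
  have h1 := ph_sq
  have h2 : 1 < ph := Real.one_lt_goldenRatio
  nlinarith

theorem ph_lt : ph < 16181 / 10000 := by
  have h1 := ph_sq
  have h2 : ph < 2 := Real.goldenRatio_lt_two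
  have h3 := ph_gt
  nlinarith

/-- Smooth step. -/
noncomputable def sT (x : ℝ) : ℝ := Real.smoothTransition x

theorem sT_cd : ContDiff ℝ 1 sT := by
  have := Real.smoothTransition.contDiff (n := 1)
  exact_mod_cast this

theorem sT_zero {x : ℝ} (h : x ≤ 0) : sT x = 0 := Real.smoothTransition.zero_of_nonpos h

theorem sT_one {x : ℝ} (h : 1 ≤ x) : sT x = 1 := Real.smoothTransition.one_of_one_le h

theorem sT_le (x : ℝ) : sT x ≤ 1 := Real.smoothTransition.le_one x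

theorem sT_nonneg (x : ℝ) : 0 ≤ sT x := Real.smoothTransition.nonneg x

/-- The bump around `z = 1/3`. -/
noncomputable def tau (z : ℝ) : ℝ := sT (50 * (cos (2 * π * (z - 1 / 3)) - 49 / 50))
/-- The bump around `ξ = 1/2`. -/
noncomputable def TT (x : ℝ) : ℝ := sT (10 * (-cos (2 * π * x) - 1 / 2))
/-- The bump around `z = 0`. -/
noncomputable def cz (z : ℝ) : ℝ := sT (2 * cos (2 * π * z))
/-- The bump around `y = 1/4`. -/
noncomputable def sy (y : ℝ) : ℝ := sT (10 * (sin (2 * π * y) - 3 / 4))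

/-- The first integral coordinate. -/
noncomputable def xi1 (x : E) : ℝ := (ph * x 0 + x 1) / (ph + 2)
/-- The second integral coordinate. -/
noncomputable def xi2 (x : E) : ℝ := (x 0 - ph * x 1) / (ph + 2)

/-- The amount of the first shear. -/
noncomputable def aPsi (x : E) : ℝ := sin (2 * π * xi2 x) * tau (x 3)

/-- First shear. -/
noncomputable def Psi (x : E) : E := ![x 0 - ph * aPsi x, x 1 - aPsi x, x 2, x 3]
/-- Its inverse. -/
noncomputable def PsiI (x : E) : E := ![x 0 + ph * aPsi x, x 1 + aPsi x, x 2, x 3]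
/-- Second shear. -/
noncomputable def Thy (x : E) : E := ![x 0, x 1, x 2 + 1 / 4 * (TT (xi1 x) * cz (x 3)), x 3]
/-- Its inverse. -/
noncomputable def ThyI (x : E) : E := ![x 0, x 1, x 2 - 1 / 4 * (TT (xi1 x) * cz (x 3)), x 3]
/-- Third shear. -/
noncomputable def Thz (x : E) : E := ![x 0, x 1, x 2, x 3 + 3 / 4 * (TT (xi1 x) * sy (x 2))]
/-- Its inverse. -/
noncomputable def ThzI (x : E) : E := ![x 0, x 1, x 2, x 3 - 3 / 4 * (TT (xi1 x) * sy (x 2))]
/-- The product map. -/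
noncomputable def F0 (x : E) : E := ![ph * x 0, (1 - ph) * x 1, psi (x 2), psi (x 3)]
/-- Its inverse. -/
noncomputable def F0I (x : E) : E := ![(ph - 1) * x 0, -ph * x 1, psiI (x 2), psiI (x 3)]

/-- The map. -/
noncomputable def FF (x : E) : E := F0 (Thz (Thy (Psi x)))
/-- The inverse map. -/
noncomputable def FI (x : E) : E := PsiI (ThyI (ThzI (F0I x)))

theorem cd4 {f0 f1 f2 f3 : E → ℝ} (h0 : ContDiff ℝ 1 f0) (h1 : ContDiff ℝ 1 f1)
    (h2 : ContDiff ℝ 1 f2) (h3 : ContDiff ℝ 1 f3) :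
    ContDiff ℝ 1 (fun x => (![f0 x, f1 x, f2 x, f3 x] : E)) := by
  rw [contDiff_pi]
  intro i
  fin_cases i
  · exact h0
  · exact h1
  · exact h2
  · exact h3

theorem cc4 {X : Type*} [TopologicalSpace X] {f0 f1 f2 f3 : X → ℝ} (h0 : Continuous f0)
    (h1 : Continuous f1) (h2 : Continuous f2) (h3 : Continuous f3) :
    Continuous (fun x => (![f0 x, f1 x, f2 x, f3 x] : E)) := by
  rw [continuous_pi_iff]
  intro i
  fin_cases i
  · exact h0
  · exact h1
  · exact h2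
  · exact h3

theorem cdx (i : Fin 4) : ContDiff ℝ 1 (fun x : E => x i) := contDiff_apply ℝ ℝ i

theorem tau_cd : ContDiff ℝ 1 tau := sT_cd.comp (by fun_prop)
theorem TT_cd : ContDiff ℝ 1 TT := sT_cd.comp (by fun_prop)
theorem cz_cd : ContDiff ℝ 1 cz := sT_cd.comp (by fun_prop)
theorem sy_cd : ContDiff ℝ 1 sy := sT_cd.comp (by fun_prop)

theorem xi1_cd : ContDiff ℝ 1 xi1 := ((contDiff_const.mul (cdx 0)).add (cdx 1)).div_const _
theorem xi2_cd : ContDiff ℝ 1 xi2 := ((cdx 0).sub (contDiff_const.mul (cdx 1))).div_const _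

theorem aPsi_cd : ContDiff ℝ 1 aPsi :=
  (Real.contDiff_sin.comp (contDiff_const.mul xi2_cd)).mul (tau_cd.comp (cdx 3))

theorem Psi_cd : ContDiff ℝ 1 Psi :=
  cd4 ((cdx 0).sub (contDiff_const.mul aPsi_cd)) ((cdx 1).sub aPsi_cd) (cdx 2) (cdx 3)
theorem PsiI_cd : ContDiff ℝ 1 PsiI :=
  cd4 ((cdx 0).add (contDiff_const.mul aPsi_cd)) ((cdx 1).add aPsi_cd) (cdx 2) (cdx 3)
theorem Thy_cd : ContDiff ℝ 1 Thy :=
  cd4 (cdx 0) (cdx 1) ((cdx 2).add (contDiff_const.mul ((TT_cd.comp xi1_cd).mul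
    (cz_cd.comp (cdx 3))))) (cdx 3)
theorem ThyI_cd : ContDiff ℝ 1 ThyI :=
  cd4 (cdx 0) (cdx 1) ((cdx 2).sub (contDiff_const.mul ((TT_cd.comp xi1_cd).mul
    (cz_cd.comp (cdx 3))))) (cdx 3)
theorem Thz_cd : ContDiff ℝ 1 Thz :=
  cd4 (cdx 0) (cdx 1) (cdx 2) ((cdx 3).add (contDiff_const.mul ((TT_cd.comp xi1_cd).mul
    (sy_cd.comp (cdx 2)))))
theorem ThzI_cd : ContDiff ℝ 1 ThzI :=
  cd4 (cdx 0) (cdx 1) (cdx 2) ((cdx 3).sub (contDiff_const.mul ((TT_cd.comp xi1_cd).mul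
    (sy_cd.comp (cdx 2)))))
theorem F0_cd : ContDiff ℝ 1 F0 :=
  cd4 (contDiff_const.mul (cdx 0)) (contDiff_const.mul (cdx 1)) (psi_contDiff.comp (cdx 2))
    (psi_contDiff.comp (cdx 3))
theorem F0I_cd : ContDiff ℝ 1 F0I :=
  cd4 (contDiff_const.mul (cdx 0)) (contDiff_const.mul (cdx 1)) (psiI_contDiff.comp (cdx 2))
    (psiI_contDiff.comp (cdx 3))

theorem FF_cd : ContDiff ℝ 1 FF := F0_cd.comp (Thz_cd.comp (Thy_cd.comp Psi_cd))
theorem FI_cd : ContDiff ℝ 1 FI := PsiI_cd.comp (ThyI_cd.comp (ThzI_cd.comp F0I_cd))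

theorem F0_F0I (x : E) : F0 (F0I x) = x := by
  have h := ph_sq
  refine ext4 ?_ ?_ ?_ ?_ <;> simp only [F0, F0I, v4_0, v4_1, v4_2, v4_3, psi_psiI]
  · linear_combination (x 0) * h
  · linear_combination (x 1) * h

theorem F0I_F0 (x : E) : F0I (F0 x) = x := by
  have h := ph_sq
  refine ext4 ?_ ?_ ?_ ?_ <;> simp only [F0, F0I, v4_0, v4_1, v4_2, v4_3, psiI_psi]
  · linear_combination (x 0) * h
  · linear_combination (x 1) * h

theorem Thz_ThzI (x : E) : Thz (ThzI x) = x := by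
  refine ext4 ?_ ?_ ?_ ?_ <;> simp [Thz, ThzI, xi1]
theorem ThzI_Thz (x : E) : ThzI (Thz x) = x := by
  refine ext4 ?_ ?_ ?_ ?_ <;> simp [Thz, ThzI, xi1]
theorem Thy_ThyI (x : E) : Thy (ThyI x) = x := by
  refine ext4 ?_ ?_ ?_ ?_ <;> simp [Thy, ThyI, xi1]
theorem ThyI_Thy (x : E) : ThyI (Thy x) = x := by
  refine ext4 ?_ ?_ ?_ ?_ <;> simp [Thy, ThyI, xi1]

theorem aPsi_congr {x y : E} (h : x 0 - ph * x 1 = y 0 - ph * y 1) (h3 : x 3 = y 3) :
    aPsi x = aPsi y := by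
  unfold aPsi xi2
  rw [h, h3]

theorem Psi_PsiI (x : E) : Psi (PsiI x) = x := by
  have h : aPsi (PsiI x) = aPsi x := aPsi_congr (by simp only [PsiI, v4_0, v4_1]; ring) rfl
  refine ext4 ?_ ?_ ?_ ?_ <;> simp only [Psi, v4_0, v4_1, v4_2, v4_3, h] <;>
    simp only [PsiI, v4_0, v4_1, v4_2, v4_3] <;> ring
theorem PsiI_Psi (x : E) : PsiI (Psi x) = x := by
  have h : aPsi (Psi x) = aPsi x := aPsi_congr (by simp only [Psi, v4_0, v4_1]; ring) rfl
  refine ext4 ?_ ?_ ?_ ?_ <;> simp only [PsiI, v4_0, v4_1, v4_2, v4_3, h] <;>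
    simp only [Psi, v4_0, v4_1, v4_2, v4_3] <;> ring

theorem FF_FI (x : E) : FF (FI x) = x := by
  unfold FF FI
  rw [Psi_PsiI, Thy_ThyI, Thz_ThzI, F0_F0I]
theorem FI_FF (x : E) : FI (FF x) = x := by
  unfold FF FI
  rw [F0I_F0, ThzI_Thz, ThyI_Thy, PsiI_Psi]

/-! ### The lattice -/

theorem mem_Lat {x : E} : x ∈ Ltc ↔ ∃ m n k l : ℤ, x = ![ph * m + n, m - ph * n, k, l] := Iff.rfl

/-- Small lattice vectors vanish. -/
theorem Lat_small {x : E} (hx : x ∈ Ltc) (h : ‖x‖ < 1) : x = 0 := by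
  obtain ⟨m, n, k, l, rfl⟩ := mem_Lat.1 hx
  have h0 := (norm_le_pi_norm _ 0).trans_lt h
  have h1 := (norm_le_pi_norm _ 1).trans_lt h
  have h2 := (norm_le_pi_norm _ 2).trans_lt h
  have h3 := (norm_le_pi_norm _ 3).trans_lt h
  simp only [v4_0, v4_1, v4_2, v4_3, Real.norm_eq_abs] at h0 h1 h2 h3
  have hk : k = 0 := Int.abs_lt_one_iff.1 (by exact_mod_cast h2)
  have hl : l = 0 := Int.abs_lt_one_iff.1 (by exact_mod_cast h3)
  have hp := ph_sq
  have hg := ph_gt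
  have hprod : (ph * m + n) * (m - ph * n) = ph * (m ^ 2 - m * n - n ^ 2) := by
    linear_combination (-(m : ℝ) * n) * hp
  have h5 : |ph * ((m : ℝ) ^ 2 - m * n - n ^ 2)| < 1 := by
    rw [← hprod, abs_mul]
    have ha := abs_nonneg (ph * (m : ℝ) + n)
    have hb := abs_nonneg ((m : ℝ) - ph * n)
    nlinarith
  rw [abs_mul, abs_of_pos (by linarith : (0 : ℝ) < ph)] at h5
  have h6 : |((m ^ 2 - m * n - n ^ 2 : ℤ) : ℝ)| < 1 := by
    push_cast
    have := abs_nonneg ((m : ℝ) ^ 2 - m * n - n ^ 2)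
    nlinarith
  have h7 : m ^ 2 - m * n - n ^ 2 = 0 := Int.abs_lt_one_iff.1 (by exact_mod_cast h6)
  -- the product of the two coordinates vanishes, hence one of them vanishes
  have h8 : (ph * m + n) * ((m : ℝ) - ph * n) = 0 := by
    rw [hprod]
    have : ((m : ℝ) ^ 2 - m * n - n ^ 2) = 0 := by exact_mod_cast h7
    rw [this, mul_zero]
  have hirr : Irrational ph := Real.goldenRatio_irrational
  have hmn : m = 0 ∧ n = 0 := by
    rcases mul_eq_zero.1 h8 with h9 | h9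
    · by_cases hm : m = 0
      · subst hm; simp at h9; exact ⟨rfl, h9⟩
      · exfalso
        refine hirr ⟨(-n : ℚ) / m, ?_⟩
        have hm' : (m : ℝ) ≠ 0 := by exact_mod_cast hm
        push_cast
        rw [div_eq_iff hm']
        linarith
    · by_cases hn : n = 0
      · subst hn; simp at h9; exact ⟨h9, rfl⟩
      · exfalso
        refine hirr ⟨(m : ℚ) / n, ?_⟩
        have hn' : (n : ℝ) ≠ 0 := by exact_mod_cast hn
        push_cast
        rw [div_eq_iff hn']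
        linarith
  rw [hmn.1, hmn.2, hk, hl]
  refine ext4 ?_ ?_ ?_ ?_ <;> simp

/-- The linear action on the lattice. -/
noncomputable def AL (x : E) : E := ![ph * x 0, (1 - ph) * x 1, x 2, x 3]
/-- Its inverse. -/
noncomputable def AI (x : E) : E := ![(ph - 1) * x 0, -ph * x 1, x 2, x 3]

theorem AL_mem {x : E} (hx : x ∈ Ltc) : AL x ∈ Ltc := by
  obtain ⟨m, n, k, l, rfl⟩ := mem_Lat.1 hx
  have hp := ph_sq
  refine ⟨m + n, m, k, l, ?_⟩
  refine ext4 ?_ ?_ ?_ ?_ <;> simp only [AL, v4_0, v4_1, v4_2, v4_3]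
  · push_cast; linear_combination (m : ℝ) * hp
  · push_cast; linear_combination (n : ℝ) * hp

theorem AI_mem {x : E} (hx : x ∈ Ltc) : AI x ∈ Ltc := by
  obtain ⟨m, n, k, l, rfl⟩ := mem_Lat.1 hx
  have hp := ph_sq
  refine ⟨n, m - n, k, l, ?_⟩
  refine ext4 ?_ ?_ ?_ ?_ <;> simp only [AI, v4_0, v4_1, v4_2, v4_3]
  · push_cast; linear_combination (m : ℝ) * hp
  · push_cast; linear_combination (n : ℝ) * hp

theorem xi1_add {x l : E} (hl : l ∈ Ltc) : ∃ m : ℤ, xi1 (x + l) = xi1 x + m := by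
  obtain ⟨m, n, k, l, rfl⟩ := mem_Lat.1 hl
  refine ⟨m, ?_⟩
  have hp := ph_sq
  have hg := ph_gt
  unfold xi1
  simp only [Pi.add_apply, v4_0, v4_1]
  have h2 : ph + 2 ≠ 0 := by linarith
  field_simp
  linear_combination (m : ℝ) * hp

theorem xi2_add {x l : E} (hl : l ∈ Ltc) : ∃ m : ℤ, xi2 (x + l) = xi2 x + m := by
  obtain ⟨m, n, k, l, rfl⟩ := mem_Lat.1 hl
  refine ⟨n, ?_⟩
  have hp := ph_sq
  have hg := ph_gt
  unfold xi2
  simp only [Pi.add_apply, v4_0, v4_1]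
  have h2 : ph + 2 ≠ 0 := by linarith
  field_simp
  linear_combination (n : ℝ) * hp

theorem cos_int (t : ℝ) (m : ℤ) : cos (2 * π * (t + m)) = cos (2 * π * t) := by
  have : 2 * π * (t + m) = 2 * π * t + m * (2 * π) := by ring
  rw [this, Real.cos_add_int_mul_two_pi]
theorem sin_int (t : ℝ) (m : ℤ) : sin (2 * π * (t + m)) = sin (2 * π * t) := by
  have : 2 * π * (t + m) = 2 * π * t + m * (2 * π) := by ring
  rw [this, Real.sin_add_int_mul_two_pi]

theorem tau_int (t : ℝ) (m : ℤ) : tau (t + m) = tau t := by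
  unfold tau
  rw [show t + (m : ℝ) - 1 / 3 = t - 1 / 3 + m by ring, cos_int]
theorem TT_int (t : ℝ) (m : ℤ) : TT (t + m) = TT t := by unfold TT; rw [cos_int]
theorem cz_int (t : ℝ) (m : ℤ) : cz (t + m) = cz t := by unfold cz; rw [cos_int]
theorem sy_int (t : ℝ) (m : ℤ) : sy (t + m) = sy t := by unfold sy; rw [sin_int]

theorem lat23 {l : E} (hl : l ∈ Ltc) : (∃ k : ℤ, l 2 = k) ∧ ∃ k : ℤ, l 3 = k := by
  obtain ⟨m, n, k, l, rfl⟩ := mem_Lat.1 hl
  exact ⟨⟨k, rfl⟩, ⟨l, rfl⟩⟩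

theorem aPsi_add {x l : E} (hl : l ∈ Ltc) : aPsi (x + l) = aPsi x := by
  obtain ⟨n, hn⟩ := xi2_add (x := x) hl
  obtain ⟨k, hk⟩ := (lat23 hl).2
  unfold aPsi
  rw [hn, sin_int, Pi.add_apply, hk, tau_int]

theorem Psi_add {x l : E} (hl : l ∈ Ltc) : Psi (x + l) = Psi x + l := by
  refine ext4 ?_ ?_ ?_ ?_ <;> simp only [Psi, Pi.add_apply, v4_0, v4_1, v4_2, v4_3,
    aPsi_add hl] <;> ring
theorem PsiI_add {x l : E} (hl : l ∈ Ltc) : PsiI (x + l) = PsiI x + l := by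
  refine ext4 ?_ ?_ ?_ ?_ <;> simp only [PsiI, Pi.add_apply, v4_0, v4_1, v4_2, v4_3,
    aPsi_add hl] <;> ring

theorem Thy_add {x l : E} (hl : l ∈ Ltc) : Thy (x + l) = Thy x + l := by
  obtain ⟨n, hn⟩ := xi1_add (x := x) hl
  obtain ⟨k, hk⟩ := (lat23 hl).2
  have h3 : cz (x 3 + l 3) = cz (x 3) := by rw [hk, cz_int]
  refine ext4 ?_ ?_ ?_ ?_ <;> simp only [Thy, v4_0, v4_1, v4_2, v4_3, hn, TT_int] <;>
    simp only [Pi.add_apply, v4_0, v4_1, v4_2, v4_3, h3] <;> ring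
theorem ThyI_add {x l : E} (hl : l ∈ Ltc) : ThyI (x + l) = ThyI x + l := by
  obtain ⟨n, hn⟩ := xi1_add (x := x) hl
  obtain ⟨k, hk⟩ := (lat23 hl).2
  have h3 : cz (x 3 + l 3) = cz (x 3) := by rw [hk, cz_int]
  refine ext4 ?_ ?_ ?_ ?_ <;> simp only [ThyI, v4_0, v4_1, v4_2, v4_3, hn, TT_int] <;>
    simp only [Pi.add_apply, v4_0, v4_1, v4_2, v4_3, h3] <;> ring
theorem Thz_add {x l : E} (hl : l ∈ Ltc) : Thz (x + l) = Thz x + l := by
  obtain ⟨n, hn⟩ := xi1_add (x := x) hl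
  obtain ⟨k, hk⟩ := (lat23 hl).1
  have h3 : sy (x 2 + l 2) = sy (x 2) := by rw [hk, sy_int]
  refine ext4 ?_ ?_ ?_ ?_ <;> simp only [Thz, v4_0, v4_1, v4_2, v4_3, hn, TT_int] <;>
    simp only [Pi.add_apply, v4_0, v4_1, v4_2, v4_3, h3] <;> ring
theorem ThzI_add {x l : E} (hl : l ∈ Ltc) : ThzI (x + l) = ThzI x + l := by
  obtain ⟨n, hn⟩ := xi1_add (x := x) hl
  obtain ⟨k, hk⟩ := (lat23 hl).1
  have h3 : sy (x 2 + l 2) = sy (x 2) := by rw [hk, sy_int]
  refine ext4 ?_ ?_ ?_ ?_ <;> simp only [ThzI, v4_0, v4_1, v4_2, v4_3, hn, TT_int] <;>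
    simp only [Pi.add_apply, v4_0, v4_1, v4_2, v4_3, h3] <;> ring

theorem F0_add {x l : E} (hl : l ∈ Ltc) : F0 (x + l) = F0 x + AL l := by
  obtain ⟨⟨k, hk⟩, ⟨k', hk'⟩⟩ := lat23 hl
  refine ext4 ?_ ?_ ?_ ?_ <;> simp only [F0, AL, Pi.add_apply, v4_0, v4_1, v4_2, v4_3]
  · ring
  · ring
  · rw [hk, psi_add_int]
  · rw [hk', psi_add_int]
theorem F0I_add {x l : E} (hl : l ∈ Ltc) : F0I (x + l) = F0I x + AI l := by
  obtain ⟨⟨k, hk⟩, ⟨k', hk'⟩⟩ := lat23 hl
  refine ext4 ?_ ?_ ?_ ?_ <;> simp only [F0I, AI, Pi.add_apply, v4_0, v4_1, v4_2, v4_3]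
  · ring
  · ring
  · rw [hk, psiI_add_int]
  · rw [hk', psiI_add_int]

theorem FF_add {x l : E} (hl : l ∈ Ltc) : FF (x + l) = FF x + AL l := by
  unfold FF
  rw [Psi_add hl, Thy_add hl, Thz_add hl, F0_add hl]
theorem FI_add {x l : E} (hl : l ∈ Ltc) : FI (x + l) = FI x + AI l := by
  unfold FI
  rw [F0I_add hl, ThzI_add (AI_mem hl), ThyI_add (AI_mem hl), PsiI_add (AI_mem hl)]

/-! ### Vanishing of the bumps -/

theorem tau_zero {z : ℝ} (h : z - 1 / 3 ≤ -(1 / 20)) (h' : -(19 / 20) ≤ z - 1 / 3) : tau z = 0 := by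
  refine sT_zero ?_
  have hpi := Real.pi_pos
  have key : ∀ t : ℝ, 1 / 20 ≤ t → t ≤ 1 / 2 → cos (2 * π * t) ≤ 49 / 50 := by
    intro t ht ht'
    have h1 := Real.cos_le_one_sub_mul_cos_sq (x := 2 * π * t)
      (by rw [abs_of_nonneg (by positivity)]; nlinarith)
    have h2 : 2 / π ^ 2 * (2 * π * t) ^ 2 = 8 * t ^ 2 := by field_simp; ring
    rw [h2] at h1
    nlinarith
  have : cos (2 * π * (z - 1 / 3)) ≤ 49 / 50 := by
    rcases le_total (-(1 / 2)) (z - 1 / 3) with h1 | h1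
    · have := key (-(z - 1 / 3)) (by linarith) (by linarith)
      rwa [mul_neg, Real.cos_neg] at this
    · have := key (z - 1 / 3 + 1) (by linarith) (by linarith)
      have h2 := cos_int (z - 1 / 3) 1
      push_cast at h2
      rwa [h2] at this
  linarith

theorem tau_zero' {z : ℝ} (h : 1 / 20 ≤ z - 1 / 3) (h' : z - 1 / 3 ≤ 19 / 20) : tau z = 0 := by
  have h1 := tau_zero (z := z + ((-1 : ℤ) : ℝ)) (by push_cast; linarith) (by push_cast; linarith)
  rwa [tau_int] at h1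

theorem TT_zero {x : ℝ} (h : |x| ≤ 1 / 3) : TT x = 0 := by
  refine sT_zero ?_
  have hpi := Real.pi_pos
  have h1 : cos (2 * π * (1 / 3)) ≤ cos (2 * π * |x|) := by
    apply Real.cos_le_cos_of_nonneg_of_le_pi (by positivity) (by linarith)
    have := abs_nonneg x
    nlinarith
  have h2 : cos (2 * π * (1 / 3)) = -(1 / 2) := by
    have : 2 * π * (1 / 3) = π - π / 3 := by ring
    rw [this, Real.cos_pi_sub, Real.cos_pi_div_three]
  have h3 : cos (2 * π * |x|) = cos (2 * π * x) := by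
    rcases abs_cases x with ⟨h, -⟩ | ⟨h, -⟩ <;> rw [h]
    rw [mul_neg, Real.cos_neg]
  rw [h2, h3] at h1
  linarith

theorem cz_zero {z : ℝ} (h : 1 / 4 ≤ z) (h' : z ≤ 3 / 4) : cz z = 0 := by
  refine sT_zero ?_
  have hpi := Real.pi_pos
  have := Real.cos_nonpos_of_pi_div_two_le_of_le (x := 2 * π * z) (by nlinarith) (by nlinarith)
  linarith

theorem sy_zero {y : ℝ} (h : |y| ≤ 1 / 8) : sy y = 0 := by
  refine sT_zero ?_
  have hpi := Real.pi_pos
  rw [abs_le] at h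
  have h1 : sin (2 * π * y) ≤ sin (π / 4) := by
    apply Real.sin_le_sin_of_le_of_le_pi_div_two <;> nlinarith
  rw [Real.sin_pi_div_four] at h1
  have h2 : √2 < 3 / 2 := by
    rw [Real.sqrt_lt' (by norm_num)]
    norm_num
  linarith

/-! ### Formulas for `F` -/

theorem FF_of {x : E} (h1 : TT (xi1 (Psi x)) * cz (x 3) = 0)
    (h2 : TT (xi1 (Psi x)) * sy (x 2) = 0) : FF x = F0 (Psi x) := by
  have hy : Thy (Psi x) = Psi x := by
    refine ext4 ?_ ?_ ?_ ?_ <;> simp only [Thy, v4_0, v4_1, v4_2, v4_3]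
    have : Psi x 3 = x 3 := rfl
    rw [this, h1]; ring
  have hz : Thz (Psi x) = Psi x := by
    refine ext4 ?_ ?_ ?_ ?_ <;> simp only [Thz, v4_0, v4_1, v4_2, v4_3]
    have : Psi x 2 = x 2 := rfl
    rw [this, h2]; ring
  unfold FF
  rw [hy, hz]

theorem Psi_of {x : E} (h : tau (x 3) = 0) : Psi x = x := by
  have : aPsi x = 0 := by unfold aPsi; rw [h, mul_zero]
  refine ext4 ?_ ?_ ?_ ?_ <;> simp [Psi, this]

/-- Flags: `u` and `z` expand. -/
def eL : Fin 4 → Bool := ![true, false, false, true]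
/-- Flags: `u` expands. -/
def eG : Fin 4 → Bool := ![true, false, false, false]

/-- The zone around `Λ`. -/
noncomputable def ZL : Zone FF where
  e := eL
  m := ![ph, 1 - ph, 1 / 8, 11 / 4]
  hcon := by
    have h1 := ph_gt
    have h2 := ph_lt
    intro i hi
    fin_cases i
    · simp [eL] at hi
    · show |1 - ph| + 1 / 10000 ≤ 2 / 3
      rw [abs_of_neg (by linarith)]; linarith
    · show |(1 / 8 : ℝ)| + 1 / 10000 ≤ 2 / 3
      rw [abs_of_pos (by norm_num)]; norm_num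
    · simp [eL] at hi
  hexp := by
    have h1 := ph_gt
    have h2 := ph_lt
    intro i hi
    fin_cases i
    · show 1 + 1 / 10000 ≤ 2 / 3 * |ph|
      rw [abs_of_pos (by linarith)]; linarith
    · simp [eL] at hi
    · simp [eL] at hi
    · show 1 + 1 / 10000 ≤ 2 / 3 * |(11 / 4 : ℝ)|
      rw [abs_of_pos (by norm_num)]; norm_num
  O := {x | |x 2| < 1 / 8 ∧ |x 3 - 1 / 2| < 1 / 12}
  b := ![0, 0, 0, -(7 / 8)]
  hO := (isOpen_lt (continuous_abs.comp (continuous_apply 2)) continuous_const).inter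
    (isOpen_lt (continuous_abs.comp ((continuous_apply 3).sub continuous_const)) continuous_const)
  hF := by
    rintro x ⟨hy, hz⟩ i
    rw [abs_lt] at hz
    have h1 : FF x = F0 x := by
      have h0 : Psi x = x := Psi_of (tau_zero' (by linarith) (by linarith))
      rw [FF_of, h0]
      · rw [cz_zero (by linarith) (by linarith), mul_zero]
      · rw [sy_zero hy.le, mul_zero]
    rw [h1]
    fin_cases i
    · show ph * x 0 = ph * x 0 + 0
      ring
    · show (1 - ph) * x 1 = (1 - ph) * x 1 + 0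
      ring
    · show psi (x 2) = 1 / 8 * x 2 + 0
      rw [psi_small (by linarith)]; ring
    · show psi (x 3) = 11 / 4 * x 3 + -(7 / 8)
      rw [psi_top (by linarith) (by linarith)]; ring

/-- The zone around `Γ`. -/
noncomputable def ZG : Zone FF where
  e := eG
  m := ![ph, 1 - ph, 1 / 8, 1 / 8]
  hcon := by
    have h1 := ph_gt
    have h2 := ph_lt
    intro i hi
    fin_cases i
    · simp [eG] at hi
    · show |1 - ph| + 1 / 10000 ≤ 2 / 3
      rw [abs_of_neg (by linarith)]; linarith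
    · show |(1 / 8 : ℝ)| + 1 / 10000 ≤ 2 / 3
      rw [abs_of_pos (by norm_num)]; norm_num
    · show |(1 / 8 : ℝ)| + 1 / 10000 ≤ 2 / 3
      rw [abs_of_pos (by norm_num)]; norm_num
  hexp := by
    have h1 := ph_gt
    have h2 := ph_lt
    intro i hi
    fin_cases i
    · show 1 + 1 / 10000 ≤ 2 / 3 * |ph|
      rw [abs_of_pos (by linarith)]; linarith
    · simp [eG] at hi
    · simp [eG] at hi
    · simp [eG] at hi
  O := {x | |xi1 x| < 1 / 3 ∧ |x 2| < 1 / 4 ∧ |x 3| < 1 / 4}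
  b := 0
  hO := (isOpen_lt (continuous_abs.comp xi1_cd.continuous) continuous_const).inter
    ((isOpen_lt (continuous_abs.comp (continuous_apply 2)) continuous_const).inter
      (isOpen_lt (continuous_abs.comp (continuous_apply 3)) continuous_const))
  hF := by
    rintro x ⟨hx, hy, hz⟩ i
    have hz' := hz
    rw [abs_lt] at hz'
    have h1 : FF x = F0 x := by
      have h0 : Psi x = x := Psi_of (tau_zero (by linarith) (by linarith))
      rw [FF_of, h0]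
      · rw [h0, TT_zero hx.le, zero_mul]
      · rw [h0, TT_zero hx.le, zero_mul]
    rw [h1]
    fin_cases i
    · show ph * x 0 = ph * x 0 + 0
      ring
    · show (1 - ph) * x 1 = (1 - ph) * x 1 + 0
      ring
    · show psi (x 2) = 1 / 8 * x 2 + 0
      rw [psi_small (by linarith)]; ring
    · show psi (x 3) = 1 / 8 * x 3 + 0
      rw [psi_small (by linarith)]; ring

end Pool.Agent.W712.RC
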