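import Pool.Agent.W712.RC.Map

set_option autoImplicit false

/-! # The special orbits of the perturbed maps -/

open Set Filter Topology Real

namespace Pool.Agent.W712.RC

/-- A periodic perturbation of `FF`. -/
structure PSys extends Sys FF where
  per : ∀ x l, l ∈ Ltc → G (x + l) - FF (x + l) = G x - FF x

namespace PSys

variable (S : PSys)

theorem G_add (x l : E) (hl : l ∈ Ltc) : S.G (x + l) = S.G x + AL l := by
  have h1 := S.per x l hl
  rw [FF_add hl] at h1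
  have : S.G (x + l) = (FF x + AL l) + (S.G x - FF x) := by rw [← h1]; abel
  rw [this]; abel

theorem AL_AI (x : E) : AL (AI x) = x := by
  have h := ph_sq
  refine ext4 ?_ ?_ ?_ ?_ <;> simp only [AL, AI, v4_0, v4_1, v4_2, v4_3]
  · linear_combination (x 0) * h
  · linear_combination (x 1) * h

theorem H_add (x l : E) (hl : l ∈ Ltc) : S.H (x + l) = S.H x + AI l := by
  have h1 := S.G_add (S.H x) (AI l) (AI_mem hl)
  rw [S.GH, AL_AI] at h1
  rw [← h1, S.HG]

theorem pbd (x : E) : ‖S.p x‖ ≤ S.δ := S.bd x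

end PSys

namespace Sys

variable {F : E → E} {S : Sys F} {Z : Zone F}

/-- Uniqueness of two-sided orbits in a zone. -/
theorem two_unique {x y : ℤ → E} (hx : ∀ n, x n ∈ Z.O) (hy : ∀ n, y n ∈ Z.O)
    (hGx : ∀ n, S.G (x n) = x (n + 1)) (hGy : ∀ n, S.G (y n) = y (n + 1)) {D : ℝ}
    (hD : ∀ n, ‖x n - y n‖ ≤ D) (n : ℤ) : x n = y n := by
  have := two_zero (c := fun i => !Z.e i) (lam := 2 / 3) (by norm_num) (by norm_num)
    (fun n => x n - y n) (fun n => by
      have := rel (S := S) (hx n) (hy n)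
      rwa [hGx, hGy] at this) hD n
  exact sub_eq_zero.1 this

/-- Decay of the difference of forward orbits in a zone. -/
theorem fwd_dist {x y : ℕ → E} (hx : ∀ n, x n ∈ Z.O) (hy : ∀ n, y n ∈ Z.O)
    (hGx : ∀ n, S.G (x n) = x (n + 1)) (hGy : ∀ n, S.G (y n) = y (n + 1)) {D : ℝ}
    (hD : ∀ n, ‖x n - y n‖ ≤ D) (n : ℕ) : ‖x n - y n‖ ≤ (2 / 3) ^ n * ‖x 0 - y 0‖ :=
  fwd_decay (c := fun i => !Z.e i) (lam := 2 / 3) (by norm_num) (by norm_num)
    (fun n => x n - y n) (fun n => by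
      have := rel (S := S) (hx n) (hy n)
      rwa [hGx, hGy] at this) hD n

/-- The difference of forward orbits in a zone is controlled by the contracting coordinates. -/
theorem fwd_ctrl {x y : ℕ → E} (hx : ∀ n, x n ∈ Z.O) (hy : ∀ n, y n ∈ Z.O)
    (hGx : ∀ n, S.G (x n) = x (n + 1)) (hGy : ∀ n, S.G (y n) = y (n + 1)) {D : ℝ}
    (hD : ∀ n, ‖x n - y n‖ ≤ D) {d : ℝ} (hd : 0 ≤ d)
    (hd0 : ∀ i, Z.e i = false → |x 0 i - y 0 i| ≤ d) :
    (∀ n, ‖x n - y n‖ ≤ d) ∧ ∀ n i, Z.e i = true → |x n i - y n i| ≤ 2 / 3 * d := by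
  have hr : ∀ n, Rel (fun i => !Z.e i) (2 / 3) (x n - y n) (x (n + 1) - y (n + 1)) := fun n => by
    have := rel (S := S) (hx n) (hy n)
    rwa [hGx, hGy] at this
  have h0 : ∀ i, (fun i => !Z.e i) i = true → |(fun n => x n - y n) 0 i| ≤ d :=
    fun i hi => hd0 i (by simpa using hi)
  exact ⟨fwd_bound (by norm_num) (by norm_num) hd (fun n => x n - y n) hr hD h0,
    fun n i hi => fwd_cone (by norm_num) (by norm_num) hd (fun n => x n - y n) hr hD h0 n i
      (by simp [hi])⟩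

/-- The difference of backward orbits in a zone: decay. -/
theorem bwd_dist {x y : ℕ → E} (hx : ∀ n, x (n + 1) ∈ Z.O) (hy : ∀ n, y (n + 1) ∈ Z.O)
    (hGx : ∀ n, S.G (x (n + 1)) = x n) (hGy : ∀ n, S.G (y (n + 1)) = y n) {D : ℝ}
    (hD : ∀ n, ‖x n - y n‖ ≤ D) (n : ℕ) : ‖x n - y n‖ ≤ (2 / 3) ^ n * ‖x 0 - y 0‖ :=
  fwd_decay (c := Z.e) (lam := 2 / 3) (by norm_num) (by norm_num)
    (fun n => x n - y n) (fun n => by
      have := (rel (S := S) (hx n) (hy n)).rev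
      rw [hGx, hGy] at this
      simpa using this) hD n

/-- The difference of backward orbits in a zone is controlled by the expanding coordinates. -/
theorem bwd_ctrl {x y : ℕ → E} (hx : ∀ n, x (n + 1) ∈ Z.O) (hy : ∀ n, y (n + 1) ∈ Z.O)
    (hGx : ∀ n, S.G (x (n + 1)) = x n) (hGy : ∀ n, S.G (y (n + 1)) = y n) {D : ℝ}
    (hD : ∀ n, ‖x n - y n‖ ≤ D) {d : ℝ} (hd : 0 ≤ d)
    (hd0 : ∀ i, Z.e i = true → |x 0 i - y 0 i| ≤ d) (n : ℕ) : ‖x n - y n‖ ≤ d :=
  fwd_bound (c := Z.e) (lam := 2 / 3) (by norm_num) (by norm_num) hd (fun n => x n - y n)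
    (fun n => by
      have := (rel (S := S) (hx n) (hy n)).rev
      rw [hGx, hGy] at this
      simpa using this) hD (fun i hi => hd0 i hi) n

end Sys

theorem G_of_zone {F : E → E} {S : Sys F} {Z : Zone F} {x y : E} (hx : x ∈ Z.O)
    (h : ∀ i, y i = Z.m i * x i + Z.b i + S.p x i) : S.G x = y := by
  funext i
  rw [Sys.G_zone hx, h]

theorem coord_le {x y : E} {d : ℝ} (h : ‖x - y‖ ≤ d) (i : Fin 4) : |x i - y i| ≤ d :=
  (norm_le_pi_norm (x - y) i).trans h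

theorem ph_pos : 0 < ph := by have := ph_gt; linarith
theorem ph_ne : ph ≠ 0 := ph_pos.ne'
theorem ph1_ne : 1 - ph ≠ 0 := by have := ph_gt; intro h; linarith

/-! ### The continuation of `Λ` -/

/-- The reference orbit. -/
noncomputable def rL (θ : ℝ × ℝ) (n : ℤ) : E := ![ph ^ n * θ.1, (1 - ph) ^ n * θ.2, 0, 1 / 2]

theorem rL_step (θ : ℝ × ℝ) (n : ℤ) (i : Fin 4) : rL θ (n + 1) i = ZL.m i * rL θ n i + ZL.b i := by
  have h1 := zpow_add_one₀ ph_ne n
  have h2 := zpow_add_one₀ ph1_ne n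
  fin_cases i
  · show ph ^ (n + 1) * θ.1 = ph * (ph ^ n * θ.1) + 0
    rw [h1]; ring
  · show (1 - ph) ^ (n + 1) * θ.2 = (1 - ph) * ((1 - ph) ^ n * θ.2) + 0
    rw [h2]; ring
  · show (0 : ℝ) = 1 / 8 * 0 + 0
    norm_num
  · show (1 / 2 : ℝ) = 11 / 4 * (1 / 2) + -(7 / 8)
    norm_num

theorem xL_exists (S : PSys) : ∃ x : ℝ × ℝ → ℤ → E,
    (∀ θ n i, x θ (n + 1) i = ZL.m i * x θ n i + ZL.b i + S.p (x θ n) i) ∧
      (∀ θ n, ‖x θ n - rL θ n‖ ≤ 3 * S.δ) ∧ ∀ n, Continuous fun θ => x θ n :=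
  exists_two ZL.toMult ZL.b (fun _ => S.p) (fun _ => S.p_lip) rL rL_step
    (fun n => cc4 (by fun_prop) (by fun_prop) (by fun_prop) (by fun_prop)) S.δ S.δ0
    (fun _ _ => S.pbd _)

/-- The orbits of the continuation of `Λ`. -/
noncomputable def xL (S : PSys) : ℝ × ℝ → ℤ → E := (xL_exists S).choose

section Lam

variable (S : PSys)

theorem xL_close (θ : ℝ × ℝ) (n : ℤ) : ‖xL S θ n - rL θ n‖ ≤ 3 * S.δ :=
  (xL_exists S).choose_spec.2.1 θ n

theorem xL_cont (n : ℤ) : Continuous fun θ => xL S θ n := (xL_exists S).choose_spec.2.2 n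

theorem zl_of_close {x : E} {θ : ℝ × ℝ} {n : ℤ} (h : ‖x - rL θ n‖ ≤ 1 / 20) : x ∈ ZL.O := by
  have h2 := coord_le h 2
  have h3 := coord_le h 3
  simp only [rL, v4_2, v4_3, sub_zero] at h2 h3
  exact ⟨by linarith, by linarith⟩

theorem xL_zone (θ : ℝ × ℝ) (n : ℤ) : xL S θ n ∈ ZL.O :=
  zl_of_close ((xL_close S θ n).trans (by have := S.δ1; linarith))

theorem xL_step (θ : ℝ × ℝ) (n : ℤ) : S.G (xL S θ n) = xL S θ (n + 1) :=
  G_of_zone (xL_zone S θ n) ((xL_exists S).choose_spec.1 θ n)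

/-- Characterisation of the orbits of the continuation. -/
theorem xL_unique {θ : ℝ × ℝ} {y : ℤ → E} (hG : ∀ n, S.G (y n) = y (n + 1))
    (hc : ∀ n, ‖y n - rL θ n‖ ≤ 1 / 20) (n : ℤ) : y n = xL S θ n := by
  refine Sys.two_unique (S := S.toSys) (Z := ZL) (fun n => zl_of_close (hc n)) (xL_zone S θ) hG
    (xL_step S θ) (D := 1 / 20 + 3 * S.δ) (fun n => ?_) n
  have h1 := norm_sub_le_norm_sub_add_norm_sub (y n) (rL θ n) (xL S θ n)
  rw [norm_sub_rev (rL θ n)] at h1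
  exact h1.trans (add_le_add (hc n) (xL_close S θ n))

/-- The linear map on the plane. -/
noncomputable def AT (θ : ℝ × ℝ) : ℝ × ℝ := (ph * θ.1, (1 - ph) * θ.2)

theorem rL_AT (θ : ℝ × ℝ) (n : ℤ) : rL (AT θ) n = rL θ (n + 1) := by
  have h1 := zpow_add_one₀ ph_ne n
  have h2 := zpow_add_one₀ ph1_ne n
  refine ext4 ?_ ?_ ?_ ?_ <;> simp only [rL, AT, v4_0, v4_1, v4_2, v4_3, h1, h2] <;> ring

theorem xL_AT (θ : ℝ × ℝ) (n : ℤ) : xL S (AT θ) n = xL S θ (n + 1) := by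
  symm
  refine xL_unique S (y := fun n => xL S θ (n + 1)) (fun n => xL_step S θ _) (fun n => ?_) n
  rw [rL_AT]
  exact (xL_close S θ _).trans (by have := S.δ1; linarith)

/-- The continuation of `Λ` at the level of the plane. -/
noncomputable def hL (θ : ℝ × ℝ) : E := xL S θ 0

theorem hL_cont : Continuous (hL S) := xL_cont S 0

theorem hL_AT (θ : ℝ × ℝ) : S.G (hL S θ) = hL S (AT θ) := by
  unfold hL
  rw [xL_AT, xL_step]

theorem hL_close (θ : ℝ × ℝ) : ‖hL S θ - ![θ.1, θ.2, 0, 1 / 2]‖ ≤ 3 * S.δ := by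
  have := xL_close S θ 0
  simp only [rL, zpow_zero, one_mul] at this
  exact this

theorem hL_iter (θ : ℝ × ℝ) (n : ℕ) : S.G^[n] (hL S θ) = xL S θ n := by
  induction n with
  | zero => rfl
  | succ n ih =>
    rw [Function.iterate_succ_apply', ih, xL_step]
    push_cast; rfl

theorem hL_iterH (θ : ℝ × ℝ) (n : ℕ) : S.H^[n] (hL S θ) = xL S θ (-n) := by
  induction n with
  | zero => simp [hL]
  | succ n ih =>
    rw [Function.iterate_succ_apply', ih]
    have h1 := xL_step S θ (-(n + 1 : ℕ))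
    rw [show (-((n + 1 : ℕ) : ℤ)) + 1 = -n by push_cast; ring] at h1
    rw [← h1, S.HG]

/-- The orbit of a planar lattice vector. -/
theorem lat_orb {a b : ℝ} (h : (![a, b, 0, 0] : E) ∈ Ltc) (n : ℤ) :
    (![ph ^ n * a, (1 - ph) ^ n * b, 0, 0] : E) ∈ Ltc := by
  have hp := ph_sq
  induction n using Int.induction_on with
  | zero => simpa using h
  | succ n ih =>
    have := AL_mem ih
    convert this using 1
    have h1 := zpow_add_one₀ ph_ne n
    have h2 := zpow_add_one₀ ph1_ne n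
    refine ext4 ?_ ?_ ?_ ?_ <;> simp only [AL, v4_0, v4_1, v4_2, v4_3, h1, h2] <;> ring
  | pred n ih =>
    have := AI_mem ih
    convert this using 1
    have h1 : ph ^ (-(n : ℤ)) = ph ^ (-(n : ℤ) - 1) * ph := by
      rw [← zpow_add_one₀ ph_ne, sub_add_cancel]
    have h2 : (1 - ph) ^ (-(n : ℤ)) = (1 - ph) ^ (-(n : ℤ) - 1) * (1 - ph) := by
      rw [← zpow_add_one₀ ph1_ne, sub_add_cancel]
    refine ext4 ?_ ?_ ?_ ?_ <;> simp only [AI, v4_0, v4_1, v4_2, v4_3, h1, h2]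
    · linear_combination (-(ph ^ (-(n : ℤ) - 1) * a)) * hp
    · linear_combination (-((1 - ph) ^ (-(n : ℤ) - 1) * b)) * hp

theorem xL_add {a b : ℝ} (h : (![a, b, 0, 0] : E) ∈ Ltc) (θ : ℝ × ℝ) (n : ℤ) :
    xL S (θ + (a, b)) n = xL S θ n + ![ph ^ n * a, (1 - ph) ^ n * b, 0, 0] := by
  symm
  refine xL_unique S (y := fun n => xL S θ n + ![ph ^ n * a, (1 - ph) ^ n * b, 0, 0])
    (fun n => ?_) (fun n => ?_) n
  · show S.G (xL S θ n + _) = _
    rw [S.G_add _ _ (lat_orb h n), xL_step]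
    congr 1
    have h1 := zpow_add_one₀ ph_ne n
    have h2 := zpow_add_one₀ ph1_ne n
    refine ext4 ?_ ?_ ?_ ?_ <;> simp only [AL, v4_0, v4_1, v4_2, v4_3, h1, h2] <;> ring
  · have h1 : xL S θ n + ![ph ^ n * a, (1 - ph) ^ n * b, 0, 0] - rL (θ + (a, b)) n
        = xL S θ n - rL θ n := by
      refine ext4 ?_ ?_ ?_ ?_ <;>
        simp only [rL, Pi.add_apply, Pi.sub_apply, v4_0, v4_1, v4_2, v4_3, Prod.fst_add,
          Prod.snd_add] <;> ring
    rw [h1]
    exact (xL_close S θ _).trans (by have := S.δ1; linarith)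

theorem hL_add {a b : ℝ} (h : (![a, b, 0, 0] : E) ∈ Ltc) (θ : ℝ × ℝ) :
    hL S (θ + (a, b)) = hL S θ + ![a, b, 0, 0] := by
  unfold hL
  rw [xL_add S h]
  simp

/-- Injectivity modulo the lattice. -/
theorem hL_inj {θ θ' : ℝ × ℝ} {l : E} (hl : l ∈ Ltc) (h : hL S θ' = hL S θ + l) :
    l = ![θ'.1 - θ.1, θ'.2 - θ.2, 0, 0] := by
  have hd := S.δ1
  have hc := hL_close S θ
  have hc' := hL_close S θ'
  have h2 := coord_le hc 2
  have h3 := coord_le hc 3
  have h2' := coord_le hc' 2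
  have h3' := coord_le hc' 3
  obtain ⟨⟨k, hk⟩, ⟨k', hk'⟩⟩ := lat23 hl
  rw [h] at h2' h3'
  simp only [v4_2, v4_3, Pi.add_apply, sub_zero, hk, hk'] at h2 h3 h2' h3'
  rw [abs_le] at h2 h3 h2' h3'
  have hk0 : k = 0 := by
    refine Int.abs_lt_one_iff.1 ?_
    have : |(k : ℝ)| < 1 := by rw [abs_lt]; constructor <;> linarith [h2.1, h2.2, h2'.1, h2'.2]
    exact_mod_cast this
  have hk0' : k' = 0 := by
    refine Int.abs_lt_one_iff.1 ?_
    have : |(k' : ℝ)| < 1 := by rw [abs_lt]; constructor <;> linarith [h3.1, h3.2, h3'.1, h3'.2]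
    exact_mod_cast this
  have hl' : l = ![l 0, l 1, 0, 0] := by
    refine ext4 rfl rfl ?_ ?_
    · rw [hk, hk0]; simp
    · rw [hk', hk0']; simp
  have hmem : (![l 0, l 1, 0, 0] : E) ∈ Ltc := hl' ▸ hl
  have h5 : hL S θ' = hL S (θ + (l 0, l 1)) := by rw [hL_add S hmem, ← hl', h]
  -- the two orbits coincide
  have h6 : ∀ n : ℤ, xL S θ' n = xL S (θ + (l 0, l 1)) n := by
    intro n
    induction n using Int.induction_on with
    | zero => exact h5
    | succ n ih => rw [← xL_step, ← xL_step, ih]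
    | pred n ih =>
      have e1 := xL_step S θ' (-(n : ℤ) - 1)
      have e2 := xL_step S (θ + (l 0, l 1)) (-(n : ℤ) - 1)
      rw [sub_add_cancel] at e1 e2
      rw [← S.HG (xL S θ' (-(n : ℤ) - 1)), e1, ih, ← e2, S.HG]
  have h7 : ∀ n : ℤ, ‖rL θ' n - rL (θ + (l 0, l 1)) n‖ ≤ 6 * S.δ := by
    intro n
    have a1 := xL_close S θ' n
    have a2 := xL_close S (θ + (l 0, l 1)) n
    rw [h6 n] at a1
    have a3 := norm_sub_le_norm_sub_add_norm_sub (rL θ' n) (xL S (θ + (l 0, l 1)) n)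
      (rL (θ + (l 0, l 1)) n)
    rw [norm_sub_rev (rL θ' n) (xL S (θ + (l 0, l 1)) n)] at a3
    linarith
  have h8 : θ'.1 - (θ.1 + l 0) = 0 := by
    by_contra hne
    have hlim : Tendsto (fun n : ℕ => ph ^ n * |θ'.1 - (θ.1 + l 0)|) atTop atTop :=
      (tendsto_pow_atTop_atTop_of_one_lt (by have := ph_gt; linarith)).atTop_mul_const
        (abs_pos.2 hne)
    obtain ⟨n, hn⟩ := (hlim.eventually_gt_atTop 1).exists
    have a1 := coord_le (h7 n) 0
    simp only [rL, v4_0, zpow_natCast, Prod.fst_add] at a1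
    rw [← mul_sub, abs_mul, abs_of_pos (pow_pos ph_pos n)] at a1
    linarith
  have h9 : θ'.2 - (θ.2 + l 1) = 0 := by
    by_contra hne
    have hinv : (1 - ph)⁻¹ = -ph := by
      rw [inv_eq_iff_eq_inv]
      symm
      rw [inv_eq_iff_eq_inv]
      symm
      refine inv_eq_of_mul_eq_one_left ?_
      linear_combination ph_sq
    have hlim : Tendsto (fun n : ℕ => ph ^ n * |θ'.2 - (θ.2 + l 1)|) atTop atTop :=
      (tendsto_pow_atTop_atTop_of_one_lt (by have := ph_gt; linarith)).atTop_mul_const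
        (abs_pos.2 hne)
    obtain ⟨n, hn⟩ := (hlim.eventually_gt_atTop 1).exists
    have a1 := coord_le (h7 (-n)) 1
    simp only [rL, v4_1, Prod.snd_add, zpow_neg, zpow_natCast] at a1
    rw [← inv_pow, hinv, ← mul_sub, abs_mul, abs_pow, abs_neg, abs_of_pos ph_pos] at a1
    linarith
  rw [hl']
  refine ext4 ?_ ?_ rfl rfl
  · simp only [v4_0]; linarith
  · simp only [v4_1]; linarith

end Lam

end Pool.Agent.W712.RC
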