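import Mathlib

set_option autoImplicit false

/-! # The circle map `ψ` -/

open Set Filter Topology MeasureTheory

namespace Pool.Agent.W712.RC

/-- The derivative of `ψ`. -/
noncomputable def w (v : ℝ) : ℝ :=
  1 / 8 + 21 / 8 * max 0 (min 1 (6 * (‖(v : UnitAddCircle)‖ - 1 / 4)))

theorem w_cont : Continuous w := by
  unfold w
  have h1 : Continuous fun v : ℝ => ‖(v : UnitAddCircle)‖ :=
    (AddCircle.continuous_mk' 1).norm
  fun_prop

theorem w_pos (v : ℝ) : 1 / 8 ≤ w v := by
  unfold w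
  have := le_max_left 0 (min 1 (6 * (‖(v : UnitAddCircle)‖ - 1 / 4)))
  linarith

theorem w_le (v : ℝ) : w v ≤ 11 / 4 := by
  unfold w
  have : max 0 (min 1 (6 * (‖(v : UnitAddCircle)‖ - 1 / 4))) ≤ 1 :=
    max_le zero_le_one (min_le_left _ _)
  linarith

theorem w_add_one (v : ℝ) : w (v + 1) = w v := by
  unfold w
  have : ((v + 1 : ℝ) : UnitAddCircle) = (v : UnitAddCircle) := by
    rw [AddCircle.coe_add_period]
  rw [this]

theorem w_neg (v : ℝ) : w (-v) = w v := by
  unfold w
  rw [AddCircle.coe_neg, norm_neg]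

theorem nrm {v : ℝ} (h : |v| ≤ 1 / 2) : ‖(v : UnitAddCircle)‖ = |v| := by
  rw [AddCircle.norm_coe_eq_abs_iff 1 one_ne_zero]
  simpa using h

theorem w_small {v : ℝ} (h : |v| ≤ 1 / 4) : w v = 1 / 8 := by
  unfold w
  rw [nrm (by linarith), max_eq_left]
  · norm_num
  · exact (min_le_right _ _).trans (by linarith)

theorem w_mid {v : ℝ} (h : 1 / 4 ≤ v) (h' : v ≤ 5 / 12) : w v = 1 / 8 + 63 / 4 * (v - 1 / 4) := by
  unfold w
  have h0 : |v| = v := abs_of_nonneg (by linarith)
  rw [nrm (by rw [h0]; linarith), h0, min_eq_right (by linarith), max_eq_right (by linarith)]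
  ring

theorem w_top' {v : ℝ} (h : 5 / 12 ≤ v) (h' : v ≤ 1 / 2) : w v = 11 / 4 := by
  unfold w
  have h0 : |v| = v := abs_of_nonneg (by linarith)
  rw [nrm (by rw [h0]; linarith), h0, min_eq_left (by linarith), max_eq_right zero_le_one]
  norm_num

theorem w_top {v : ℝ} (h : 5 / 12 ≤ v) (h' : v ≤ 7 / 12) : w v = 11 / 4 := by
  rcases le_total v (1 / 2) with h1 | h1
  · exact w_top' h h1
  · have h2 : w v = w (1 - v) := by
      have := w_neg (v - 1)
      rw [neg_sub] at this
      rw [this]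
      have := w_add_one (v - 1)
      rw [sub_add_cancel] at this
      exact this
    rw [h2]
    exact w_top' (by linarith) (by linarith)

/-- The circle map. -/
noncomputable def psi (t : ℝ) : ℝ := ∫ v in (0 : ℝ)..t, w v

theorem psi_hasDerivAt (t : ℝ) : HasDerivAt psi (w t) t :=
  (w_cont.integral_hasStrictDerivAt 0 t).hasDerivAt

theorem psi_sub (a b : ℝ) : psi b - psi a = ∫ v in a..b, w v :=
  intervalIntegral.integral_interval_sub_left (w_cont.intervalIntegrable _ _)
    (w_cont.intervalIntegrable _ _)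

theorem psi_contDiff : ContDiff ℝ 1 psi := by
  rw [contDiff_one_iff_deriv]
  refine ⟨fun t => (psi_hasDerivAt t).differentiableAt, ?_⟩
  have : deriv psi = w := funext fun t => (psi_hasDerivAt t).deriv
  rw [this]
  exact w_cont

theorem psi_zero : psi 0 = 0 := by simp [psi]

theorem psi_small {t : ℝ} (h : |t| ≤ 1 / 4) : psi t = t / 8 := by
  have h1 : psi t = ∫ v in (0 : ℝ)..t, (1 / 8 : ℝ) := by
    refine intervalIntegral.integral_congr fun v hv => w_small ?_
    rw [abs_le] at h ⊢
    rcases le_total 0 t with h0 | h0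
    · rw [uIcc_of_le h0] at hv
      exact ⟨by linarith [hv.1], by linarith [hv.2]⟩
    · rw [uIcc_of_ge h0] at hv
      exact ⟨by linarith [hv.1], by linarith [hv.2]⟩
  rw [h1, intervalIntegral.integral_const]
  simp; ring

theorem psi_mid {t : ℝ} (h : 1 / 4 ≤ t) (h' : t ≤ 5 / 12) :
    psi t = t / 8 + 63 / 8 * (t - 1 / 4) ^ 2 := by
  have h1 : ∀ v, HasDerivAt (fun v : ℝ => v / 8 + 63 / 8 * (v - 1 / 4) ^ 2)
      (1 / 8 + 63 / 4 * (v - 1 / 4)) v := by
    intro v
    have h2 := ((hasDerivAt_id v).div_const 8).add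
      ((((hasDerivAt_id v).sub_const (1 / 4)).pow 2).const_mul (63 / 8 : ℝ))
    refine h2.congr_deriv ?_
    simp; ring
  have h3 : psi t - psi (1 / 4) = ∫ v in (1 / 4 : ℝ)..t, (1 / 8 + 63 / 4 * (v - 1 / 4)) := by
    rw [psi_sub]
    refine intervalIntegral.integral_congr fun v hv => ?_
    rw [uIcc_of_le h] at hv
    exact w_mid hv.1 (hv.2.trans h')
  rw [intervalIntegral.integral_eq_sub_of_hasDerivAt (fun v _ => h1 v)
    (Continuous.intervalIntegrable (by fun_prop) _ _),
    psi_small (t := 1 / 4) (by rw [abs_le]; norm_num)] at h3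
  linarith

theorem psi_top {t : ℝ} (h : 5 / 12 ≤ t) (h' : t ≤ 7 / 12) : psi t = 11 / 4 * t - 7 / 8 := by
  have h3 : psi t - psi (5 / 12) = ∫ v in (5 / 12 : ℝ)..t, (11 / 4 : ℝ) := by
    rw [psi_sub]
    refine intervalIntegral.integral_congr fun v hv => ?_
    rw [uIcc_of_le h] at hv
    exact w_top hv.1 (hv.2.trans h')
  rw [intervalIntegral.integral_const, psi_mid (by norm_num) le_rfl, smul_eq_mul] at h3
  linarith

theorem psi_add_one (t : ℝ) : psi (t + 1) = psi t + 1 := by
  have h1 : psi (t + 1) - psi t = ∫ v in t..(t + 1), w v := psi_sub _ _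
  have hper : Function.Periodic w 1 := w_add_one
  rw [hper.intervalIntegral_add_eq t 0, zero_add,
    ← intervalIntegral.integral_add_adjacent_intervals (b := 1 / 2)
      (w_cont.intervalIntegrable _ _) (w_cont.intervalIntegrable _ _)] at h1
  have h2 : ∫ v in (1 / 2 : ℝ)..1, w v = ∫ v in (0 : ℝ)..(1 / 2), w v := by
    have h3 : ∀ v, w v = w (1 - v) := by
      intro v
      have := w_neg (v - 1)
      rw [neg_sub] at this
      rw [this]
      have := w_add_one (v - 1)
      rw [sub_add_cancel] at this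
      exact this
    calc ∫ v in (1 / 2 : ℝ)..1, w v = ∫ v in (1 / 2 : ℝ)..1, w (1 - v) :=
          intervalIntegral.integral_congr fun v _ => h3 v
      _ = ∫ v in (1 - 1 : ℝ)..(1 - 1 / 2), w v := by
          rw [intervalIntegral.integral_comp_sub_left]
      _ = _ := by norm_num
  have h4 : ∫ v in (0 : ℝ)..(1 / 2), w v = 1 / 2 := by
    have := psi_top (t := 1 / 2) (by norm_num) (by norm_num)
    unfold psi at this
    rw [this]; norm_num
  rw [h2, h4] at h1
  linarith

theorem psi_add_nat (t : ℝ) (n : ℕ) : psi (t + n) = psi t + n := by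
  induction n with
  | zero => simp
  | succ n ih =>
    push_cast
    rw [← add_assoc, psi_add_one, ih]; ring

theorem psi_add_int (t : ℝ) (k : ℤ) : psi (t + k) = psi t + k := by
  obtain ⟨n, rfl | rfl⟩ := k.eq_nat_or_neg
  · exact_mod_cast psi_add_nat t n
  · have := psi_add_nat (t + ((-(n : ℤ) : ℤ) : ℝ)) n
    push_cast at this ⊢
    rw [neg_add_cancel_right] at this
    linarith

theorem psi_strictMono : StrictMono psi :=
  strictMono_of_deriv_pos fun t => by
    rw [(psi_hasDerivAt t).deriv]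
    linarith [w_pos t]

theorem psi_cont : Continuous psi := psi_contDiff.continuous

theorem psi_surj : Function.Surjective psi := by
  intro y
  have h0 : psi (⌊y⌋ : ℝ) = ⌊y⌋ := by
    have := psi_add_int 0 ⌊y⌋
    rw [zero_add, psi_zero, zero_add] at this
    exact this
  have h1 : psi ((⌊y⌋ : ℝ) + 1) = ⌊y⌋ + 1 := by rw [psi_add_one, h0]
  have h2 := intermediate_value_Icc (a := (⌊y⌋ : ℝ)) (b := (⌊y⌋ : ℝ) + 1) (by linarith)
    psi_cont.continuousOn
  have hy : y ∈ Icc (psi (⌊y⌋ : ℝ)) (psi ((⌊y⌋ : ℝ) + 1)) := by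
    rw [h0, h1]
    exact ⟨Int.floor_le y, (Int.lt_floor_add_one y).le⟩
  obtain ⟨t, -, ht⟩ := h2 hy
  exact ⟨t, ht⟩

/-- `ψ` as a homeomorphism. -/
noncomputable def psiH : ℝ ≃ₜ ℝ :=
  (psi_strictMono.orderIsoOfSurjective psi psi_surj).toHomeomorph

theorem psiH_apply (t : ℝ) : psiH t = psi t := rfl

/-- The inverse of `ψ`. -/
noncomputable def psiI : ℝ → ℝ := psiH.symm

theorem psi_psiI (t : ℝ) : psi (psiI t) = t := psiH.apply_symm_apply t

theorem psiI_psi (t : ℝ) : psiI (psi t) = t := psiH.symm_apply_apply t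

theorem psiI_contDiff : ContDiff ℝ 1 psiI :=
  psiH.contDiff_symm_deriv (f' := w) (fun x => by linarith [w_pos x] |> ne_of_gt)
    (fun x => psi_hasDerivAt x) psi_contDiff

theorem psiI_add_int (t : ℝ) (k : ℤ) : psiI (t + k) = psiI t + k := by
  apply psi_strictMono.injective
  rw [psi_psiI, psi_add_int, psi_psiI]

end Pool.Agent.W712.RC
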