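import Pool.Agent.W712.RC.Leaf

set_option autoImplicit false

/-! # The tangency -/

open Set Filter Topology Real

namespace Pool.Agent.W712.RC

variable (S : PSys)

/-- The leaf parameter `(c, u, z)` attached to `(c, x, z)`. -/
noncomputable def par (c x z : ℝ) : ℝ × ℝ × ℝ := (c, ph * c + (ph + 2) * x, z)

/-- The signed distance of the image of the leaf point to the stable graph. -/
noncomputable def KK (c x z : ℝ) : ℝ := JJ S (S.G (xP S (par c x z) 0))

theorem KK_cont : Continuous fun q : ℝ × ℝ × ℝ => KK S q.1 q.2.1 q.2.2 := by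
  unfold KK
  refine (JJ_cont S).comp (S.hG.continuous.comp ((xP_cont S 0).comp ?_))
  unfold par
  fun_prop

theorem zbox {z : ℝ} (h : z ∈ Icc (11 / 40 : ℝ) (39 / 100)) : |z - 1 / 2| ≤ 9 / 40 := by
  rw [abs_le]; constructor <;> linarith [h.1, h.2]

/-- The point and its image. -/
theorem leaf_pt {c x z : ℝ} (hz : z ∈ Icc (11 / 40 : ℝ) (39 / 100)) :
    ∃ a : ℝ, |a - sin (2 * π * x) * tau z| ≤ 20 * S.δ ∧
      FF (xP S (par c x z) 0) 0 = ph * (ph * c + (ph + 2) * x - ph * a) ∧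
      FF (xP S (par c x z) 0) 1 = (1 - ph) * (xP S (par c x z) 0 1 - a) ∧
      FF (xP S (par c x z) 0) 2 = xP S (par c x z) 0 2 / 8 ∧
      FF (xP S (par c x z) 0) 3 = psi z ∧
      |xP S (par c x z) 0 1 - c| ≤ 3 * S.δ ∧ |xP S (par c x z) 0 2| ≤ 3 * S.δ := by
  have hd := S.δ1
  have hd0 := S.δ0
  have h1 := ph_gt
  have h2 := ph_lt
  set q := par c x z with hq
  have hu : xP S q 0 0 = ph * c + (ph + 2) * x := xP_u S q
  have hz' : xP S q 0 3 = z := xP_z S q
  have hc := xP_close S q 0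
  have c1 := coord_le hc 1
  have c2 := coord_le hc 2
  simp only [rP, v4_1, v4_2, pow_zero, one_mul, sub_zero] at c1 c2
  have hq1 : q.1 = c := rfl
  rw [hq1] at c1
  have hFF : FF (xP S q 0) = F0 (Psi (xP S q 0)) := by
    refine FF_of ?_ ?_
    · rw [hz', cz_zero (by linarith [hz.1]) (by linarith [hz.2]), mul_zero]
    · rw [sy_zero (by linarith), mul_zero]
  refine ⟨aPsi (xP S q 0), ?_, ?_, ?_, ?_, ?_, c1, c2⟩
  · unfold aPsi
    rw [hz', ← sub_mul, abs_mul, abs_of_nonneg (show 0 ≤ tau z from sT_nonneg _)]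
    have h3 : |sin (2 * π * xi2 (xP S q 0)) - sin (2 * π * x)| ≤ 20 * S.δ := by
      have h4 : |sin (2 * π * xi2 (xP S q 0)) - sin (2 * π * x)| ≤
          |2 * π * xi2 (xP S q 0) - 2 * π * x| := by
        have := Real.lipschitzWith_sin.dist_le_mul (2 * π * xi2 (xP S q 0)) (2 * π * x)
        simpa [Real.dist_eq] using this
      refine h4.trans ?_
      have h5 : xi2 (xP S q 0) - x = ph * (c - xP S q 0 1) / (ph + 2) := by
        unfold xi2
        rw [hu]
        field_simp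
        ring
      have h6 : |xi2 (xP S q 0) - x| ≤ 3 * S.δ := by
        rw [h5, abs_div, abs_mul, abs_of_pos ph_pos, abs_of_pos (by linarith : (0:ℝ) < ph + 2),
          div_le_iff₀ (by linarith), abs_sub_comm]
        nlinarith
      rw [← mul_sub, abs_mul, abs_of_pos (by positivity : 0 < 2 * π)]
      have h7 := Real.pi_lt_d2
      have h8 := Real.pi_pos
      nlinarith [abs_nonneg (xi2 (xP S q 0) - x)]
    have h9 := sT_le (50 * (cos (2 * π * (z - 1 / 3)) - 49 / 50))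
    have h10 : tau z ≤ 1 := h9
    have h11 : 0 ≤ tau z := sT_nonneg _
    have h12 := abs_nonneg (sin (2 * π * xi2 (xP S q 0)) - sin (2 * π * x))
    nlinarith
  · rw [hFF]
    show ph * (xP S q 0 0 - ph * aPsi (xP S q 0)) = _
    rw [hu]
  · rw [hFF]; rfl
  · rw [hFF]
    show psi (xP S q 0 2) = _
    exact psi_small (by linarith)
  · rw [hFF]
    show psi (xP S q 0 3) = _
    rw [hz']

/-- Approximation of `KK`. -/
theorem KK_approx {c x z : ℝ} (hz : z ∈ Icc (11 / 40 : ℝ) (39 / 100)) :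
    |KK S c x z - ph * (ph * c + (ph + 2) * x - ph * (sin (2 * π * x) * tau z))| ≤ 1 / 100 := by
  obtain ⟨a, ha, h0, -⟩ := leaf_pt S (c := c) (x := x) hz
  have hd := S.δ1
  have hd0 := S.δ0
  have h1 := ph_gt
  have h2 := ph_lt
  have hp := coord_le (y := FF (xP S (par c x z) 0)) (S.bd (xP S (par c x z) 0)) 0
  have hs := coord_le (xS_close S (S.G (xP S (par c x z) 0)) 0) 0
  simp only [rS, v4_0, sub_zero] at hs
  unfold KK JJ
  rw [h0] at hp
  set s := sin (2 * π * x) * tau z with hs'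
  have e : ph * (ph * c + (ph + 2) * x - ph * a) = ph * (ph * c + (ph + 2) * x - ph * s)
      - (ph + 1) * (a - s) := by linear_combination (s - a) * ph_sq
  have e2 : |(ph + 1) * (a - s)| ≤ 3 * (20 * S.δ) := by
    rw [abs_mul, abs_of_pos (by linarith : 0 < ph + 1)]
    have := abs_nonneg (a - s)
    nlinarith
  rw [e] at hp
  rw [abs_le] at e2 hp hs ⊢
  constructor <;> linarith [e2.1, e2.2, hp.1, hp.2, hs.1, hs.2]

/-- The image of the leaf point lies over the base region of the graph. -/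
theorem leaf_reg {c x z : ℝ} (hc : c ∈ Icc (3 / 10 : ℝ) (11 / 10)) (hx : x ∈ Icc (0 : ℝ) (1 / 2))
    (hz : z ∈ Icc (11 / 40 : ℝ) (39 / 100)) :
    |S.G (xP S (par c x z) 0) 1| ≤ 1 ∧ |S.G (xP S (par c x z) 0) 2| ≤ 23 / 100 ∧
      |S.G (xP S (par c x z) 0) 3| ≤ 23 / 100 := by
  obtain ⟨a, ha, -, e1, e2, e3, b1, b2⟩ := leaf_pt S (c := c) (x := x) hz
  have hd := S.δ1
  have hd0 := S.δ0
  have h1 := ph_gt
  have h2 := ph_lt
  have p1 := coord_le (y := FF (xP S (par c x z) 0)) (S.bd (xP S (par c x z) 0)) 1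
  have p2 := coord_le (y := FF (xP S (par c x z) 0)) (S.bd (xP S (par c x z) 0)) 2
  have p3 := coord_le (y := FF (xP S (par c x z) 0)) (S.bd (xP S (par c x z) 0)) 3
  rw [e1] at p1
  rw [e2] at p2
  rw [e3] at p3
  have hpi := Real.pi_pos
  have hs0 : 0 ≤ sin (2 * π * x) := Real.sin_nonneg_of_nonneg_of_le_pi
    (by have := hx.1; positivity) (by nlinarith [hx.2])
  have hs1 : sin (2 * π * x) ≤ 1 := Real.sin_le_one _
  have t0 : 0 ≤ tau z := sT_nonneg _
  have t1 : tau z ≤ 1 := sT_le _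
  have st0 : 0 ≤ sin (2 * π * x) * tau z := mul_nonneg hs0 t0
  have st1 : sin (2 * π * x) * tau z ≤ 1 := by nlinarith
  have hc1 := hc.1
  have hc2 := hc.2
  have hz1 := hz.1
  have hz2 := hz.2
  have hpz : 0 ≤ psi z ∧ psi z ≤ 22 / 100 := by
    rw [psi_mid (by linarith) (by linarith)]
    constructor
    · positivity
    · nlinarith
  rw [abs_le] at ha p1 p2 p3 b1 b2
  have m1 : |(1 - ph) * (xP S (par c x z) 0 1 - a)| ≤ 9 / 10 := by
    rw [abs_mul, abs_of_neg (by linarith : 1 - ph < 0)]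
    have : |xP S (par c x z) 0 1 - a| ≤ 12 / 10 := by
      rw [abs_le]; constructor <;> linarith [ha.1, ha.2, b1.1, b1.2]
    have h0 := abs_nonneg (xP S (par c x z) 0 1 - a)
    nlinarith
  rw [abs_le] at m1
  refine ⟨?_, ?_, ?_⟩
  · rw [abs_le]; constructor <;> linarith [p1.1, p1.2, m1.1, m1.2]
  · rw [abs_le]; constructor <;> linarith [p2.1, p2.2, b2.1, b2.2]
  · rw [abs_le]; constructor <;> linarith [p3.1, p3.2, hpz.1, hpz.2]

theorem leaf_Reg {c x z : ℝ} (hc : c ∈ Icc (3 / 10 : ℝ) (11 / 10)) (hx : x ∈ Icc (0 : ℝ) (1 / 2))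
    (hz : z ∈ Icc (11 / 40 : ℝ) (39 / 100)) : Reg (S.G (xP S (par c x z) 0)) := by
  obtain ⟨h1, h2, h3⟩ := leaf_reg S hc hx hz
  exact ⟨by linarith, by linarith, by linarith⟩

theorem tau_third : tau (1 / 3) = 1 := by
  refine sT_one ?_
  simp; norm_num

/-- The maximal zero. -/
theorem exists_max : ∃ c x z : ℝ, c ∈ Icc (3 / 10 : ℝ) (11 / 10) ∧ x ∈ Ioo (0 : ℝ) (1 / 2) ∧
    z ∈ Ioo (11 / 40 : ℝ) (39 / 100) ∧ KK S c x z = 0 ∧
    ∀ x' ∈ Icc (0 : ℝ) (1 / 2), ∀ z' ∈ Icc (11 / 40 : ℝ) (39 / 100), 0 ≤ KK S c x' z' := by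
  have h1 := ph_gt
  have h2 := ph_lt
  have hp := ph_sq
  have hK := KK_cont S
  set Bx : Set (ℝ × ℝ × ℝ) := Icc (3 / 10 : ℝ) (11 / 10) ×ˢ Icc (0 : ℝ) (1 / 2) ×ˢ
    Icc (11 / 40 : ℝ) (39 / 100) with hBx
  set Z : Set (ℝ × ℝ × ℝ) := Bx ∩ {q | KK S q.1 q.2.1 q.2.2 = 0} with hZ
  have hZc : IsCompact Z := (isCompact_Icc.prod (isCompact_Icc.prod isCompact_Icc)).inter_right
    (isClosed_eq hK continuous_const)
  -- positivity on the faces
  have pos0 : ∀ c z : ℝ, 3 / 10 ≤ c → z ∈ Icc (11 / 40 : ℝ) (39 / 100) → 0 < KK S c 0 z := by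
    intro c z hc hz
    have := KK_approx S (c := c) (x := 0) hz
    simp only [mul_zero, Real.sin_zero, zero_mul, add_zero, sub_zero] at this
    rw [abs_le] at this
    nlinarith [this.1]
  have posz : ∀ c x z : ℝ, 3 / 10 ≤ c → 0 ≤ x → z ∈ Icc (11 / 40 : ℝ) (39 / 100) → tau z = 0 →
      0 < KK S c x z := by
    intro c x z hc hx hz ht
    have := KK_approx S (c := c) (x := x) hz
    rw [ht] at this
    simp only [mul_zero, sub_zero] at this
    rw [abs_le] at this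
    have h3 : 0 ≤ ph * ((ph + 2) * x) := by positivity
    nlinarith [this.1]
  have posc : ∀ x z : ℝ, x ∈ Icc (0 : ℝ) (1 / 2) → z ∈ Icc (11 / 40 : ℝ) (39 / 100) →
      0 < KK S (11 / 10) x z := by
    intro x z hx hz
    have := KK_approx S (c := 11 / 10) (x := x) hz
    rw [abs_le] at this
    have hs1 : sin (2 * π * x) ≤ 1 := Real.sin_le_one _
    have t0 : 0 ≤ tau z := sT_nonneg _
    have t1 : tau z ≤ 1 := sT_le _
    have st1 : sin (2 * π * x) * tau z ≤ 1 := by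
      by_cases hs : 0 ≤ sin (2 * π * x)
      · nlinarith
      · nlinarith
    have h3 : 0 ≤ ph * ((ph + 2) * x) := by have := hx.1; positivity
    have h4 : ph * (ph * (sin (2 * π * x) * tau z)) ≤ ph * (ph * 1) := by gcongr
    nlinarith [this.1]
  have posh : ∀ c z : ℝ, 3 / 10 ≤ c → z ∈ Icc (11 / 40 : ℝ) (39 / 100) →
      0 < KK S c (1 / 2) z := by
    intro c z hc hz
    have := KK_approx S (c := c) (x := 1 / 2) hz
    rw [show 2 * π * (1 / 2) = π by ring, Real.sin_pi, zero_mul, mul_zero, sub_zero] at this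
    rw [abs_le] at this
    nlinarith [this.1]
  have hneg : KK S (3 / 10) (1 / 4) (1 / 3) < 0 := by
    have := KK_approx S (c := 3 / 10) (x := 1 / 4) (z := 1 / 3) (by norm_num)
    rw [show 2 * π * (1 / 4) = π / 2 by ring, Real.sin_pi_div_two, tau_third] at this
    rw [abs_le] at this
    nlinarith [this.2]
  have hne : Z.Nonempty := by
    have hcont : ContinuousOn (fun x => KK S (3 / 10) x (1 / 3)) (Icc 0 (1 / 4)) :=
      (hK.comp (by fun_prop : Continuous fun x : ℝ => ((3 / 10 : ℝ), x, (1 / 3 : ℝ)))).continuousOn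
    have := intermediate_value_Icc' (by norm_num) hcont
    obtain ⟨x, hx, hx0⟩ := this ⟨hneg.le, (pos0 (3 / 10) (1 / 3) le_rfl (by norm_num)).le⟩
    exact ⟨(3 / 10, x, 1 / 3), ⟨⟨by norm_num, ⟨hx.1, hx.2.trans (by norm_num)⟩, by norm_num⟩, hx0⟩⟩
  obtain ⟨⟨c, x, z⟩, ⟨⟨hc, hx, hz⟩, h0⟩, hmax⟩ := hZc.exists_isMaxOn hne continuous_fst.continuousOn
  simp only at hc hx hz
  change KK S c x z = 0 at h0
  have hc' : c < 11 / 10 := by
    rcases hc.2.lt_or_eq with h | h
    · exact h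
    · rw [h] at h0
      exact absurd h0 (posc x z hx hz).ne'
  have hno : ∀ c' ∈ Ioc c (11 / 10), ∀ x' ∈ Icc (0 : ℝ) (1 / 2),
      ∀ z' ∈ Icc (11 / 40 : ℝ) (39 / 100), 0 < KK S c' x' z' := by
    intro c' hc' x' hx' z' hz'
    by_contra hcon
    rw [not_lt] at hcon
    have hc3 : 3 / 10 ≤ c' := hc.1.trans hc'.1.le
    have hcont : ContinuousOn (fun x => KK S c' x z') (Icc 0 x') :=
      (hK.comp (by fun_prop : Continuous fun x : ℝ => (c', x, z'))).continuousOn
    have := intermediate_value_Icc' hx'.1 hcont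
    obtain ⟨y, hy, hy0⟩ := this ⟨hcon, (pos0 c' z' hc3 hz').le⟩
    have hmem : (c', y, z') ∈ Z := ⟨⟨⟨hc3, hc'.2⟩, ⟨hy.1, hy.2.trans hx'.2⟩, hz'⟩, hy0⟩
    have : c' ≤ c := hmax hmem
    exact absurd hc'.1 (not_lt.2 this)
  refine ⟨c, x, z, hc, ⟨?_, ?_⟩, ⟨?_, ?_⟩, h0, ?_⟩
  · rcases hx.1.lt_or_eq with h | h
    · exact h
    · rw [← h] at h0
      exact absurd h0 (pos0 c z hc.1 hz).ne'
  · rcases hx.2.lt_or_eq with h | h
    · exact h
    · rw [h] at h0
      exact absurd h0 (posh c z hc.1 hz).ne'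
  · rcases hz.1.lt_or_eq with h | h
    · exact h
    · rw [← h] at h0
      refine absurd h0 (posz c x _ hc.1 hx.1 (by norm_num) ?_).ne'
      exact tau_zero (by norm_num) (by norm_num)
  · rcases hz.2.lt_or_eq with h | h
    · exact h
    · rw [h] at h0
      refine absurd h0 (posz c x _ hc.1 hx.1 (by norm_num) ?_).ne'
      exact tau_zero' (by norm_num) (by norm_num)
  · intro x' hx' z' hz'
    have hcont : Continuous (fun c => KK S c x' z') :=
      hK.comp (by fun_prop : Continuous fun c : ℝ => (c, x', z'))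
    have hlim : Tendsto (fun c => KK S c x' z') (𝓝[>] c) (𝓝 (KK S c x' z')) :=
      (hcont.tendsto c).mono_left nhdsWithin_le_nhds
    refine ge_of_tendsto hlim ?_
    have : Ioc c (11 / 10) ∈ 𝓝[>] c := Ioc_mem_nhdsGT hc'
    filter_upwards [this] with c' hc'
    exact (hno c' hc' x' hx' z' hz').le

end Pool.Agent.W712.RC
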