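import Pool.Agent.W712.RC.Tan

set_option autoImplicit false

/-! # The tangency: the unstable plane is contained in the stable hyperplane -/

open Set Filter Topology Real

namespace Pool.Agent.W712.RC

variable (S : PSys)

/-- Difference of two backward orbits on the same leaf. -/
theorem leaf_diff {c u z u' z' d : ℝ} (h : |z - 1 / 2| ≤ 9 / 40) (h' : |z' - 1 / 2| ≤ 9 / 40)
    (hu : |u - u'| ≤ d) (hz : |z - z'| ≤ d) (n : ℕ) :
    ‖xP S (c, u, z) n - xP S (c, u', z') n‖ ≤ (2 / 3) ^ n * d := by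
  have hd0 : 0 ≤ d := (abs_nonneg _).trans hu
  have hδ := S.δ1
  have h1 := ph_gt
  have h2 := ph_lt
  have hD : ∀ n, ‖xP S (c, u, z) n - xP S (c, u', z') n‖ ≤ 6 * S.δ + d := by
    intro n
    have a1 := xP_close S (c, u, z) n
    have a2 := xP_close S (c, u', z') n
    have a3 : ‖rP (c, u, z) n - rP (c, u', z') n‖ ≤ d := by
      rw [pi_norm_le_iff_of_nonneg hd0]
      intro i
      fin_cases i
      · show |(ph - 1) ^ n * u - (ph - 1) ^ n * u'| ≤ d
        rw [← mul_sub, abs_mul, abs_pow]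
        have : |ph - 1| ^ n ≤ 1 := pow_le_one₀ (abs_nonneg _) (by
          rw [abs_of_pos (by linarith)]; linarith)
        have := abs_nonneg (u - u')
        nlinarith
      · show |(-ph) ^ n * c - (-ph) ^ n * c| ≤ d
        rw [sub_self, abs_zero]; exact hd0
      · show |(0 : ℝ) - 0| ≤ d
        rw [sub_self, abs_zero]; exact hd0
      · show |(1 / 2 + (4 / 11) ^ n * (z - 1 / 2)) - (1 / 2 + (4 / 11) ^ n * (z' - 1 / 2))| ≤ d
        rw [add_sub_add_left_eq_sub, ← mul_sub, sub_sub_sub_cancel_right, abs_mul,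
          abs_of_pos (by positivity : (0 : ℝ) < (4 / 11) ^ n)]
        have : (4 / 11 : ℝ) ^ n ≤ 1 := pow_le_one₀ (by norm_num) (by norm_num)
        have := abs_nonneg (z - z')
        nlinarith
    calc ‖xP S (c, u, z) n - xP S (c, u', z') n‖ = ‖(xP S (c, u, z) n - rP (c, u, z) n) +
          (rP (c, u, z) n - rP (c, u', z') n) + (rP (c, u', z') n - xP S (c, u', z') n)‖ := by
          congr 1; abel
      _ ≤ _ := norm_add₃_le
      _ ≤ 3 * S.δ + d + 3 * S.δ := by
          rw [norm_sub_rev (rP (c, u', z') n)]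
          gcongr
      _ = _ := by ring
  have key := Sys.bwd_dist (S := S.toSys) (Z := ZL) (xP_zone S h) (xP_zone S h') (xP_step S h)
    (xP_step S h') hD n
  have key2 := Sys.bwd_ctrl (S := S.toSys) (Z := ZL) (xP_zone S h) (xP_zone S h') (xP_step S h)
    (xP_step S h') hD hd0 (fun i hi => by
      fin_cases i
      · show |xP S (c, u, z) 0 0 - xP S (c, u', z') 0 0| ≤ d
        rw [xP_u, xP_u]; exact hu
      · simp [ZL, eL] at hi
      · simp [ZL, eL] at hi
      · show |xP S (c, u, z) 0 3 - xP S (c, u', z') 0 3| ≤ d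
        rw [xP_z, xP_z]; exact hz) 0
  exact key.trans (mul_le_mul_of_nonneg_left key2 (by positivity))

/-- The leaf in the direction `v`. -/
noncomputable def qq (c u z : ℝ) (v : E) (t : ℝ) : E := xP S (c, u + t * v 0, z + t * v 3) 0

theorem xP_zone' {c u z : ℝ} (hz : |z - 1 / 2| ≤ 9 / 40) (n : ℕ) :
    S.H^[n + 1] (xP S (c, u, z) 0) ∈ ZL.O := by
  rw [xP_iter S hz]
  exact xP_zone S hz n

/-- The secants converge. -/
theorem secant {c u z : ℝ} (hz : |z - 1 / 2| < 9 / 40) {v : E}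
    (hv : v ∈ Stab S.H (xP S (c, u, z) 0)) :
    Tendsto (fun t : ℝ => t⁻¹ • (qq S c u z v t - xP S (c, u, z) 0)) (𝓝[≠] 0) (𝓝 v) := by
  have hzc : ∀ᶠ t : ℝ in 𝓝 0, |z + t * v 3 - 1 / 2| < 9 / 40 := by
    have : Continuous fun t : ℝ => |z + t * v 3 - 1 / 2| := by fun_prop
    have h0 := this.tendsto 0
    simp only [zero_mul, add_zero] at h0
    exact h0.eventually (gt_mem_nhds hz)
  refine tendsto_of_subseq_tendsto fun ts hts => ?_
  have hts0 : Tendsto ts atTop (𝓝 0) := hts.mono_right nhdsWithin_le_nhds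
  have htne : ∀ᶠ k in atTop, ts k ≠ 0 := hts.eventually self_mem_nhdsWithin
  obtain ⟨N, hN⟩ := (htne.and (hts0.eventually hzc)).exists_forall_of_atTop
  have hdiff : ∀ k n : ℕ, ‖xP S (c, u + ts (N + k) * v 0, z + ts (N + k) * v 3) n -
      xP S (c, u, z) n‖ ≤ (2 / 3) ^ n * (|ts (N + k)| * ‖v‖) := by
    intro k n
    refine leaf_diff S (hN (N + k) (by omega)).2.le hz.le ?_ ?_ n
    · rw [add_sub_cancel_left, abs_mul]
      exact mul_le_mul_of_nonneg_left (norm_le_pi_norm v 0) (abs_nonneg _)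
    · rw [add_sub_cancel_left, abs_mul]
      exact mul_le_mul_of_nonneg_left (norm_le_pi_norm v 3) (abs_nonneg _)
  set P := xP S (c, u, z) 0 with hP
  set wk : ℕ → E := fun k => (ts (N + k))⁻¹ • (qq S c u z v (ts (N + k)) - P) with hwk
  have hwb : ∀ k, ‖wk k‖ ≤ ‖v‖ := by
    intro k
    have h1 := hdiff k 0
    rw [pow_zero, one_mul] at h1
    have h2 : 0 < |ts (N + k)| := abs_pos.2 (hN (N + k) (by omega)).1
    rw [hwk]
    simp only [norm_smul, norm_inv, Real.norm_eq_abs]
    rw [inv_mul_le_iff₀ h2]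
    exact h1
  obtain ⟨w, -, σ, hσ, hw⟩ := tendsto_subseq_of_bounded (Metric.isBounded_closedBall (x := (0 : E))
    (r := ‖v‖)) (x := wk) (fun k => by simpa using hwb k)
  have hσt : Tendsto (fun k => ts (N + σ k)) atTop (𝓝 0) :=
    hts0.comp ((tendsto_add_atTop_nat N).congr (fun k => by rw [add_comm]) |>.comp hσ.tendsto_atTop)
  -- the limit belongs to the unstable space
  have hPz : ∀ n : ℕ, S.H^[n + 1] P ∈ ZL.O := xP_zone' S hz.le
  have hdn : ∀ n : ℕ, ‖fderiv ℝ (S.H^[n]) P w‖ ≤ ‖v‖ := by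
    intro n
    have hder : HasFDerivWithinAt (S.H^[n]) (fderiv ℝ (S.H^[n]) P) univ P :=
      (((iter_contDiff S.hH n).differentiable one_ne_zero) P).hasFDerivAt.hasFDerivWithinAt
    have hdlim : Tendsto (fun k => qq S c u z v (ts (N + σ k)) - P) atTop (𝓝 0) := by
      have hb : ∀ k, ‖qq S c u z v (ts (N + σ k)) - P‖ ≤ |ts (N + σ k)| * ‖v‖ := by
        intro k
        have h1 := hdiff (σ k) 0
        rwa [pow_zero, one_mul] at h1
      refine squeeze_zero_norm hb ?_
      have := (hσt.abs).mul_const ‖v‖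
      simpa using this
    have hlim := hder.lim hdlim (Eventually.of_forall fun _ => mem_univ _)
      (c := fun k => (ts (N + σ k))⁻¹) hw
    refine le_of_tendsto hlim.norm (Eventually.of_forall fun k => ?_)
    have h1 := hdiff (σ k) n
    have h2 : 0 < |ts (N + σ k)| := abs_pos.2 (hN (N + σ k) (by omega)).1
    have h3 : P + (qq S c u z v (ts (N + σ k)) - P) = qq S c u z v (ts (N + σ k)) := by abel
    rw [h3, norm_smul, norm_inv, Real.norm_eq_abs, inv_mul_le_iff₀ h2]
    unfold qq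
    rw [xP_iter S (hN (N + σ k) (by omega)).2.le, hP, xP_iter S hz.le]
    refine h1.trans ?_
    have h4 : (2 / 3 : ℝ) ^ n ≤ 1 := pow_le_one₀ (by norm_num) (by norm_num)
    have h5 : 0 ≤ |ts (N + σ k)| * ‖v‖ := by positivity
    nlinarith
  have hwmem : w ∈ Stab S.H P := Sys.mem_bstab_of_bdd (S := S.toSys) (Z := ZL) hPz hdn
  have hcoord : ∀ i, ZL.e i = true → w i = v i := by
    intro i hi
    have hwi : Tendsto (fun k => wk (σ k) i) atTop (𝓝 (w i)) :=
      ((continuous_apply i).tendsto w).comp hw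
    have hconst : ∀ k, wk (σ k) i = v i := by
      intro k
      have h2 : ts (N + σ k) ≠ 0 := (hN (N + σ k) (by omega)).1
      fin_cases i
      · show (ts (N + σ k))⁻¹ * (xP S (c, u + ts (N + σ k) * v 0, z + ts (N + σ k) * v 3) 0 0 -
          xP S (c, u, z) 0 0) = v 0
        rw [xP_u, xP_u]
        field_simp
        ring
      · simp [ZL, eL] at hi
      · simp [ZL, eL] at hi
      · show (ts (N + σ k))⁻¹ * (xP S (c, u + ts (N + σ k) * v 0, z + ts (N + σ k) * v 3) 0 3 -
          xP S (c, u, z) 0 3) = v 3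
        rw [xP_z, xP_z]
        field_simp
        ring
    rw [tendsto_congr hconst] at hwi
    exact (tendsto_nhds_unique hwi tendsto_const_nhds)
  have hwv : w = v := by
    have := Sys.bstab_unique (S := S.toSys) (Z := ZL) hPz (Submodule.sub_mem _ hwmem hv)
      (fun i hi => by rw [Pi.sub_apply, hcoord i hi, sub_self])
    exact sub_eq_zero.1 this
  rw [hwv] at hw
  exact ⟨fun k => N + σ k, hw⟩

/-- A vector with forward orbit staying in the stable cone is stable. -/
theorem cone_stab {P : E} (hz : ∀ n : ℕ, S.G^[n + 1] P ∈ ZG.O) {v : E}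
    (hc : ∀ n : ℕ, |fderiv ℝ (S.G^[n + 1]) P v 0| ≤ 2 / 3 * ‖fderiv ℝ (S.G^[n + 1]) P v‖) :
    v ∈ Stab S.G P := by
  have hdec : ∀ n : ℕ, ‖fderiv ℝ (S.G^[n + 2]) P v‖ ≤ 2 / 3 * ‖fderiv ℝ (S.G^[n + 1]) P v‖ := by
    intro n
    set a := fderiv ℝ (S.G^[n + 1]) P v with ha
    set b := fderiv ℝ (S.G^[n + 2]) P v with hb
    have hab : b = fderiv ℝ S.G (S.G^[n + 1] P) a := fderiv_iter S.hG (n + 1) P v
    have hlin := Sys.norm_lin (S := S.toSys) (Z := ZG) (hz n) a
    rw [← hab] at hlin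
    have hb0 : |b 0| ≤ 2 / 3 * ‖b‖ := hc (n + 1)
    have hna := norm_nonneg a
    have hnb := norm_nonneg b
    have hi : ∀ i, eG i = false → |b i| ≤ 2 / 3 * ‖a‖ := by
      intro i hi
      have h1 := ZG.hcon i hi
      have h2 : |b i - ZG.m i * a i| ≤ 1 / 10000 * ‖a‖ :=
        (norm_le_pi_norm (b - (fun i => ZG.m i * a i : E)) i).trans hlin
      have h3 : |b i| ≤ |b i - ZG.m i * a i| + |ZG.m i * a i| := by
        have := abs_add_le (b i - ZG.m i * a i) (ZG.m i * a i)
        rwa [sub_add_cancel] at this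
      rw [abs_mul] at h3
      have h4 := mul_le_mul_of_nonneg_left (norm_le_pi_norm a i) (abs_nonneg (ZG.m i))
      rw [Real.norm_eq_abs] at h4
      have h5 := mul_le_mul_of_nonneg_right h1 hna
      linarith
    have h6 : ‖b‖ ≤ max (2 / 3 * ‖b‖) (2 / 3 * ‖a‖) := by
      rw [pi_norm_le_iff_of_nonneg (le_max_of_le_left (by positivity))]
      intro i
      fin_cases i
      · exact hb0.trans (le_max_left _ _)
      · exact (hi 1 rfl).trans (le_max_right _ _)
      · exact (hi 2 rfl).trans (le_max_right _ _)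
      · exact (hi 3 rfl).trans (le_max_right _ _)
    rcases le_max_iff.1 h6 with h7 | h7
    · have : ‖b‖ = 0 := by linarith
      rw [this]; positivity
    · exact h7
  have hpow : ∀ n : ℕ, ‖fderiv ℝ (S.G^[n + 1]) P v‖ ≤ (2 / 3) ^ n * ‖fderiv ℝ (S.G^[1]) P v‖ := by
    intro n
    induction n with
    | zero => simp
    | succ n ih =>
      refine (hdec n).trans ?_
      rw [pow_succ']
      calc _ ≤ 2 / 3 * ((2 / 3) ^ n * ‖fderiv ℝ (S.G^[1]) P v‖) :=
            mul_le_mul_of_nonneg_left ih (by norm_num)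
        _ = _ := by ring
  rw [mem_stab, ← tendsto_add_atTop_iff_nat 1]
  refine squeeze_zero_norm hpow ?_
  have := (tendsto_pow_atTop_nhds_zero_of_lt_one (r := (2 / 3 : ℝ)) (by norm_num)
    (by norm_num)).mul_const ‖fderiv ℝ (S.G^[1]) P v‖
  simpa using this

/-- The open tube. -/
def Tube : Set E := {x | x ∈ ZG.O ∧ |x 1| < 11 / 10 ∧ |x 2| < 24 / 100 ∧ |x 3| < 24 / 100}

theorem Tube_open : IsOpen Tube :=
  ZG.hO.inter ((isOpen_lt (continuous_abs.comp (continuous_apply 1)) continuous_const).inter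
    ((isOpen_lt (continuous_abs.comp (continuous_apply 2)) continuous_const).inter
      (isOpen_lt (continuous_abs.comp (continuous_apply 3)) continuous_const)))

theorem Tube_reg {x : E} (h : x ∈ Tube) : Reg x := ⟨h.2.1.le, h.2.2.1.le, h.2.2.2.le⟩

theorem xS_tube {x : E} (h1 : |x 1| ≤ 1) (h2 : |x 2| ≤ 23 / 100) (h3 : |x 3| ≤ 23 / 100) (n : ℕ) :
    xS S x n ∈ Tube := by
  have hreg : Reg x := ⟨by linarith, by linarith, by linarith⟩
  have hd := S.δ1
  have g1 := ph_gt
  have g2 := ph_lt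
  refine ⟨xS_zone S hreg n, ?_⟩
  have hc := xS_close S x n
  have c1 := coord_le hc 1
  have c2 := coord_le hc 2
  have c3 := coord_le hc 3
  simp only [rS, v4_1, v4_2, v4_3] at c1 c2 c3
  have p1 : |(1 - ph) ^ n * x 1| ≤ 1 := by
    rw [abs_mul, abs_pow]
    have : |1 - ph| ^ n ≤ 1 := pow_le_one₀ (abs_nonneg _) (by
      rw [abs_of_neg (by linarith)]; linarith)
    have h3 := abs_nonneg (x 1)
    nlinarith
  have p8 : (1 / 8 : ℝ) ^ n ≤ 1 := pow_le_one₀ (by norm_num) (by norm_num)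
  have p2 : |(1 / 8) ^ n * x 2| ≤ 23 / 100 := by
    rw [abs_mul, abs_of_pos (by positivity : (0 : ℝ) < (1 / 8) ^ n)]
    have h3 := abs_nonneg (x 2)
    nlinarith
  have p3 : |(1 / 8) ^ n * x 3| ≤ 23 / 100 := by
    rw [abs_mul, abs_of_pos (by positivity : (0 : ℝ) < (1 / 8) ^ n)]
    have h3 := abs_nonneg (x 3)
    nlinarith
  rw [abs_le] at c1 c2 c3 p1 p2 p3
  refine ⟨?_, ?_, ?_⟩
  · rw [abs_lt]; constructor <;> linarith [c1.1, c1.2, p1.1, p1.2]
  · rw [abs_lt]; constructor <;> linarith [c2.1, c2.2, p2.1, p2.2]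
  · rw [abs_lt]; constructor <;> linarith [c3.1, c3.2, p3.1, p3.2]

/-- The tangency point. -/
theorem tangency : ∃ c u z : ℝ, |z - 1 / 2| ≤ 9 / 40 ∧
    Reg (S.G (xP S (c, u, z) 0)) ∧
    S.G (xP S (c, u, z) 0) = xS S (S.G (xP S (c, u, z) 0)) 0 ∧
    Stab S.H (xP S (c, u, z) 0) ≤ Stab S.G (xP S (c, u, z) 0) := by
  obtain ⟨c, x, z, hc, hx, hz, h0, hpos⟩ := exists_max S
  have hz' : |z - 1 / 2| < 9 / 40 := by
    rw [abs_lt]; constructor <;> linarith [hz.1, hz.2]
  have hxI : x ∈ Icc (0 : ℝ) (1 / 2) := ⟨hx.1.le, hx.2.le⟩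
  have hzI : z ∈ Icc (11 / 40 : ℝ) (39 / 100) := ⟨hz.1.le, hz.2.le⟩
  set u := ph * c + (ph + 2) * x with hu
  set P := xP S (c, u, z) 0 with hP
  have hregP : Reg (S.G P) := leaf_Reg S hc hxI hzI
  have hGP : S.G P = xS S (S.G P) 0 := by
    have h1 := xS_sub S (S.G P)
    have h2 : JJ S (S.G P) = 0 := h0
    rw [h2] at h1
    have h3 : (![0, 0, 0, 0] : E) = 0 := by
      refine ext4 ?_ ?_ ?_ ?_ <;> rfl
    rw [h3] at h1
    exact sub_eq_zero.1 h1
  refine ⟨c, u, z, hz'.le, hregP, hGP, ?_⟩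
  intro v hv
  by_contra hnot
  -- the forward orbit of `P` stays in the tube
  have htube : ∀ n : ℕ, S.G^[n + 1] P = xS S (S.G P) n := by
    intro n
    have h := xS_iter S hregP n
    rw [← hGP] at h
    rw [Function.iterate_succ_apply]
    exact h
  obtain ⟨r1, r2, r3⟩ := leaf_reg S hc hxI hzI
  have hT : ∀ n : ℕ, S.G^[n + 1] P ∈ Tube := by
    intro n
    rw [htube n]
    exact xS_tube S r1 r2 r3 n
  -- a time at which the image of `v` is outside the stable cone
  have hex : ∃ n : ℕ, 2 / 3 * ‖fderiv ℝ (S.G^[n + 1]) P v‖ < |fderiv ℝ (S.G^[n + 1]) P v 0| := by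
    by_contra hcon
    push Not at hcon
    exact hnot (cone_stab S (fun n => (hT n).1) hcon)
  obtain ⟨n, hn⟩ := hex
  set w := fderiv ℝ (S.G^[n + 1]) P v with hw
  -- the leaf in the direction `v`
  have hqc : Continuous (qq S c u z v) := (xP_cont S 0).comp (by fun_prop)
  have hq0 : qq S c u z v 0 = P := by simp [qq, hP]
  -- nonnegativity along the leaf
  have hnn : ∀ j : ℕ, ∀ᶠ t : ℝ in 𝓝 0, 0 ≤ JJ S (S.G^[j + 1] (qq S c u z v t)) := by
    intro j
    induction j with
    | zero =>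
      have hg1 := ph_gt
      have e1 : ∀ᶠ t : ℝ in 𝓝 0, x + t * v 0 / (ph + 2) ∈ Ioo (0 : ℝ) (1 / 2) := by
        have : Continuous fun t : ℝ => x + t * v 0 / (ph + 2) := by fun_prop
        have h0 := this.tendsto 0
        simp only [zero_mul, zero_div, add_zero] at h0
        exact h0.eventually (isOpen_Ioo.mem_nhds hx)
      have e2 : ∀ᶠ t : ℝ in 𝓝 0, z + t * v 3 ∈ Ioo (11 / 40 : ℝ) (39 / 100) := by
        have : Continuous fun t : ℝ => z + t * v 3 := by fun_prop
        have h0 := this.tendsto 0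
        simp only [zero_mul, add_zero] at h0
        exact h0.eventually (isOpen_Ioo.mem_nhds hz)
      filter_upwards [e1, e2] with t h1 h2
      have := hpos _ ⟨h1.1.le, h1.2.le⟩ _ ⟨h2.1.le, h2.2.le⟩
      unfold KK par at this
      have e : ph * c + (ph + 2) * (x + t * v 0 / (ph + 2)) = u + t * v 0 := by
        have : ph + 2 ≠ 0 := by linarith
        rw [hu]
        field_simp
        ring
      rw [e] at this
      exact this
    | succ j ih =>
      have c1 : ∀ᶠ t : ℝ in 𝓝 0, S.G^[j + 1] (qq S c u z v t) ∈ Tube := by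
        have : Continuous fun t : ℝ => S.G^[j + 1] (qq S c u z v t) :=
          (iter_contDiff S.hG _).continuous.comp hqc
        have h0 := this.tendsto 0
        rw [hq0] at h0
        exact h0.eventually (Tube_open.mem_nhds (hT j))
      have c2 : ∀ᶠ t : ℝ in 𝓝 0, S.G^[j + 1 + 1] (qq S c u z v t) ∈ Tube := by
        have : Continuous fun t : ℝ => S.G^[j + 1 + 1] (qq S c u z v t) :=
          (iter_contDiff S.hG _).continuous.comp hqc
        have h0 := this.tendsto 0
        rw [hq0] at h0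
        exact h0.eventually (Tube_open.mem_nhds (hT (j + 1)))
      filter_upwards [ih, c1, c2] with t h1 h2 h3
      rw [Function.iterate_succ_apply'] at h3 ⊢
      have := JJ_side S (Tube_reg h2) h2.1 (Tube_reg h3)
      rw [abs_of_nonneg h1, abs_le] at this
      have hg := ph_gt
      nlinarith [this.1]
  -- the derivative along the leaf
  have hder : Tendsto (fun t : ℝ => t⁻¹ • (S.G^[n + 1] (qq S c u z v t) - S.G^[n + 1] P)) (𝓝[≠] 0)
      (𝓝 w) := by
    have hd : HasFDerivWithinAt (S.G^[n + 1]) (fderiv ℝ (S.G^[n + 1]) P) univ P :=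
      (((iter_contDiff S.hG _).differentiable one_ne_zero) P).hasFDerivAt.hasFDerivWithinAt
    have hlim0 : Tendsto (fun t : ℝ => qq S c u z v t - P) (𝓝[≠] 0) (𝓝 0) := by
      have h0 := (hqc.tendsto 0).sub_const P
      rw [hq0, sub_self] at h0
      exact h0.mono_left nhdsWithin_le_nhds
    have := hd.lim hlim0 (Eventually.of_forall fun _ => mem_univ _) (c := fun t => t⁻¹)
      (secant S hz' hv)
    refine this.congr fun t => ?_
    rw [add_sub_cancel]
  set gap := |w 0| - 2 / 3 * ‖w‖ with hgap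
  have hgap0 : 0 < gap := by rw [hgap]; linarith
  -- close to the limit
  have hclose : ∀ᶠ t : ℝ in 𝓝[≠] 0,
      ‖t⁻¹ • (S.G^[n + 1] (qq S c u z v t) - S.G^[n + 1] P) - w‖ < gap / 4 := by
    have := hder.sub_const w
    rw [sub_self] at this
    have h1 := this.norm
    rw [norm_zero] at h1
    exact h1.eventually (gt_mem_nhds (by positivity))
  have htb : ∀ᶠ t : ℝ in 𝓝 0, S.G^[n + 1] (qq S c u z v t) ∈ Tube := by
    have : Continuous fun t : ℝ => S.G^[n + 1] (qq S c u z v t) :=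
      (iter_contDiff S.hG _).continuous.comp hqc
    have h0 := this.tendsto 0
    rw [hq0] at h0
    exact h0.eventually (Tube_open.mem_nhds (hT n))
  have hall : ∀ᶠ t : ℝ in 𝓝[≠] 0, 0 < t * w 0 := by
    filter_upwards [hclose, htb.filter_mono nhdsWithin_le_nhds,
      (hnn n).filter_mono nhdsWithin_le_nhds, self_mem_nhdsWithin] with t h1 h2 h3 h4
    have ht : t ≠ 0 := h4
    set R := S.G^[n + 1] (qq S c u z v t) with hR
    set Q := S.G^[n + 1] P with hQ
    set e := t⁻¹ • (R - Q) with he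
    have hRQ : R - Q = t • e := by rw [he, smul_inv_smul₀ ht]
    -- the graph is Lipschitz
    have hlip := (xS_lip S (Tube_reg h2) (y := fun k => xS S (S.G P) (n + k))
      (fun k => xS_zone S hregP _) (fun k => xS_step S hregP _) (fun k => xS_bdd S hregP _)
      (d := ‖R - Q‖) (norm_nonneg _) (fun i _ => by
        show |xS S (S.G P) n i - R i| ≤ _
        rw [← htube n, abs_sub_comm]
        exact coord_le le_rfl i)).2
    have hQ0 : xS S (S.G P) (n + 0) 0 = Q 0 := by rw [add_zero, ← htube n]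
    simp only [hQ0] at hlip
    have hJ : JJ S R = (R - Q) 0 + (Q 0 - xS S R 0 0) := by
      unfold JJ; simp only [Pi.sub_apply]; ring
    rw [hJ, hRQ] at h3
    rw [hRQ, norm_smul, Real.norm_eq_abs] at hlip
    simp only [Pi.smul_apply, smul_eq_mul] at h3
    have he0 : |e 0 - w 0| < gap / 4 := (norm_le_pi_norm (e - w) 0).trans_lt h1
    have hen : ‖e‖ ≤ ‖w‖ + gap / 4 := by
      have := norm_le_norm_sub_add e w
      linarith
    rw [abs_le] at hlip
    rw [abs_lt] at he0
    -- conclude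
    by_contra hcon
    rw [not_lt] at hcon
    have hw0 : w 0 ≠ 0 := by
      intro h
      rw [h, abs_zero] at hgap
      have := norm_nonneg w
      linarith
    have hta : 0 < |t| := abs_pos.2 ht
    have hprod : t * w 0 = -(|t| * |w 0|) := by
      rw [← abs_mul, abs_of_nonpos hcon, neg_neg]
    have h5 : t * e 0 = t * w 0 + t * (e 0 - w 0) := by ring
    have h6 : t * (e 0 - w 0) ≤ |t| * (gap / 4) := by
      refine (le_abs_self _).trans ?_
      rw [abs_mul]
      exact mul_le_mul_of_nonneg_left (abs_lt.2 he0).le hta.le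
    have h7 : 2 / 3 * (|t| * ‖e‖) ≤ |t| * (2 / 3 * (‖w‖ + gap / 4)) := by
      have := mul_le_mul_of_nonneg_left hen hta.le
      linarith
    have h8 : 0 ≤ |t| * (-|w 0| + gap / 4 + 2 / 3 * (‖w‖ + gap / 4)) := by
      have : |t| * (-|w 0| + gap / 4 + 2 / 3 * (‖w‖ + gap / 4)) =
        -(|t| * |w 0|) + |t| * (gap / 4) + |t| * (2 / 3 * (‖w‖ + gap / 4)) := by ring
      rw [this, ← hprod]
      linarith [hlip.2]
    have h9 := nonneg_of_mul_nonneg_right h8 hta
    rw [hgap] at h9 hgap0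
    linarith
  -- both signs of `t` are available
  have hp1 : ∀ᶠ t : ℝ in 𝓝[>] 0, 0 < t * w 0 := hall.filter_mono (nhdsWithin_mono _ (by
    intro t (ht : 0 < t); exact ht.ne'))
  have hp2 : ∀ᶠ t : ℝ in 𝓝[<] 0, 0 < t * w 0 := hall.filter_mono (nhdsWithin_mono _ (by
    intro t (ht : t < 0); exact ht.ne))
  obtain ⟨t1, h1, h1'⟩ := (hp1.and self_mem_nhdsWithin).exists
  obtain ⟨t2, h2, h2'⟩ := (hp2.and self_mem_nhdsWithin).exists
  have h1'' : 0 < t1 := h1'
  have h2'' : t2 < 0 := h2'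
  have hw1 : 0 < w 0 := by
    by_contra hcon
    rw [not_lt] at hcon
    nlinarith
  nlinarith

end Pool.Agent.W712.RC
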