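import Pool.Agent.W712.RC.Leaf

set_option autoImplicit false

/-! # A dense orbit of the linear automorphism -/

open Set Filter Topology Real

namespace Pool.Agent.W712.RC

theorem AT_iter (θ : ℝ × ℝ) (k : ℕ) : AT^[k] θ = (ph ^ k * θ.1, (1 - ph) ^ k * θ.2) := by
  induction k with
  | zero => simp
  | succ k ih =>
    rw [Function.iterate_succ_apply', ih]
    unfold AT
    ext
    · simp only; ring
    · simp only; ring

/-- Planar lattice vectors. -/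
def L2 (θ : ℝ × ℝ) : Prop := (![θ.1, θ.2, 0, 0] : E) ∈ Ltc

theorem L2_of (m n : ℤ) : L2 (ph * m + n, m - ph * n) :=
  ⟨m, n, 0, 0, by refine ext4 rfl rfl ?_ ?_ <;> simp⟩

theorem L2_add {θ θ' : ℝ × ℝ} (h : L2 θ) (h' : L2 θ') : L2 (θ + θ') := by
  have := Ltc.add_mem h h'
  unfold L2
  convert this using 1
  refine ext4 rfl rfl ?_ ?_ <;> simp

theorem L2_neg {θ : ℝ × ℝ} (h : L2 θ) : L2 (-θ) := by
  have := Ltc.neg_mem h
  unfold L2
  convert this using 1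
  refine ext4 rfl rfl ?_ ?_ <;> simp

theorem L2_AT {θ : ℝ × ℝ} (h : L2 θ) (k : ℕ) : L2 (AT^[k] θ) := by
  have := lat_orb h (k : ℤ)
  rw [zpow_natCast, zpow_natCast] at this
  rw [AT_iter]
  exact this

theorem ph_irr : Irrational ph := Real.goldenRatio_irrational

theorem dense1 (x : ℝ) {ε : ℝ} (hε : 0 < ε) : ∃ θ : ℝ × ℝ, L2 θ ∧ |θ.1 - x| < ε := by
  have hd : Dense (AddSubgroup.closure {ph, (1 : ℝ)} : Set ℝ) := by
    rw [dense_addSubgroupClosure_pair_iff, div_one]; exact ph_irr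
  obtain ⟨y, hy, hyx⟩ := hd.exists_dist_lt x hε
  obtain ⟨m, n, rfl⟩ := AddSubgroup.mem_closure_pair.1 hy
  refine ⟨_, L2_of m n, ?_⟩
  rw [Real.dist_eq, abs_sub_comm] at hyx
  simp only [zsmul_eq_mul, mul_one] at hyx
  show |ph * m + n - x| < ε
  rwa [mul_comm ph]

theorem dense2 (x : ℝ) {ε : ℝ} (hε : 0 < ε) : ∃ θ : ℝ × ℝ, L2 θ ∧ |θ.2 - x| < ε := by
  have hd : Dense (AddSubgroup.closure {ph, (1 : ℝ)} : Set ℝ) := by
    rw [dense_addSubgroupClosure_pair_iff, div_one]; exact ph_irr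
  obtain ⟨y, hy, hyx⟩ := hd.exists_dist_lt x hε
  obtain ⟨m, n, rfl⟩ := AddSubgroup.mem_closure_pair.1 hy
  refine ⟨_, L2_of n (-m), ?_⟩
  rw [Real.dist_eq, abs_sub_comm] at hyx
  simp only [zsmul_eq_mul, mul_one] at hyx
  show |(n : ℝ) - ph * ((-m : ℤ) : ℝ) - x| < ε
  push_cast
  rw [show (n : ℝ) - ph * -m - x = m * ph + n - x by ring]
  exact hyx

theorem topo_trans {U V : Set (ℝ × ℝ)} (hU : IsOpen U) (hV : IsOpen V) (hUn : U.Nonempty)
    (hVn : V.Nonempty) : ∃ θ ∈ U, ∃ k : ℕ, ∃ l, L2 l ∧ AT^[k] θ + l ∈ V := by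
  have g1 := ph_gt
  have g2 := ph_lt
  obtain ⟨p, hp⟩ := hUn
  obtain ⟨q, hq⟩ := hVn
  obtain ⟨ε, hε, hεU⟩ := Metric.isOpen_iff.1 hU p hp
  obtain ⟨ε', hε', hεV⟩ := Metric.isOpen_iff.1 hV q hq
  obtain ⟨l, hl, hlp⟩ := dense1 p.1 (half_pos hε)
  obtain ⟨l', hl', hlq⟩ := dense2 q.2 (half_pos hε')
  have t1 : Tendsto (fun k : ℕ => |(ph - 1) ^ k * (q.1 - l'.1)|) atTop (𝓝 0) := by
    have h1 : Tendsto (fun k : ℕ => (ph - 1) ^ k * (q.1 - l'.1)) atTop (𝓝 (0 * (q.1 - l'.1))) :=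
      (tendsto_pow_atTop_nhds_zero_of_lt_one (by linarith) (by linarith)).mul_const _
    rw [zero_mul] at h1
    simpa using h1.abs
  have t2 : Tendsto (fun k : ℕ => |(1 - ph) ^ k * (p.2 - l.2)|) atTop (𝓝 0) := by
    have h1 : Tendsto (fun k : ℕ => (1 - ph) ^ k * (p.2 - l.2)) atTop (𝓝 (0 * (p.2 - l.2))) :=
      (tendsto_pow_atTop_nhds_zero_of_abs_lt_one (by
        rw [abs_of_neg (by linarith)]; linarith)).mul_const _
    rw [zero_mul] at h1
    simpa using h1.abs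
  obtain ⟨k, hk1, hk2⟩ := ((t1.eventually (gt_mem_nhds (half_pos hε))).and
    (t2.eventually (gt_mem_nhds (half_pos hε')))).exists
  refine ⟨(l.1 + (ph - 1) ^ k * (q.1 - l'.1), p.2), hεU ?_, k, l' + -(AT^[k] l), 
    L2_add hl' (L2_neg (L2_AT hl k)), hεV ?_⟩
  · rw [Metric.mem_ball, Prod.dist_eq, max_lt_iff, Real.dist_eq, Real.dist_eq]
    constructor
    · show |l.1 + (ph - 1) ^ k * (q.1 - l'.1) - p.1| < ε
      rw [show l.1 + (ph - 1) ^ k * (q.1 - l'.1) - p.1 = (l.1 - p.1) +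
        (ph - 1) ^ k * (q.1 - l'.1) by ring]
      exact (abs_add_le _ _).trans_lt (by linarith)
    · show |p.2 - p.2| < ε
      rw [sub_self, abs_zero]; exact hε
  · have hmul : ph ^ k * (ph - 1) ^ k = 1 := by
      rw [← mul_pow]
      have : ph * (ph - 1) = 1 := by linear_combination ph_sq
      rw [this, one_pow]
    rw [Metric.mem_ball, Prod.dist_eq, max_lt_iff, Real.dist_eq, Real.dist_eq, AT_iter, AT_iter]
    constructor
    · show |ph ^ k * (l.1 + (ph - 1) ^ k * (q.1 - l'.1)) + (l'.1 + -(ph ^ k * l.1)) - q.1| < ε'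
      rw [show ph ^ k * (l.1 + (ph - 1) ^ k * (q.1 - l'.1)) + (l'.1 + -(ph ^ k * l.1)) - q.1 = 0 by
        linear_combination (q.1 - l'.1) * hmul, abs_zero]
      exact hε'
    · show |(1 - ph) ^ k * p.2 + (l'.2 + -((1 - ph) ^ k * l.2)) - q.2| < ε'
      rw [show (1 - ph) ^ k * p.2 + (l'.2 + -((1 - ph) ^ k * l.2)) - q.2 =
        (1 - ph) ^ k * (p.2 - l.2) + (l'.2 - q.2) by ring]
      exact (abs_add_le _ _).trans_lt (by linarith)

theorem AT_cont : Continuous AT := by unfold AT; fun_prop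

theorem dense_orbit : ∃ θ : ℝ × ℝ, Dense {η : ℝ × ℝ | ∃ k : ℕ, ∃ l, L2 l ∧ η = AT^[k] θ + l} := by
  set W : Set (ℝ × ℝ) → Set (ℝ × ℝ) := fun V => {θ | ∃ k : ℕ, ∃ l, L2 l ∧ AT^[k] θ + l ∈ V}
    with hW
  have hopen : ∀ V, IsOpen V → IsOpen (W V) := by
    intro V hV
    have : W V = ⋃ k : ℕ, ⋃ l ∈ {l | L2 l}, (fun θ => AT^[k] θ + l) ⁻¹' V := by
      ext θ; simp [hW]
    rw [this]
    exact isOpen_iUnion fun k => isOpen_biUnion fun l _ =>
      hV.preimage ((AT_cont.iterate k).add continuous_const)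
  have hdense : ∀ V, IsOpen V → V.Nonempty → Dense (W V) := by
    intro V hV hVn
    rw [dense_iff_inter_open]
    intro U hU hUn
    obtain ⟨θ, hθ, k, l, hl, h⟩ := topo_trans hU hV hUn hVn
    exact ⟨θ, hθ, k, l, hl, h⟩
  have hB := TopologicalSpace.isBasis_countableBasis (ℝ × ℝ)
  have hres : Dense (⋂ V ∈ TopologicalSpace.countableBasis (ℝ × ℝ), W V) :=
    dense_biInter_of_isOpen (fun V hV => hopen V (hB.isOpen hV))
      (TopologicalSpace.countable_countableBasis _)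
      (fun V hV => hdense V (hB.isOpen hV) (TopologicalSpace.nonempty_of_mem_countableBasis hV))
  obtain ⟨θ, hθ⟩ := hres.nonempty
  refine ⟨θ, ?_⟩
  rw [dense_iff_inter_open]
  intro U hU hUn
  obtain ⟨x, hx⟩ := hUn
  obtain ⟨V, hV, hxV, hVU⟩ := hB.exists_subset_of_mem_open hx hU
  rw [mem_iInter₂] at hθ
  obtain ⟨k, l, hl, h⟩ := hθ V hV
  exact ⟨_, hVU h, k, l, hl, rfl⟩

end Pool.Agent.W712.RC
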