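import Pool.Agent.W712.RC.Tan2
import Pool.Agent.W712.RC.Cross
import Pool.Agent.W712.RC.Trans
import Pool.Agent.H728R2.OS.Defs

set_option autoImplicit false

/-! # Descent to the torus -/

open Set Filter Topology Real
open Pool.Agent.H728R2.OS (IsLift IsDiffeo CkClose)

namespace Pool.Agent.W712.RC

theorem pr_cont : Continuous pr := continuous_quotient_mk'

theorem pr_surj (q : MM) : ∃ x, pr x = q := QuotientAddGroup.mk_surjective q

theorem pr_eq {x y : E} : pr x = pr y ↔ y - x ∈ Ltc := by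
  unfold pr
  rw [QuotientAddGroup.eq]
  rw [show -x + y = y - x by abel]

theorem pr_add {x l : E} (hl : l ∈ Ltc) : pr (x + l) = pr x := by
  rw [eq_comm, pr_eq, add_sub_cancel_left]; exact hl

theorem dist_pr (x y : E) : dist (pr x) (pr y) ≤ ‖x - y‖ := by
  rw [dist_eq_norm]
  have : pr x - pr y = ((x - y : E) : E ⧸ Ltc) := rfl
  rw [this]
  exact QuotientAddGroup.norm_mk_le_norm

theorem exists_near {x : E} {q : MM} {ε : ℝ} (h : dist q (pr x) < ε) :
    ∃ y, pr y = q ∧ ‖y - x‖ < ε := by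
  obtain ⟨y, rfl⟩ := pr_surj q
  rw [dist_eq_norm] at h
  have : pr y - pr x = ((y - x : E) : E ⧸ Ltc) := rfl
  rw [this, QuotientAddGroup.norm_lt_iff] at h
  obtain ⟨m, hm, hmε⟩ := h
  refine ⟨x + m, ?_, by simpa using hmε⟩
  rw [QuotientAddGroup.eq] at hm
  rw [pr_eq]
  rw [show y - (x + m) = -m + (y - x) by abel]
  exact hm

/-- Descent of an equivariant map. -/
noncomputable def desc (F : E → E) (A : E → E) (hA : ∀ l ∈ Ltc, A l ∈ Ltc)
    (hF : ∀ x, ∀ l ∈ Ltc, F (x + l) = F x + A l) : MM → MM :=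
  fun q => Quotient.liftOn' q (fun x => pr (F x)) (by
    intro x y h
    rw [QuotientAddGroup.leftRel_apply] at h
    have h1 : y = x + (-x + y) := by abel
    have h2 := hF x (-x + y) h
    rw [← h1] at h2
    show pr (F x) = pr (F y)
    rw [h2, pr_add (hA _ h)])

theorem desc_pr (F : E → E) (A : E → E) (hA : ∀ l ∈ Ltc, A l ∈ Ltc)
    (hF : ∀ x, ∀ l ∈ Ltc, F (x + l) = F x + A l) (x : E) : desc F A hA hF (pr x) = pr (F x) := rfl

theorem desc_cont (F : E → E) (A : E → E) (hA : ∀ l ∈ Ltc, A l ∈ Ltc)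
    (hF : ∀ x, ∀ l ∈ Ltc, F (x + l) = F x + A l) (hc : Continuous F) :
    Continuous (desc F A hA hF) :=
  (pr_cont.comp hc).quotient_liftOn' _

/-- The diffeomorphism. -/
noncomputable def ff : MM ≃ₜ MM where
  toFun := desc FF AL (fun _ h => AL_mem h) (fun _ _ h => FF_add h)
  invFun := desc FI AI (fun _ h => AI_mem h) (fun _ _ h => FI_add h)
  left_inv q := by
    obtain ⟨x, rfl⟩ := pr_surj q
    rw [desc_pr, desc_pr, FI_FF]
  right_inv q := by
    obtain ⟨x, rfl⟩ := pr_surj q
    rw [desc_pr, desc_pr, FF_FI]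
  continuous_toFun := desc_cont _ _ _ _ FF_cd.continuous
  continuous_invFun := desc_cont _ _ _ _ FI_cd.continuous

theorem ff_lift : IsLift pr FF ff := fun _ => rfl
theorem ff_lift' : IsLift pr FI ff.symm := fun _ => rfl

theorem ff_diffeo : IsDiffeo pr 1 ff := ⟨⟨FF, FF_cd, ff_lift⟩, ⟨FI, FI_cd, ff_lift'⟩⟩

/-- Two continuous lifts differ by a constant lattice vector. -/
theorem lift_const {F G : E → E} (hF : Continuous F) (hG : Continuous G)
    (h : ∀ x, pr (F x) = pr (G x)) : ∃ l ∈ Ltc, ∀ x, G x = F x + l := by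
  have hmem : ∀ x, G x - F x ∈ Ltc := fun x => pr_eq.1 (h x)
  have hloc : IsLocallyConstant fun x => G x - F x := by
    rw [IsLocallyConstant.iff_eventually_eq]
    intro x
    have hc : Continuous fun x => G x - F x := hG.sub hF
    have h1 := Metric.tendsto_nhds.1 (hc.tendsto x) 1 one_pos
    filter_upwards [h1] with y hy
    rw [dist_eq_norm] at hy
    exact sub_eq_zero.1 (Lat_small (Ltc.sub_mem (hmem y) (hmem x)) hy)
  refine ⟨G 0 - F 0, hmem 0, fun x => ?_⟩
  have : G x - F x = G 0 - F 0 := hloc.apply_eq_of_preconnectedSpace x 0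
  rw [← this]; abel

theorem lift_iter {F : E → E} {f : MM → MM} (h : IsLift pr F f) (n : ℕ) (z : E) :
    pr (F^[n] z) = f^[n] (pr z) := by
  induction n with
  | zero => rfl
  | succ n ih => rw [Function.iterate_succ_apply', Function.iterate_succ_apply', h, ih]

/-- Normalisation of the perturbations. -/
theorem exists_sys {g : MM ≃ₜ MM} {δ : ℝ} (hδ : δ ≤ 1 / 10000) (hg : IsDiffeo pr 1 g)
    (hc : CkClose pr 1 δ ff g) :
    ∃ S : PSys, S.δ = δ ∧ IsLift pr S.G g ∧ IsLift pr S.H g.symm := by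
  obtain ⟨-, H0, hH0, hH0l⟩ := hg
  obtain ⟨F1, G1, hF1, hG1, hF1l, hG1l, hcl⟩ := hc
  have hF1' : ContDiff ℝ 1 F1 := by exact_mod_cast hF1
  have hG1' : ContDiff ℝ 1 G1 := by exact_mod_cast hG1
  have hH0' : ContDiff ℝ 1 H0 := by exact_mod_cast hH0
  obtain ⟨l1, hl1, h1⟩ := lift_const FF_cd.continuous hF1'.continuous (fun x => by
    rw [ff_lift x, hF1l x])
  set G : E → E := fun x => G1 x - l1 with hG
  have hGcd : ContDiff ℝ 1 G := hG1'.sub contDiff_const
  have hGl : IsLift pr G g := fun x => by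
    have : G x = G1 x + -l1 := by rw [hG]; simp only; abel
    rw [this, pr_add (Ltc.neg_mem hl1)]
    exact hG1l x
  obtain ⟨l2, hl2, h2⟩ := lift_const (F := fun x => x) (G := fun x => H0 (G x)) continuous_id
    (hH0'.continuous.comp hGcd.continuous) (fun x => by
      rw [hH0l (G x), hGl x]; exact (g.symm_apply_apply _).symm)
  set H : E → E := fun x => H0 x - l2 with hH
  have hHcd : ContDiff ℝ 1 H := hH0'.sub contDiff_const
  have hHl : IsLift pr H g.symm := fun x => by
    have : H x = H0 x + -l2 := by rw [hH]; simp only; abel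
    rw [this, pr_add (Ltc.neg_mem hl2)]
    exact hH0l x
  have hHG : ∀ x, H (G x) = x := by
    intro x
    rw [hH]; simp only
    rw [h2 x]; abel
  obtain ⟨l3, hl3, h3⟩ := lift_const (F := fun x => x) (G := fun x => G (H x)) continuous_id
    (hGcd.continuous.comp hHcd.continuous) (fun x => by
      rw [hGl (H x), hHl x]; exact (g.apply_symm_apply _).symm)
  have hGH : ∀ x, G (H x) = x := by
    have e1 := h3 (G 0)
    rw [hHG] at e1
    have e2 : l3 = 0 := by
      have : G 0 = G 0 + l3 := e1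
      simpa using this
    intro x
    have := h3 x
    rw [e2, add_zero] at this
    exact this
  have hdiff : ∀ x, G x - FF x = G1 x - F1 x := by
    intro x
    rw [h1 x, hG]; simp only; abel
  have hbd : ∀ x, ‖G x - FF x‖ ≤ δ := by
    intro x
    rw [hdiff]
    have := hcl 0 (by norm_num) x
    rw [norm_iteratedFDeriv_zero] at this
    exact this.le
  have hδ0 : 0 ≤ δ := (norm_nonneg _).trans (hbd 0)
  have hlip : ∀ x y, ‖(G x - FF x) - (G y - FF y)‖ ≤ δ * ‖x - y‖ := by
    intro x y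
    rw [hdiff, hdiff]
    have hd : ∀ z ∈ (univ : Set E), DifferentiableAt ℝ (fun w => G1 w - F1 w) z := fun z _ =>
      ((hG1'.sub hF1').differentiable one_ne_zero) z
    have hb : ∀ z ∈ (univ : Set E), ‖fderiv ℝ (fun w => G1 w - F1 w) z‖ ≤ δ := fun z _ => by
      have := hcl 1 le_rfl z
      rw [norm_iteratedFDeriv_one] at this
      exact this.le
    have := convex_univ.norm_image_sub_le_of_norm_fderiv_le hd hb (mem_univ y) (mem_univ x)
    exact this
  have hper : ∀ x l, l ∈ Ltc → G (x + l) - FF (x + l) = G x - FF x := by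
    intro x l hl
    have m1 : G (x + l) - G x ∈ Ltc := pr_eq.1 (by rw [hGl, hGl, pr_add hl])
    have m2 : AL l ∈ Ltc := AL_mem hl
    have m3 : (G (x + l) - FF (x + l)) - (G x - FF x) ∈ Ltc := by
      rw [FF_add hl]
      have : G (x + l) - (FF x + AL l) - (G x - FF x) = (G (x + l) - G x) - AL l := by abel
      rw [this]
      exact Ltc.sub_mem m1 m2
    refine sub_eq_zero.1 (Lat_small m3 ?_)
    calc _ ≤ ‖G (x + l) - FF (x + l)‖ + ‖G x - FF x‖ := norm_sub_le _ _
      _ ≤ δ + δ := add_le_add (hbd _) (hbd _)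
      _ < 1 := by linarith
  exact ⟨⟨⟨G, H, δ, hGcd, hHcd, hGH, hHG, hδ0, hδ, hbd, hlip⟩, hper⟩, rfl, hGl, hHl⟩

/-! ### Derivatives at translated points -/

section Trans

variable (S : PSys)

theorem G_iter_add (n : ℕ) (x l : E) (hl : l ∈ Ltc) :
    S.G^[n] (x + l) = S.G^[n] x + AL^[n] l := by
  have hmem : ∀ n : ℕ, AL^[n] l ∈ Ltc := fun n => by
    induction n with
    | zero => exact hl
    | succ n ih => rw [Function.iterate_succ_apply']; exact AL_mem ih
  induction n with
  | zero => rfl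
  | succ n ih =>
    rw [Function.iterate_succ_apply', Function.iterate_succ_apply', Function.iterate_succ_apply',
      ih, S.G_add _ _ (hmem n)]

theorem H_iter_add (n : ℕ) (x l : E) (hl : l ∈ Ltc) :
    S.H^[n] (x + l) = S.H^[n] x + AI^[n] l := by
  have hmem : ∀ n : ℕ, AI^[n] l ∈ Ltc := fun n => by
    induction n with
    | zero => exact hl
    | succ n ih => rw [Function.iterate_succ_apply']; exact AI_mem ih
  induction n with
  | zero => rfl
  | succ n ih =>
    rw [Function.iterate_succ_apply', Function.iterate_succ_apply', Function.iterate_succ_apply',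
      ih, S.H_add _ _ (hmem n)]

theorem fderiv_G_add (n : ℕ) (x l : E) (hl : l ∈ Ltc) :
    fderiv ℝ (S.G^[n]) (x + l) = fderiv ℝ (S.G^[n]) x := by
  rw [← fderiv_comp_add_right (f := S.G^[n]) l]
  have : (fun y => S.G^[n] (y + l)) = fun y => S.G^[n] y + AL^[n] l :=
    funext fun y => G_iter_add S n y l hl
  rw [this, fderiv_add_const]

theorem fderiv_H_add (n : ℕ) (x l : E) (hl : l ∈ Ltc) :
    fderiv ℝ (S.H^[n]) (x + l) = fderiv ℝ (S.H^[n]) x := by
  rw [← fderiv_comp_add_right (f := S.H^[n]) l]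
  have : (fun y => S.H^[n] (y + l)) = fun y => S.H^[n] y + AI^[n] l :=
    funext fun y => H_iter_add S n y l hl
  rw [this, fderiv_add_const]

theorem stab_G_add (x l : E) (hl : l ∈ Ltc) : Stab S.G (x + l) = Stab S.G x := by
  ext v
  simp only [mem_stab, fderiv_G_add S _ x l hl]

theorem stab_H_add (x l : E) (hl : l ∈ Ltc) : Stab S.H (x + l) = Stab S.H x := by
  ext v
  simp only [mem_stab, fderiv_H_add S _ x l hl]

/-- Stable space of the preimage. -/
theorem stab_G_image (x : E) : (Stab S.G x).map (fderiv ℝ S.G x : E →ₗ[ℝ] E) = Stab S.G (S.G x) := by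
  have key : ∀ v, v ∈ Stab S.G x ↔ fderiv ℝ S.G x v ∈ Stab S.G (S.G x) := by
    intro v
    rw [mem_stab, mem_stab, ← tendsto_add_atTop_iff_nat 1]
    simp only [fderiv_iter' S.hG]
  ext w
  constructor
  · rintro ⟨v, hv, rfl⟩
    exact (key v).1 hv
  · intro hw
    refine ⟨fderiv ℝ S.H (S.G x) w, ?_, ?_⟩
    · show fderiv ℝ S.H (S.G x) w ∈ Stab S.G x
      rw [key]
      have := S.dGH (S.G x) w
      rw [S.HG] at this
      rw [this]; exact hw
    · have := S.dGH (S.G x) w
      rw [S.HG] at this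
      exact this

theorem finrank_stab_G (x : E) :
    Module.finrank ℝ (Stab S.G x) = Module.finrank ℝ (Stab S.G (S.G x)) := by
  rw [← stab_G_image]
  have hinj : Function.Injective (fderiv ℝ S.G x : E →ₗ[ℝ] E) := by
    intro v w h
    have h1 := S.dHG x v
    have h2 := S.dHG x w
    have h3 : fderiv ℝ S.G x v = fderiv ℝ S.G x w := h
    rw [← h1, ← h2, h3]
  exact (LinearEquiv.finrank_eq (Submodule.equivMapOfInjective _ hinj _))

end Trans

/-! ### The sets -/

/-- The set `Λ`. -/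
def LL : Set MM := pr '' {x | x 2 = 0 ∧ x 3 = 1 / 2}

/-- The set `Γ`. -/
def GG : Set MM := {pr 0}

theorem LL_compact : IsCompact LL := by
  set K : Set E := {x | ∀ i, x i ∈ Icc (-4 : ℝ) 4} ∩ {x | x 2 = 0 ∧ x 3 = 1 / 2} with hK
  have hKc : IsCompact K := by
    have h1 : IsCompact {x : E | ∀ i, x i ∈ Icc (-4 : ℝ) 4} := isCompact_pi_infinite fun _ => isCompact_Icc
    refine h1.inter_right ?_
    exact (isClosed_eq (continuous_apply 2) continuous_const).inter
      (isClosed_eq (continuous_apply 3) continuous_const)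
  have : LL = pr '' K := by
    apply Subset.antisymm
    · rintro _ ⟨x, ⟨hx2, hx3⟩, rfl⟩
      set m := ⌊xi1 x⌋ with hm
      set n := ⌊xi2 x⌋ with hn
      have g1 := ph_gt
      have g2 := ph_lt
      have hp := ph_sq
      have hl : (![ph * m + n, m - ph * n, 0, 0] : E) ∈ Ltc :=
        ⟨m, n, 0, 0, by refine ext4 rfl rfl ?_ ?_ <;> simp⟩
      refine ⟨x + -![ph * m + n, m - ph * n, 0, 0], ⟨?_, ?_⟩, pr_add (Ltc.neg_mem hl)⟩
      · have a1 := Int.floor_le (xi1 x)
        have a2 := (Int.lt_floor_add_one (xi1 x)).le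
        have a3 := Int.floor_le (xi2 x)
        have a4 := (Int.lt_floor_add_one (xi2 x)).le
        rw [← hm] at a1 a2
        rw [← hn] at a3 a4
        have e0 : x 0 = ph * xi1 x + xi2 x := by
          unfold xi1 xi2
          have : ph + 2 ≠ 0 := by linarith
          field_simp
          linear_combination (-(x 0)) * hp
        have e1 : x 1 = xi1 x - ph * xi2 x := by
          unfold xi1 xi2
          have : ph + 2 ≠ 0 := by linarith
          field_simp
          linear_combination (-(x 1)) * hp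
        intro i
        fin_cases i
        · show x 0 + -(ph * m + n) ∈ _
          rw [e0]
          constructor <;> nlinarith
        · show x 1 + -(m - ph * n) ∈ _
          rw [e1]
          constructor <;> nlinarith
        · show x 2 + -0 ∈ _
          rw [hx2]; norm_num
        · show x 3 + -0 ∈ _
          rw [hx3]; norm_num
      · constructor
        · show x 2 + -0 = 0
          rw [hx2]; norm_num
        · show x 3 + -0 = 1 / 2
          rw [hx3]; norm_num
    · exact image_mono inter_subset_right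
  rw [this]
  exact hKc.image pr_cont

/-- The lift of the continuation map. -/
noncomputable def hLt (S : PSys) (x : E) : E := hL S (x 0, x 1) + ![0, 0, x 2, x 3 - 1 / 2]

theorem hLt_add (S : PSys) (x l : E) (hl : l ∈ Ltc) : hLt S (x + l) = hLt S x + id l := by
  obtain ⟨m, n, k, k', rfl⟩ := mem_Lat.1 hl
  have h2 : (![ph * m + n, m - ph * n, 0, 0] : E) ∈ Ltc :=
    ⟨m, n, 0, 0, by refine ext4 rfl rfl ?_ ?_ <;> simp⟩
  have h1 := hL_add S h2 (x 0, x 1)
  unfold hLt
  have h3 : ((x + ![ph * m + n, m - ph * n, (k : ℝ), (k' : ℝ)]) 0,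
      (x + ![ph * m + n, m - ph * n, (k : ℝ), (k' : ℝ)]) 1) =
      (x 0, x 1) + (ph * m + n, m - ph * n) := rfl
  rw [h3, h1]
  refine ext4 ?_ ?_ ?_ ?_ <;> simp only [id, Pi.add_apply, v4_0, v4_1, v4_2, v4_3] <;> ring

/-- The continuation of `Λ`. -/
noncomputable def hΛ (S : PSys) : MM → MM :=
  desc (hLt S) id (fun _ h => h) (fun x l hl => hLt_add S x l hl)

theorem hΛ_cont (S : PSys) : Continuous (hΛ S) := by
  refine desc_cont _ _ _ _ ?_
  refine ((hL_cont S).comp (by fun_prop)).add (cc4 ?_ ?_ ?_ ?_) <;> fun_prop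

theorem hΛ_apply (S : PSys) {x : E} (h2 : x 2 = 0) (h3 : x 3 = 1 / 2) :
    hΛ S (pr x) = pr (hL S (x 0, x 1)) := by
  show pr (hLt S x) = _
  congr 1
  unfold hLt
  rw [h2, h3, sub_self]
  refine ext4 ?_ ?_ ?_ ?_ <;> simp

theorem LL_image (S : PSys) : hΛ S '' LL = pr '' range (hL S) := by
  apply Subset.antisymm
  · rintro _ ⟨_, ⟨x, ⟨h2, h3⟩, rfl⟩, rfl⟩
    exact ⟨_, ⟨(x 0, x 1), rfl⟩, (hΛ_apply S h2 h3).symm⟩
  · rintro _ ⟨_, ⟨θ, rfl⟩, rfl⟩
    exact ⟨pr ![θ.1, θ.2, 0, 1 / 2], ⟨_, ⟨rfl, rfl⟩, rfl⟩, hΛ_apply S rfl rfl⟩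

end Pool.Agent.W712.RC
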